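import Pool.Agent.Work.MP_ef7f46_ll.Interface

/-!
# Block CDJ: consecutive points on a line
-/

set_option autoImplicit false
open Classical
open EpsNet.Elem (lineThrough spannedLines IsEpsNet)

namespace Pool.LLN

theorem CDJ_mem {P : Finset Pt} {l : Ln} {e : Pt × Pt} (he : e ∈ Cs P l) :
    e.1 ∈ P ∧ e.2 ∈ P ∧ On l e.1 ∧ On l e.2 ∧ e.1.1 < e.2.1 ∧
      ∀ c ∈ P, On l c → ¬ (e.1.1 < c.1 ∧ c.1 < e.2.1) := by
  unfold Cs at he
  rw [Finset.mem_filter, Finset.mem_product] at he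
  exact ⟨he.1.1, he.1.2, he.2⟩

theorem CDJ_sl {l : Ln} {a b : Pt} (ha : On l a) (hb : On l b) (h : a.1 < b.1) : sl a b = l.1 := by
  unfold sl
  unfold On at ha hb
  rw [div_eq_iff (by linarith), ha, hb]
  ring

theorem p_CDJ : Stmt_CDJ := by
  intro P l hP e he
  obtain ⟨h1, h2, h3, h4, h5, h6⟩ := CDJ_mem he
  refine ⟨⟨CDJ_sl h3 h4 h5, ?_⟩, ?_, ?_⟩
  · intro x
    unfold ht
    rw [CDJ_sl h3 h4 h5]
    unfold On at h3
    rw [h3]
    ring
  · intro l' he'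
    obtain ⟨-, -, g3, g4, g5, -⟩ := CDJ_mem he'
    have hs : l.1 = l'.1 := by
      rw [← CDJ_sl h3 h4 h5, CDJ_sl g3 g4 g5]
    have ht : l.2 = l'.2 := by
      unfold On at h3 g3
      rw [h3, hs] at g3
      linarith
    exact Prod.ext hs ht
  · intro e' he' x hx1 hx2 hx3 hx4
    obtain ⟨g1, g2, g3, g4, g5, g6⟩ := CDJ_mem he'
    have hl : e.1.1 = e'.1.1 := by
      rcases lt_trichotomy e.1.1 e'.1.1 with h | h | h
      · exact absurd ⟨h, by linarith⟩ (h6 e'.1 g1 g3)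
      · exact h
      · exact absurd ⟨h, by linarith⟩ (g6 e.1 h1 h3)
    have hr : e.2.1 = e'.2.1 := by
      rcases lt_trichotomy e.2.1 e'.2.1 with h | h | h
      · exact absurd ⟨by linarith, h⟩ (g6 e.2 h2 h4)
      · exact h
      · exact absurd ⟨by linarith, h⟩ (h6 e'.2 g2 g4)
    exact Prod.ext (hP _ h1 _ g1 hl) (hP _ h2 _ g2 hr)

end Pool.LLN
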