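import Pool.Agent.Work.MP_ef7f46_ll.Interface

/-! # Block CON: consecutive points on a line (helper84) -/

set_option autoImplicit false
open Classical
open EpsNet.Elem (lineThrough spannedLines IsEpsNet)

namespace Pool.LLN

theorem p_CON : Stmt_CON := by
  intro P l hP
  rcases (pl P l).eq_empty_or_nonempty with h0 | h0
  · rw [h0, Finset.card_empty]
    exact Nat.zero_le _
  obtain ⟨m, hm, hmax⟩ := Finset.exists_max_image (pl P l) (fun p => p.1) h0
  have hm' := Finset.mem_filter.1 hm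
  have hsub : (pl P l).erase m ⊆ (Cs P l).image Prod.fst := by
    intro a ha
    obtain ⟨ham, ha'⟩ := Finset.mem_erase.1 ha
    have ha2 := Finset.mem_filter.1 ha'
    have hlt : a.1 < m.1 := lt_of_le_of_ne (hmax a ha') fun h => ham (hP a ha2.1 m hm'.1 h)
    have hF : ((pl P l).filter (fun p => a.1 < p.1)).Nonempty :=
      ⟨m, Finset.mem_filter.2 ⟨hm, hlt⟩⟩
    obtain ⟨b, hb, hmin⟩ := Finset.exists_min_image _ (fun p => p.1) hF
    obtain ⟨hb1, hb2⟩ := Finset.mem_filter.1 hb
    have hb3 := Finset.mem_filter.1 hb1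
    refine Finset.mem_image.2 ⟨(a, b), ?_, rfl⟩
    refine Finset.mem_filter.2 ⟨Finset.mem_product.2 ⟨ha2.1, hb3.1⟩, ha2.2, hb3.2, hb2, ?_⟩
    intro c hc hlc hcc
    have h := hmin c (Finset.mem_filter.2 ⟨Finset.mem_filter.2 ⟨hc, hlc⟩, hcc.1⟩)
    exact absurd hcc.2 (not_lt.2 h)
  have h1 := (Finset.card_le_card hsub).trans Finset.card_image_le
  have h2 := Finset.card_erase_add_one hm
  omega

end Pool.LLN
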