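import Pool.Agent.Work.MP_ef7f46_ll.Interface

/-! Block CS0 (helper94): a vertex strictly inside determines the wedge. -/

set_option autoImplicit false
open Classical
open EpsNet.Elem (lineThrough spannedLines IsEpsNet)

namespace Pool.LLN

theorem CS0_sl {a v : Pt} (h : a.1 < v.1) : v.2 = a.2 + sl a v * (v.1 - a.1) := by
  unfold sl
  have h0 : v.1 - a.1 ≠ 0 := by linarith
  rw [div_mul_cancel₀ _ h0]
  ring

theorem CS0_ivt {a b c d : Pt} {u v : ℝ} (huv : u < v) (h1 : ht c d u < ht a b u)
    (h2 : ht a b v < ht c d v) : ∃ x, u < x ∧ x < v ∧ ht a b x = ht c d x := by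
  have hc : ContinuousOn (fun x => ht a b x - ht c d x) (Set.Icc u v) := by
    unfold ht
    fun_prop
  have h := intermediate_value_Ioo' huv.le hc
  have h0 : (0 : ℝ) ∈ Set.Ioo (ht a b v - ht c d v) (ht a b u - ht c d u) := by
    constructor <;> linarith
  obtain ⟨x, hx, hx0⟩ := h h0
  refine ⟨x, hx.1, hx.2, ?_⟩
  have : ht a b x - ht c d x = 0 := hx0
  linarith

theorem CS0_lt (hT : Stmt_TRI) (T : Finset Pt) (E : Finset (Pt × Pt)) (hG : Gr T E)
    (hP : Plane E) (a b c d a' b' c' : Pt) (hN : Nx E a b c) (hL : Lm T a b c d)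
    (h1 : sl a b < sl a d) (h2 : sl a d < sl a c) (hN' : Nx E a' b' c') (hL' : Lm T a' b' c' d)
    (h1' : sl a' b' < sl a' d) (h2' : sl a' d < sl a' c') (hlt : a.1 < a'.1) : False := by
  obtain ⟨t1, t2, -⟩ := hT T E a b c d hG hN hL
  obtain ⟨t1', t2', -⟩ := hT T E a' b' c' d hG hN' hL'
  have had : a.1 < d.1 := hL.2.1
  have had' : a'.1 < d.1 := hL'.2.1
  have ha' : a' ∈ T := hG.left _ hN'.1
  have ed := CS0_sl had
  have ed' := CS0_sl had'
  have ea := CS0_sl hlt
  have hne : a ≠ a' := fun h => by rw [h] at hlt; exact lt_irrefl _ hlt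
  by_cases hw : sl a b ≤ sl a a' ∧ sl a a' ≤ sl a c
  · have := hL.2.2.2.2 a' ha' hlt hw.1 hw.2
    linarith
  · rcases lt_or_ge (sl a a') (sl a b) with h3 | h3
    · -- a' is below the line ab
      have k1 : ht a' c' a'.1 < ht a b a'.1 := by
        unfold ht
        have : sl a a' * (a'.1 - a.1) < sl a b * (a'.1 - a.1) :=
          mul_lt_mul_of_pos_right h3 (by linarith)
        simp only [sub_self, mul_zero, add_zero]
        linarith
      have k2 : ht a b d.1 < ht a' c' d.1 := by
        unfold ht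
        have m1 : sl a b * (d.1 - a.1) < sl a d * (d.1 - a.1) :=
          mul_lt_mul_of_pos_right h1 (by linarith)
        have m2 : sl a' d * (d.1 - a'.1) < sl a' c' * (d.1 - a'.1) :=
          mul_lt_mul_of_pos_right h2' (by linarith)
        linarith
      obtain ⟨x, hx1, hx2, hx3⟩ := CS0_ivt had' k1 k2
      refine hP (a, b) hN.1 (a', c') hN'.2.1 (fun h => hne (congrArg Prod.fst h)) ⟨x, ?_, ?_, ?_,
        ?_, hx3⟩
      · show a.1 < x
        linarith
      · show x < b.1
        linarith
      · exact hx1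
      · show x < c'.1
        linarith
    · have h4 : sl a c < sl a a' := by
        by_contra hc
        exact hw ⟨h3, not_lt.mp hc⟩
      have k1 : ht a c a'.1 < ht a' b' a'.1 := by
        unfold ht
        have : sl a c * (a'.1 - a.1) < sl a a' * (a'.1 - a.1) :=
          mul_lt_mul_of_pos_right h4 (by linarith)
        simp only [sub_self, mul_zero, add_zero]
        linarith
      have k2 : ht a' b' d.1 < ht a c d.1 := by
        unfold ht
        have m1 : sl a d * (d.1 - a.1) < sl a c * (d.1 - a.1) :=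
          mul_lt_mul_of_pos_right h2 (by linarith)
        have m2 : sl a' b' * (d.1 - a'.1) < sl a' d * (d.1 - a'.1) :=
          mul_lt_mul_of_pos_right h1' (by linarith)
        linarith
      obtain ⟨x, hx1, hx2, hx3⟩ := CS0_ivt had' k1 k2
      refine hP (a', b') hN'.1 (a, c) hN.2.1 (fun h => hne (congrArg Prod.fst h).symm) ⟨x, ?_, ?_,
        ?_, ?_, hx3⟩
      · exact hx1
      · show x < b'.1
        linarith
      · show a.1 < x
        linarith
      · show x < c.1
        linarith

theorem p_CS0 (hT : Stmt_TRI) : Stmt_CS0 := by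
  intro T E hG hP a b c d a' b' c' hN hL h1 h2 hN' hL' h1' h2'
  have haT : a ∈ T := hG.left _ hN.1
  have haT' : a' ∈ T := hG.left _ hN'.1
  rcases lt_trichotomy a.1 a'.1 with hlt | heq | hgt
  · exact (CS0_lt hT T E hG hP a b c d a' b' c' hN hL h1 h2 hN' hL' h1' h2' hlt).elim
  · have haa : a = a' := hG.inj a haT a' haT' heq
    subst haa
    refine ⟨rfl, ?_⟩
    have hbT : b ∈ T := hG.right _ hN.1
    have hbT' : b' ∈ T := hG.right _ hN'.1
    have hab : a.1 < b.1 := hG.lt _ hN.1
    have hab' : a.1 < b'.1 := hG.lt _ hN'.1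
    rcases lt_trichotomy (sl a b) (sl a b') with h | h | h
    · exact (hN.2.2.2 b' hN'.1 ⟨h, h1'.trans h2⟩).elim
    · rcases lt_trichotomy b.1 b'.1 with g | g | g
      · refine (hG.free _ hN'.1 b hbT hab g ?_).elim
        show b.2 = ht a b' b.1
        unfold ht
        rw [← h]
        exact CS0_sl hab
      · exact hG.inj b hbT b' hbT' g
      · refine (hG.free _ hN.1 b' hbT' hab' g ?_).elim
        show b'.2 = ht a b b'.1
        unfold ht
        rw [h]
        exact CS0_sl hab'
    · exact (hN'.2.2.2 b hN.1 ⟨h, h1.trans h2'⟩).elim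
  · exact (CS0_lt hT T E hG hP a' b' c' d a b c hN' hL' h1' h2' hN hL h1 h2 hgt).elim

end Pool.LLN
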