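import Pool.Agent.Work.MP_ef7f46_ll.Interface

/-!
# Block CS1 (helper1): the leftmost vertex of a wedge is its lower end point
-/

set_option autoImplicit false
open Classical
open EpsNet.Elem (lineThrough spannedLines IsEpsNet)

namespace Pool.LLN

theorem CS1_zero (p q u v : ℝ) (huv : u < v) (hu : 0 < p + q * u) (hv : p + q * v < 0) :
    ∃ x, u < x ∧ x < v ∧ p + q * x = 0 := by
  have hq : q < 0 := by
    by_contra h
    push Not at h
    nlinarith
  refine ⟨-p / q, ?_, ?_, ?_⟩
  · rw [lt_div_iff_of_neg hq]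
    linarith
  · rw [div_lt_iff_of_neg hq]
    linarith
  · rw [mul_div_cancel₀ _ hq.ne]
    ring

theorem CS1_sl {a b : Pt} (h : a.1 < b.1) : sl a b * (b.1 - a.1) = b.2 - a.2 := by
  unfold sl
  exact div_mul_cancel₀ _ (sub_ne_zero.2 h.ne')

theorem p_CS1 : Stmt_CS1 := by
  intro T E hG hP a b c e hN hL heE hea
  obtain ⟨hab, hac, hslt, -⟩ := hN
  obtain ⟨hbT, -, -, -, hleft⟩ := hL
  by_contra hcon
  push Not at hcon
  have haT : a ∈ T := hG.left _ hab
  have heT : e ∈ T := hG.left _ heE
  have hcT : c ∈ T := hG.right _ hac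
  have ab : a.1 < b.1 := hG.lt _ hab
  have ac : a.1 < c.1 := hG.lt _ hac
  have eb : e.1 < b.1 := hG.lt _ heE
  have sab := CS1_sl ab
  have sac := CS1_sl ac
  have seb := CS1_sl eb
  have hbc : b.1 ≤ c.1 := hleft c hcT ac hslt.le le_rfl
  have hne1 : e.1 ≠ a.1 := fun h => hea (hG.inj e heT a haT h)
  rcases hcon.eq_or_lt with heq | hlt
  · rw [heq] at seb
    rcases lt_or_gt_of_ne hne1 with h | h
    · refine hG.free _ heE a haT h ab ?_
      simp only [ht]
      rw [heq]
      linear_combination sab - seb
    · refine hG.free _ hab e heT h eb ?_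
      simp only [ht]
      linear_combination seb - sab
  · have hfb : b.2 < a.2 + sl a c * (b.1 - a.1) := by
      nlinarith [mul_pos (sub_pos.2 hslt) (sub_pos.2 ab)]
    have hmain : ∀ u, u < b.1 → a.1 ≤ u → e.1 ≤ u →
        a.2 + sl a c * (u - a.1) < e.2 + sl e b * (u - e.1) → False := by
      intro u hu hau heu hlt'
      obtain ⟨x, hx1, hx2, hx3⟩ := CS1_zero
        ((e.2 - sl e b * e.1) - (a.2 - sl a c * a.1)) (sl e b - sl a c) u b.1 hu
        (by linarith) (by nlinarith)
      refine hP (e, b) heE (a, c) hac ?_ ⟨x, ?_, hx2, ?_, ?_, ?_⟩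
      · intro h
        exact hea (congrArg Prod.fst h)
      · exact lt_of_le_of_lt heu hx1
      · exact lt_of_le_of_lt hau hx1
      · exact lt_of_lt_of_le hx2 hbc
      · simp only [ht]
        linear_combination hx3
    rcases lt_or_gt_of_ne hne1 with h | h
    · refine hmain a.1 ab le_rfl h.le ?_
      have h1 : e.2 + sl e b * (a.1 - e.1) = b.2 - sl e b * (b.1 - a.1) := by
        linear_combination seb
      rw [h1]
      nlinarith [mul_pos (sub_pos.2 hlt) (sub_pos.2 ab)]
    · refine hmain e.1 eb h.le le_rfl ?_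
      have sae := CS1_sl h
      have h2 : sl a b < sl a e := by
        have h3 : 0 < (sl a e - sl a b) * (e.1 - a.1) := by
          have : (sl a e - sl a b) * (e.1 - a.1) = (sl a b - sl e b) * (b.1 - e.1) := by
            linear_combination sae - sab + seb
          rw [this]
          exact mul_pos (sub_pos.2 hlt) (sub_pos.2 eb)
        have h4 := (pos_iff_pos_of_mul_pos h3).2 (sub_pos.2 h)
        linarith
      have h5 : sl a c < sl a e := by
        by_contra h6
        push Not at h6
        have := hleft e heT h h2.le h6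
        linarith
      nlinarith [mul_pos (sub_pos.2 h5) (sub_pos.2 h)]

end Pool.LLN
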