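import Pool.Agent.Work.MP_ef7f46_ll.Interface

/-! # THEOREM LL (MP_ef7f46_co), block CS2 -/

set_option autoImplicit false
open Classical
open EpsNet.Elem (lineThrough spannedLines IsEpsNet)

namespace Pool.LLN

theorem CS2_pt (a b : Pt) (h : a.1 < b.1) : b.2 = a.2 + sl a b * (b.1 - a.1) := by
  have h1 : b.1 - a.1 ≠ 0 := by linarith
  unfold sl
  field_simp
  ring

theorem CS2_zero (p q u v : ℝ) (huv : u < v) (h1 : p + q * u < 0) (h2 : 0 < p + q * v) :
    ∃ x, u < x ∧ x < v ∧ p + q * x = 0 := by
  have hq : 0 < q := by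
    by_contra hq
    have : q * (v - u) ≤ 0 := mul_nonpos_of_nonpos_of_nonneg (not_lt.1 hq) (by linarith)
    nlinarith
  refine ⟨-p / q, ?_, ?_, ?_⟩
  · rw [lt_div_iff₀ hq]
    linarith
  · rw [div_lt_iff₀ hq]
    linarith
  · field_simp
    ring

theorem p_CS2 : Stmt_CS2 := by
  intro T E hG hP a b c e hN hL hec hea
  by_contra hcon
  have hu : sl a c ≤ sl e c := not_lt.1 hcon
  obtain ⟨hab, hac, hs, _⟩ := hN
  obtain ⟨_, ha1, _, _, hmin⟩ := hL
  have hlab : a.1 < b.1 := hG.lt (a, b) hab
  have hlec : e.1 < c.1 := hG.lt (e, c) hec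
  have haT : a ∈ T := hG.left (a, b) hab
  have hbT : b ∈ T := hG.right (a, b) hab
  have heT : e ∈ T := hG.left (e, c) hec
  have hcb : c.1 ≤ b.1 := hmin b hbT hlab le_rfl hs.le
  have c1 : c.2 = a.2 + sl a c * (c.1 - a.1) := CS2_pt a c ha1
  have c2 : c.2 = e.2 + sl e c * (c.1 - e.1) := CS2_pt e c hlec
  have hne : ((e, c) : Pt × Pt) ≠ (a, b) := by
    intro h
    exact hea (Prod.ext_iff.1 h).1
  -- the difference of the heights
  have key : ∀ x0 : ℝ, e.1 ≤ x0 → a.1 ≤ x0 → x0 < c.1 → ht e c x0 < ht a b x0 → False := by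
    intro x0 hx1 hx2 hx3 hlt
    have h2 : ht a b c.1 < ht e c c.1 := by
      unfold ht
      rw [← c2]
      have : sl a b * (c.1 - a.1) < sl a c * (c.1 - a.1) :=
        mul_lt_mul_of_pos_right hs (by linarith)
      linarith
    obtain ⟨x, g1, g2, g3⟩ := CS2_zero
      (e.2 - sl e c * e.1 - a.2 + sl a b * a.1) (sl e c - sl a b) x0 c.1 hx3
      (by unfold ht at hlt; linarith) (by unfold ht at h2; linarith)
    refine hP (e, c) hec (a, b) hab hne ⟨x, ?_, ?_, ?_, ?_, ?_⟩
    · show e.1 < x
      linarith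
    · show x < c.1
      linarith
    · show a.1 < x
      linarith
    · show x < b.1
      linarith
    · show ht e c x = ht a b x
      unfold ht
      linarith
  rcases lt_trichotomy e.1 a.1 with h | h | h
  · -- `e` to the left of `a`
    rcases hu.eq_or_lt with h0 | h0
    · refine hG.free (e, c) hec a haT h ha1 ?_
      show a.2 = ht e c a.1
      unfold ht
      rw [← h0] at c2 ⊢
      linarith
    · refine key a.1 h.le le_rfl ha1 ?_
      unfold ht
      have : sl a c * (c.1 - a.1) < sl e c * (c.1 - a.1) :=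
        mul_lt_mul_of_pos_right h0 (by linarith)
      linarith
  · exact hea (hG.inj e heT a haT h)
  · -- `e` to the right of `a`
    rcases hu.eq_or_lt with h0 | h0
    · refine hG.free (a, c) hac e heT h hlec ?_
      show e.2 = ht a c e.1
      unfold ht
      rw [← h0] at c2
      linarith
    · have e2 : e.2 = a.2 + sl a e * (e.1 - a.1) := CS2_pt a e h
      have hpos : 0 < e.1 - a.1 := by linarith
      have hSe : sl a e < sl a c := by
        have h3 : sl a c * (c.1 - e.1) < sl e c * (c.1 - e.1) :=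
          mul_lt_mul_of_pos_right h0 (by linarith)
        have h4 : sl a e * (e.1 - a.1) < sl a c * (e.1 - a.1) := by linarith
        exact lt_of_mul_lt_mul_right h4 hpos.le
      have hse : sl a e < sl a b := by
        by_contra hh
        exact absurd (hmin e heT h (not_lt.1 hh) hSe.le) (by linarith)
      refine key e.1 le_rfl h.le hlec ?_
      unfold ht
      have : sl a e * (e.1 - a.1) < sl a b * (e.1 - a.1) := mul_lt_mul_of_pos_right hse hpos
      linarith

end Pool.LLN
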