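import Pool.Agent.Work.MP_ef7f46_ll.Interface

/-!
# Block DX1: a random set of lines
-/

set_option autoImplicit false
open Classical
open EpsNet.Elem (lineThrough spannedLines IsEpsNet)

namespace Pool.LLN

theorem DX1_mu_nonneg {β : Type} (L U : Finset β) (a : β → ℝ) (hU : U ⊆ L)
    (ha : ∀ l ∈ L, 0 ≤ a l ∧ a l ≤ 1) : 0 ≤ mu L a U := by
  unfold mu
  exact mul_nonneg (Finset.prod_nonneg fun l hl => (ha l (hU hl)).1)
    (Finset.prod_nonneg fun l hl => sub_nonneg.2 (ha l (Finset.mem_sdiff.1 hl).1).2)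

theorem DX1_one {β : Type} (L : Finset β) (m : Finset β → ℝ) (f : β → ℝ) :
    ∑ U ∈ L.powerset, m U * ∑ l ∈ U, f l =
      ∑ l ∈ L, (∑ U ∈ L.powerset.filter (fun U => {l} ⊆ U), m U) * f l := by
  have h1 : ∀ U ∈ L.powerset, m U * ∑ l ∈ U, f l = ∑ l ∈ L, if l ∈ U then m U * f l else 0 := by
    intro U hU
    rw [Finset.mul_sum, ← Finset.sum_subset (Finset.mem_powerset.1 hU)]
    · refine Finset.sum_congr rfl fun l hl => ?_
      rw [if_pos hl]
    · intro l _ hl
      rw [if_neg hl]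
  rw [Finset.sum_congr rfl h1, Finset.sum_comm]
  refine Finset.sum_congr rfl fun l _ => ?_
  rw [← Finset.sum_filter, Finset.sum_mul]
  congr 1
  ext U
  simp only [Finset.mem_filter, Finset.singleton_subset_iff]

theorem DX1_two {β : Type} (L : Finset β) (m : Finset β → ℝ) (d : β → β → ℝ) :
    ∑ U ∈ L.powerset, m U * ∑ l ∈ U, ∑ l' ∈ U, d l l' =
      ∑ l ∈ L, ∑ l' ∈ L,
        (∑ U ∈ L.powerset.filter (fun U => {l, l'} ⊆ U), m U) * d l l' := by
  have h1 : ∀ U ∈ L.powerset, m U * ∑ l ∈ U, ∑ l' ∈ U, d l l' =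
      ∑ l ∈ L, ∑ l' ∈ L, if l ∈ U ∧ l' ∈ U then m U * d l l' else 0 := by
    intro U hU
    have hUL := Finset.mem_powerset.1 hU
    rw [Finset.mul_sum, ← Finset.sum_subset hUL]
    · refine Finset.sum_congr rfl fun l hl => ?_
      rw [Finset.mul_sum, ← Finset.sum_subset hUL]
      · refine Finset.sum_congr rfl fun l' hl' => ?_
        rw [if_pos ⟨hl, hl'⟩]
      · intro l' _ hl'
        rw [if_neg (fun h => hl' h.2)]
    · intro l _ hl
      refine Finset.sum_eq_zero fun l' _ => ?_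
      rw [if_neg (fun h => hl h.1)]
  rw [Finset.sum_congr rfl h1, Finset.sum_comm]
  refine Finset.sum_congr rfl fun l _ => ?_
  rw [Finset.sum_comm]
  refine Finset.sum_congr rfl fun l' _ => ?_
  rw [← Finset.sum_filter, Finset.sum_mul]
  congr 1
  ext U
  simp only [Finset.mem_filter, Finset.insert_subset_iff, Finset.singleton_subset_iff]

theorem p_DX1 (hE : Stmt_EXP) : Stmt_DX1 := by
  intro β L a c d K ha hd h
  have h1 : ∑ U ∈ L.powerset, mu L a U * ∑ l ∈ U, c l ≤
      ∑ U ∈ L.powerset, mu L a U * (K + ∑ l ∈ U, ∑ l' ∈ U, d l l') :=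
    Finset.sum_le_sum fun U hU => mul_le_mul_of_nonneg_left (h U (Finset.mem_powerset.1 hU))
      (DX1_mu_nonneg L U a (Finset.mem_powerset.1 hU) ha)
  have h2 : ∑ U ∈ L.powerset, mu L a U = 1 := by
    have h3 := hE β L ∅ a (Finset.empty_subset _)
    rw [Finset.prod_empty, Finset.filter_true_of_mem (fun U _ => Finset.empty_subset U)] at h3
    exact h3
  simp only [mul_add] at h1
  rw [DX1_one, Finset.sum_add_distrib, ← Finset.sum_mul, h2, one_mul, DX1_two] at h1
  have h4 : ∑ l ∈ L, (∑ U ∈ L.powerset.filter (fun U => {l} ⊆ U), mu L a U) * c l =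
      ∑ l ∈ L, a l * c l := by
    refine Finset.sum_congr rfl fun l hl => ?_
    rw [hE β L {l} a (Finset.singleton_subset_iff.2 hl), Finset.prod_singleton]
  have h5 : ∑ l ∈ L, ∑ l' ∈ L,
        (∑ U ∈ L.powerset.filter (fun U => {l, l'} ⊆ U), mu L a U) * d l l' =
      ∑ l ∈ L, ∑ l' ∈ L, a l * a l' * d l l' := by
    refine Finset.sum_congr rfl fun l hl => Finset.sum_congr rfl fun l' hl' => ?_
    by_cases hll : l = l'
    · subst hll
      rw [hd l hl, mul_zero, mul_zero]
    · rw [hE β L {l, l'} a (Finset.insert_subset hl (Finset.singleton_subset_iff.2 hl')),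
        Finset.prod_pair hll]
  rw [h4, h5] at h1
  exact h1

end Pool.LLN
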