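import Pool.Agent.Work.MP_ef7f46_ll.Interface

/-!
# Block DX2: random set of points
-/

set_option autoImplicit false
open Classical
open EpsNet.Elem (lineThrough spannedLines IsEpsNet)

namespace Pool.LLN

lemma DX2_mu_nonneg {α : Type} (V T : Finset α) (q : ℝ) (h0 : 0 ≤ q) (h1 : q ≤ 1) :
    0 ≤ mu V (fun _ => q) T := by
  unfold mu
  exact mul_nonneg (Finset.prod_nonneg fun _ _ => h0)
    (Finset.prod_nonneg fun _ _ => sub_nonneg.2 h1)

lemma DX2_sum (hEXP : Stmt_EXP) {α γ : Type} (V : Finset α) (C : Finset γ) (s : γ → Finset α)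
    (q : ℝ) (k : ℕ) (h : ∀ e ∈ C, s e ⊆ V ∧ (s e).card = k) :
    ∑ T ∈ V.powerset, mu V (fun _ => q) T * (((C.filter (fun e => s e ⊆ T)).card : ℕ) : ℝ) =
      q ^ k * (C.card : ℝ) := by
  have h1 : ∀ T ∈ V.powerset,
      mu V (fun _ => q) T * (((C.filter (fun e => s e ⊆ T)).card : ℕ) : ℝ) =
        ∑ e ∈ C, if s e ⊆ T then mu V (fun _ => q) T else 0 := by
    intro T _
    rw [Finset.natCast_card_filter, Finset.mul_sum]
    refine Finset.sum_congr rfl fun e _ => ?_
    rw [mul_ite, mul_one, mul_zero]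
  rw [Finset.sum_congr rfl h1, Finset.sum_comm]
  have h2 : ∀ e ∈ C, (∑ T ∈ V.powerset, if s e ⊆ T then mu V (fun _ => q) T else 0) = q ^ k := by
    intro e he
    rw [← Finset.sum_filter, hEXP α V (s e) (fun _ => q) (h e he).1, Finset.prod_const,
      (h e he).2]
  rw [Finset.sum_congr rfl h2, Finset.sum_const, nsmul_eq_mul, mul_comm]

/-- Block DX2. -/
theorem p_DX2 (hEXP : Stmt_EXP) : Stmt_DX2 := by
  intro α β γ δ V L C s D t a q hC hD hD1 ha hq hq1 hyp
  have hm : ∀ T ∈ V.powerset, 0 ≤ mu V (fun _ => q) T := fun T _ =>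
    DX2_mu_nonneg V T q hq.le hq1
  have hsum := Finset.sum_le_sum fun T hT =>
    mul_le_mul_of_nonneg_left (hyp T (Finset.mem_powerset.1 hT)) (hm T hT)
  have hL : ∑ T ∈ V.powerset, mu V (fun _ => q) T *
      (∑ l ∈ L, a l * (((C l).filter (fun e => s e ⊆ T)).card : ℝ)) =
      q ^ 2 * ∑ l ∈ L, a l * ((C l).card : ℝ) := by
    have h1 : ∀ T ∈ V.powerset, mu V (fun _ => q) T *
        (∑ l ∈ L, a l * (((C l).filter (fun e => s e ⊆ T)).card : ℝ)) =
        ∑ l ∈ L, a l * (mu V (fun _ => q) T * (((C l).filter (fun e => s e ⊆ T)).card : ℝ)) := by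
      intro T _
      rw [Finset.mul_sum]
      refine Finset.sum_congr rfl fun l _ => ?_
      ring
    rw [Finset.sum_congr rfl h1, Finset.sum_comm, Finset.mul_sum]
    refine Finset.sum_congr rfl fun l hl => ?_
    rw [← Finset.mul_sum, DX2_sum hEXP V (C l) s q 2 (hC l hl)]
    ring
  have hT : ∑ T ∈ V.powerset, mu V (fun _ => q) T * (T.card : ℝ) = q * (V.card : ℝ) := by
    have h1 : ∀ T ∈ V.powerset, mu V (fun _ => q) T * (T.card : ℝ) =
        mu V (fun _ => q) T * (((V.filter (fun e => ({e} : Finset α) ⊆ T)).card : ℕ) : ℝ) := by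
      intro T hT
      congr 3
      ext x
      rw [Finset.mem_filter, Finset.singleton_subset_iff]
      exact ⟨fun h => ⟨Finset.mem_powerset.1 hT h, h⟩, fun h => h.2⟩
    rw [Finset.sum_congr rfl h1, DX2_sum hEXP V V (fun e => {e}) q 1, pow_one]
    intro e he
    exact ⟨Finset.singleton_subset_iff.2 he, Finset.card_singleton e⟩
  have hR : ∑ T ∈ V.powerset, mu V (fun _ => q) T * (4 * (T.card : ℝ) +
      ∑ l ∈ L, ∑ l' ∈ L, a l * a l' * (((D l l').filter (fun f => t f ⊆ T)).card : ℝ)) =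
      4 * (q * (V.card : ℝ)) + q ^ 4 * ∑ l ∈ L, ∑ l' ∈ L, a l * a l' * ((D l l').card : ℝ) := by
    have h1 : ∀ T ∈ V.powerset, mu V (fun _ => q) T * (4 * (T.card : ℝ) +
        ∑ l ∈ L, ∑ l' ∈ L, a l * a l' * (((D l l').filter (fun f => t f ⊆ T)).card : ℝ)) =
        4 * (mu V (fun _ => q) T * (T.card : ℝ)) + ∑ l ∈ L, ∑ l' ∈ L, a l * a l' *
          (mu V (fun _ => q) T * (((D l l').filter (fun f => t f ⊆ T)).card : ℝ)) := by
      intro T _
      rw [mul_add, Finset.mul_sum]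
      congr 1
      · ring
      · refine Finset.sum_congr rfl fun l _ => ?_
        rw [Finset.mul_sum]
        refine Finset.sum_congr rfl fun l' _ => ?_
        ring
    rw [Finset.sum_congr rfl h1, Finset.sum_add_distrib, ← Finset.mul_sum, hT]
    congr 1
    rw [Finset.sum_comm, Finset.mul_sum]
    refine Finset.sum_congr rfl fun l hl => ?_
    rw [Finset.sum_comm, Finset.mul_sum]
    refine Finset.sum_congr rfl fun l' hl' => ?_
    rw [← Finset.mul_sum, DX2_sum hEXP V (D l l') t q 4 (hD l hl l' hl')]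
    ring
  rw [hL, hR] at hsum
  have hDle : ∑ l ∈ L, ∑ l' ∈ L, a l * a l' * ((D l l').card : ℝ) ≤ (∑ l ∈ L, a l) ^ 2 := by
    rw [sq, Finset.sum_mul_sum]
    refine Finset.sum_le_sum fun l hl => Finset.sum_le_sum fun l' hl' => ?_
    have h1 : ((D l l').card : ℝ) ≤ 1 := by exact_mod_cast hD1 l hl l' hl'
    exact mul_le_of_le_one_right (mul_nonneg (ha l hl) (ha l' hl')) h1
  have hq2 : (0 : ℝ) < q ^ 2 := by positivity
  have hfin : q ^ 2 * ∑ l ∈ L, a l * ((C l).card : ℝ) ≤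
      q ^ 2 * (4 * (V.card : ℝ) / q + q ^ 2 * (∑ l ∈ L, a l) ^ 2) := by
    refine hsum.trans ?_
    have h2 : q ^ 2 * (4 * (V.card : ℝ) / q + q ^ 2 * (∑ l ∈ L, a l) ^ 2) =
        4 * (q * (V.card : ℝ)) + q ^ 4 * (∑ l ∈ L, a l) ^ 2 := by
      field_simp
    rw [h2]
    have h3 := mul_le_mul_of_nonneg_left hDle (by positivity : (0 : ℝ) ≤ q ^ 4)
    linarith
  exact le_of_mul_le_mul_left hfin hq2

end Pool.LLN
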