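import Pool.Agent.Work.MP_ef7f46_ll.Interface

/-!
# Block EXP: the probability that the random subset contains a given set
-/

set_option autoImplicit false
open Classical
open EpsNet.Elem (lineThrough spannedLines IsEpsNet)

namespace Pool.LLN

theorem p_EXP : Stmt_EXP := by
  intro α V A p hAV
  set g : α → ℝ := fun v => if v ∈ A then 0 else 1 - p v with hg
  have h1 : ∏ v ∈ V, (p v + g v) = ∏ v ∈ A, p v := by
    have h2 : ∀ v ∈ V, p v + g v = if v ∈ A then p v else 1 := by
      intro v _
      rw [hg]
      by_cases hv : v ∈ A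
      · simp [hv]
      · simp [hv]
    rw [Finset.prod_congr rfl h2, Finset.prod_ite_mem, Finset.inter_eq_right.mpr hAV]
  rw [← h1, Finset.prod_add, Finset.sum_filter]
  apply Finset.sum_congr rfl
  intro T _
  by_cases hT : A ⊆ T
  · rw [if_pos hT]
    unfold mu
    congr 1
    apply Finset.prod_congr rfl
    intro v hv
    rw [hg]
    have hvA : v ∉ A := fun hc => (Finset.mem_sdiff.1 hv).2 (hT hc)
    simp [hvA]
  · rw [if_neg hT]
    rw [Finset.not_subset] at hT
    obtain ⟨v, hvA, hvT⟩ := hT
    have h3 : ∏ v ∈ V \ T, g v = 0 := by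
      apply Finset.prod_eq_zero (Finset.mem_sdiff.2 ⟨hAV hvA, hvT⟩)
      rw [hg]
      simp [hvA]
    rw [h3, mul_zero]

end Pool.LLN
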