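import Pool.Agent.Work.MP_ef7f46_ll.Final2

/-!
# Block PRG: weightings spread over the lines spanned by a set of points
-/

set_option autoImplicit false
open Classical
open EpsNet.Elem (lineThrough spannedLines IsEpsNet)

namespace Pool.LLN

theorem PRG_mem_left (p q : Pt) : p ∈ lineThrough p q := by
  change (p.1 - p.1) * (q.2 - p.2) = (p.2 - p.2) * (q.1 - p.1)
  ring

theorem PRG_mem_right (p q : Pt) : q ∈ lineThrough p q := by
  change (q.1 - p.1) * (q.2 - p.2) = (q.2 - p.2) * (q.1 - p.1)
  ring

theorem PRG_mem {P : Finset Pt} {u v : Pt} (hu : u ∈ P) (hv : v ∈ P) (h : u ≠ v) :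
    lineThrough u v ∈ spannedLines P := by
  unfold EpsNet.Elem.spannedLines
  exact Finset.mem_image.2 ⟨(u, v), Finset.mem_offDiag.2 ⟨hu, hv, h⟩, rfl⟩

theorem PRG_mono {P H : Finset Pt} (hH : H ⊆ P) : spannedLines H ⊆ spannedLines P := by
  unfold EpsNet.Elem.spannedLines
  exact Finset.image_subset_image (Finset.offDiag_mono hH)

theorem PRG_small (P H : Finset Pt) (w : Set Pt → ℝ) (hH : H ⊆ P) (ε R : ℝ) (h0 : 0 < ε)
    (hW : 0 < tw P w) (hM : ¬ 2 ≤ (spannedLines H).card)
    (hc : ∀ p ∈ H, ε * tw P w ≤ ∑ l ∈ (spannedLines P).filter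
      (fun l => p ∈ l ∧ w l * ((spannedLines H).card : ℝ) ≤ R * tw P w), w l) :
    ∃ N ⊆ spannedLines P, N.card ≤ 1 ∧ ∀ p ∈ H, ∃ l ∈ N, p ∈ l := by
  rcases H.eq_empty_or_nonempty with h | ⟨u, hu⟩
  · refine ⟨∅, Finset.empty_subset _, by simp, ?_⟩
    rw [h]
    intro p hp
    exact absurd hp (Finset.notMem_empty p)
  · by_cases hv : ∃ v ∈ H, u ≠ v
    · obtain ⟨v, hv, huv⟩ := hv
      have hl : lineThrough u v ∈ spannedLines H := PRG_mem hu hv huv
      refine ⟨{lineThrough u v}, ?_, by simp, ?_⟩
      · rw [Finset.singleton_subset_iff]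
        exact PRG_mono hH hl
      · intro p hp
        refine ⟨lineThrough u v, Finset.mem_singleton_self _, ?_⟩
        by_cases hup : u = p
        · rw [← hup]
          exact PRG_mem_left u v
        · have hl2 : lineThrough u p ∈ spannedLines H := PRG_mem hu hp hup
          have hone : (spannedLines H).card ≤ 1 := by omega
          rw [Finset.card_le_one.1 hone _ hl _ hl2]
          exact PRG_mem_right u p
    · push Not at hv
      have h1 : ((spannedLines P).filter
        (fun l => u ∈ l ∧ w l * ((spannedLines H).card : ℝ) ≤ R * tw P w)).Nonempty := by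
        rw [Finset.nonempty_iff_ne_empty]
        intro he
        have h2 := hc u hu
        rw [he, Finset.sum_empty] at h2
        have h3 : 0 < ε * tw P w := by positivity
        linarith
      obtain ⟨l, hl⟩ := h1
      rw [Finset.mem_filter] at hl
      refine ⟨{l}, ?_, by simp, ?_⟩
      · rw [Finset.singleton_subset_iff]
        exact hl.1
      · intro p hp
        refine ⟨l, Finset.mem_singleton_self _, ?_⟩
        rw [← hv p hp]
        exact hl.2.1

theorem p_PRG (hRTT : Stmt_RTT) (hGRD : Stmt_GRD) (hLTU : Stmt_LTU) : Stmt_PRG := by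
  intro P H w hP hH hw ε R h0 h1 hR hc
  have hne : (spannedLines P).Nonempty := by
    obtain ⟨u, hu, v, hv, huv⟩ := Finset.one_lt_card.1 (show 1 < P.card by omega)
    exact ⟨_, PRG_mem hu hv huv⟩
  have hW : 0 < tw P w := Finset.sum_pos hw hne
  have hε1 : 1 ≤ 1 / ε := by
    rw [le_div_iff₀ h0]
    linarith
  have hlogR : 0 ≤ Real.log R := Real.log_nonneg hR
  by_cases hM : 2 ≤ (spannedLines H).card
  · have hMpos : (0 : ℝ) < ((spannedLines H).card : ℝ) := by
      have : 0 < (spannedLines H).card := by omega
      exact_mod_cast this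
    set L := (spannedLines P).filter
      (fun l => w l * ((spannedLines H).card : ℝ) ≤ R * tw P w) with hL
    have hLw : ∀ l ∈ L, 0 ≤ w l := fun l hl => (hw l (Finset.mem_filter.1 hl).1).le
    have hLsum : ∑ l ∈ L, w l ≤ tw P w :=
      Finset.sum_le_sum_of_subset_of_nonneg (Finset.filter_subset _ _)
        (fun l hl _ => (hw l hl).le)
    have hc' : ∀ p ∈ H, ε * tw P w ≤ ∑ l ∈ L.filter (fun l => p ∈ l), w l := by
      intro p hp
      refine le_trans (hc p hp) (le_of_eq ?_)
      apply Finset.sum_congr _ (fun _ _ => rfl)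
      ext l
      rw [hL, Finset.mem_filter, Finset.mem_filter, Finset.mem_filter]
      tauto
    -- double counting
    have hdc : ∑ p ∈ H, ∑ l ∈ L.filter (fun l => p ∈ l), w l =
        ∑ l ∈ L, w l * ((H.filter (fun p => p ∈ l)).card : ℝ) := by
      have h2 : ∀ p ∈ H, ∑ l ∈ L.filter (fun l => p ∈ l), w l =
          ∑ l ∈ L, if p ∈ l then w l else 0 := fun p _ => Finset.sum_filter _ _
      rw [Finset.sum_congr rfl h2, Finset.sum_comm]
      apply Finset.sum_congr rfl
      intro l _
      rw [← Finset.sum_filter, Finset.sum_const, nsmul_eq_mul, mul_comm]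
    have hterm : ∀ l ∈ L, w l * ((H.filter (fun p => p ∈ l)).card : ℝ) ≤
        w l + (if l ∈ spannedLines H then
          R * tw P w / ((spannedLines H).card : ℝ) * ((H.filter (fun p => p ∈ l)).card : ℝ) else 0) := by
      intro l hl
      by_cases hlH : l ∈ spannedLines H
      · rw [if_pos hlH]
        have h2 : w l ≤ R * tw P w / ((spannedLines H).card : ℝ) := by
          rw [le_div_iff₀ hMpos]
          exact (Finset.mem_filter.1 hl).2
        have h3 := mul_le_mul_of_nonneg_right h2
          (Nat.cast_nonneg (H.filter (fun p => p ∈ l)).card : (0 : ℝ) ≤ _)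
        have h4 := hLw l hl
        linarith
      · rw [if_neg hlH, add_zero]
        have h2 : (H.filter (fun p => p ∈ l)).card ≤ 1 := by
          rw [Finset.card_le_one]
          intro a ha b hb
          rw [Finset.mem_filter] at ha hb
          by_contra hab
          apply hlH
          have h3 := (Finset.mem_filter.1 hl).1
          unfold EpsNet.Elem.spannedLines at h3
          obtain ⟨z, hz, rfl⟩ := Finset.mem_image.1 h3
          rw [← hLTU z.1 z.2 a b (Finset.mem_offDiag.1 hz).2.2 hab ha.2 hb.2]
          exact PRG_mem ha.1 hb.1 hab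
        have h3 : ((H.filter (fun p => p ∈ l)).card : ℝ) ≤ 1 := by exact_mod_cast h2
        have h4 := hLw l hl
        calc w l * ((H.filter (fun p => p ∈ l)).card : ℝ) ≤ w l * 1 :=
              mul_le_mul_of_nonneg_left h3 h4
          _ = w l := mul_one _
    have hRT : (∑ l ∈ spannedLines H, ((H.filter (fun p => p ∈ l)).card : ℝ)) ≤
        6 * ((spannedLines H).card : ℝ) := by
      have h2 := hRTT H hM
      exact_mod_cast h2
    have hsum2 : ∑ l ∈ L, (if l ∈ spannedLines H then
          R * tw P w / ((spannedLines H).card : ℝ) * ((H.filter (fun p => p ∈ l)).card : ℝ) else 0) ≤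
        6 * R * tw P w := by
      have hnn : 0 ≤ R * tw P w / ((spannedLines H).card : ℝ) := by positivity
      calc ∑ l ∈ L, (if l ∈ spannedLines H then
          R * tw P w / ((spannedLines H).card : ℝ) * ((H.filter (fun p => p ∈ l)).card : ℝ) else 0)
          = ∑ l ∈ L.filter (fun l => l ∈ spannedLines H),
            R * tw P w / ((spannedLines H).card : ℝ) * ((H.filter (fun p => p ∈ l)).card : ℝ) :=
            (Finset.sum_filter _ _).symm
        _ ≤ ∑ l ∈ spannedLines H,
            R * tw P w / ((spannedLines H).card : ℝ) * ((H.filter (fun p => p ∈ l)).card : ℝ) := by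
            apply Finset.sum_le_sum_of_subset_of_nonneg
            · intro l hl
              exact (Finset.mem_filter.1 hl).2
            · intro l _ _
              positivity
        _ = R * tw P w / ((spannedLines H).card : ℝ) *
            ∑ l ∈ spannedLines H, ((H.filter (fun p => p ∈ l)).card : ℝ) := by
            rw [Finset.mul_sum]
        _ ≤ R * tw P w / ((spannedLines H).card : ℝ) * (6 * ((spannedLines H).card : ℝ)) :=
            mul_le_mul_of_nonneg_left hRT hnn
        _ = 6 * R * tw P w := by
            field_simp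
    have hcount : (H.card : ℝ) * (ε * tw P w) ≤ (6 * R + 1) * tw P w := by
      calc (H.card : ℝ) * (ε * tw P w) = ∑ _p ∈ H, ε * tw P w := by
            rw [Finset.sum_const, nsmul_eq_mul]
        _ ≤ ∑ p ∈ H, ∑ l ∈ L.filter (fun l => p ∈ l), w l := Finset.sum_le_sum hc'
        _ = ∑ l ∈ L, w l * ((H.filter (fun p => p ∈ l)).card : ℝ) := hdc
        _ ≤ ∑ l ∈ L, (w l + (if l ∈ spannedLines H then
          R * tw P w / ((spannedLines H).card : ℝ) * ((H.filter (fun p => p ∈ l)).card : ℝ) else 0)) :=
            Finset.sum_le_sum hterm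
        _ = ∑ l ∈ L, w l + ∑ l ∈ L, (if l ∈ spannedLines H then
          R * tw P w / ((spannedLines H).card : ℝ) * ((H.filter (fun p => p ∈ l)).card : ℝ) else 0) :=
            Finset.sum_add_distrib
        _ ≤ tw P w + 6 * R * tw P w := add_le_add hLsum hsum2
        _ = (6 * R + 1) * tw P w := by ring
    have hK : (H.card : ℝ) ≤ 7 * R / ε := by
      rw [le_div_iff₀ h0]
      have h2 : (H.card : ℝ) * ε * tw P w ≤ (6 * R + 1) * tw P w := by
        rw [mul_assoc]
        exact hcount
      have h3 := le_of_mul_le_mul_right h2 hW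
      linarith
    obtain ⟨N, hN, hNc, hNcov⟩ := hGRD Pt (Set Pt) H L (fun p l => p ∈ l) w ε (tw P w) (7 * R)
      hLw hW hLsum h0 h1 hc' (by linarith) hK
    refine ⟨N, hN.trans (Finset.filter_subset _ _), le_trans hNc ?_, hNcov⟩
    have h2 : Real.log (7 * R) ≤ Real.log R + 2 := by
      rw [Real.log_mul (by norm_num) (by linarith)]
      have h3 : Real.log 7 ≤ 2 := by
        rw [Real.log_le_iff_le_exp (by norm_num)]
        have h4 : (2.7 : ℝ) < Real.exp 1 := by
          have := Real.exp_one_gt_d9
          linarith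
        have h5 : Real.exp 2 = Real.exp 1 * Real.exp 1 := by
          rw [← Real.exp_add]
          norm_num
        rw [h5]
        nlinarith
      linarith
    have h3 : 0 ≤ 1 / ε := by linarith
    exact mul_le_mul_of_nonneg_left (by linarith) h3
  · obtain ⟨N, hN, hNc, hNcov⟩ := PRG_small P H w hH ε R h0 hW hM hc
    refine ⟨N, hN, ?_, hNcov⟩
    have h2 : (N.card : ℝ) ≤ 1 := by exact_mod_cast hNc
    have h3 : 1 / ε * 4 ≤ 1 / ε * (Real.log R + 4) :=
      mul_le_mul_of_nonneg_left (by linarith) (by linarith)
    linarith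

end Pool.LLN
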