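import Pool.Agent.Work.MP_ef7f46_ll.B_PR1
import Pool.Agent.Work.MP_ef7f46_ll.B_PRG

/-!
# THEOREM LL (MP_ef7f46_co, light lines): the general form, conditions only on the lines spanned by `H`
-/

set_option autoImplicit false
open Classical
open EpsNet.Elem (lineThrough spannedLines IsEpsNet)

namespace Pool.LLN

/-- PRH: as PRG, the condition only concerns the lines spanned by `H`. -/
def Stmt_PRH : Prop := ∀ (P H : Finset Pt) (w : Set Pt → ℝ), 2 ≤ P.card → H ⊆ P →
  (∀ l ∈ spannedLines P, 0 < w l) → ∀ ε R : ℝ, 0 < ε → ε ≤ 1 → 1 ≤ R →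
  (∀ p ∈ H, ε * tw P w ≤ ∑ l ∈ (spannedLines P).filter
    (fun l => p ∈ l ∧ (l ∈ spannedLines H → w l * ((spannedLines H).card : ℝ) ≤ R * tw P w)), w l) →
  ∃ N ⊆ spannedLines P, (N.card : ℝ) ≤ 1 / ε * (Real.log R + 4) ∧ ∀ p ∈ H, ∃ l ∈ N, p ∈ l

/-- PRK: as PR1, for a subset `H` of `P`, the condition only concerns the lines spanned by `H`. -/
def Stmt_PRK : Prop := ∀ (P H : Finset Pt) (w : Set Pt → ℝ), 2 ≤ P.card → H ⊆ P →
  (∀ l ∈ spannedLines P, 0 < w l) → ∀ ε R : ℝ, 0 < ε → ε ≤ 1 → 1 ≤ R →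
  (∀ p ∈ H, ε * tw P w ≤ ∑ l ∈ (spannedLines P).filter
    (fun l => p ∈ l ∧ (l ∈ spannedLines H → w l ≤ R * ε ^ 2 * tw P w)), w l) →
  ∃ N ⊆ spannedLines P, (N.card : ℝ) ≤ 1 / ε * (Real.log R + 20) ∧ ∀ p ∈ H, ∃ l ∈ N, p ∈ l

/-- The statement of THEOREM LL, general form. -/
def Stmt_LLH : Prop := ∀ (P H : Finset Pt) (w : Set Pt → ℝ), 2 ≤ P.card → H ⊆ P →
  (∀ l ∈ spannedLines P, 0 < w l) → ∀ ε R : ℝ, 0 < ε → ε ≤ 1 → 1 ≤ R →
  (∀ p ∈ H, ε * (∑ l ∈ spannedLines P, w l) ≤
    ∑ l ∈ spannedLines P with p ∈ l ∧ (l ∈ spannedLines H →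
      w l ≤ R * max (ε ^ 2) (1 / ((spannedLines H).card : ℝ)) * (∑ l' ∈ spannedLines P, w l')),
      w l) →
  ∃ N ⊆ spannedLines P, (N.card : ℝ) ≤ 1 / ε * (Real.log R + 20) ∧ ∀ p ∈ H, ∃ l ∈ N, p ∈ l

theorem GEN_small (P H : Finset Pt) (w : Set Pt → ℝ) (hH : H ⊆ P) (ε R : ℝ) (h0 : 0 < ε)
    (hW : 0 < tw P w) (hM : ¬ 2 ≤ (spannedLines H).card)
    (hc : ∀ p ∈ H, ε * tw P w ≤ ∑ l ∈ (spannedLines P).filter
      (fun l => p ∈ l ∧ (l ∈ spannedLines H → w l * ((spannedLines H).card : ℝ) ≤ R * tw P w)), w l) :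
    ∃ N ⊆ spannedLines P, N.card ≤ 1 ∧ ∀ p ∈ H, ∃ l ∈ N, p ∈ l := by
  rcases H.eq_empty_or_nonempty with h | ⟨u, hu⟩
  · refine ⟨∅, Finset.empty_subset _, by simp, ?_⟩
    rw [h]
    intro p hp
    exact absurd hp (Finset.notMem_empty p)
  · by_cases hv : ∃ v ∈ H, u ≠ v
    · obtain ⟨v, hv, huv⟩ := hv
      have hl : lineThrough u v ∈ spannedLines H := PRG_mem hu hv huv
      refine ⟨{lineThrough u v}, ?_, by simp, ?_⟩
      · rw [Finset.singleton_subset_iff]
        exact PRG_mono hH hl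
      · intro p hp
        refine ⟨lineThrough u v, Finset.mem_singleton_self _, ?_⟩
        by_cases hup : u = p
        · rw [← hup]
          exact PRG_mem_left u v
        · have hl2 : lineThrough u p ∈ spannedLines H := PRG_mem hu hp hup
          have hone : (spannedLines H).card ≤ 1 := by omega
          rw [Finset.card_le_one.1 hone _ hl _ hl2]
          exact PRG_mem_right u p
    · push Not at hv
      have h1 : ((spannedLines P).filter
        (fun l => u ∈ l ∧ (l ∈ spannedLines H → w l * ((spannedLines H).card : ℝ) ≤ R * tw P w))).Nonempty := by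
        rw [Finset.nonempty_iff_ne_empty]
        intro he
        have h2 := hc u hu
        rw [he, Finset.sum_empty] at h2
        have h3 : 0 < ε * tw P w := by positivity
        linarith
      obtain ⟨l, hl⟩ := h1
      rw [Finset.mem_filter] at hl
      refine ⟨{l}, ?_, by simp, ?_⟩
      · rw [Finset.singleton_subset_iff]
        exact hl.1
      · intro p hp
        refine ⟨l, Finset.mem_singleton_self _, ?_⟩
        rw [← hv p hp]
        exact hl.2.1

theorem GEN_PRG (hRTT : Stmt_RTT) (hGRD : Stmt_GRD) (hLTU : Stmt_LTU) : Stmt_PRH := by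
  intro P H w hP hH hw ε R h0 h1 hR hc
  have hne : (spannedLines P).Nonempty := by
    obtain ⟨u, hu, v, hv, huv⟩ := Finset.one_lt_card.1 (show 1 < P.card by omega)
    exact ⟨_, PRG_mem hu hv huv⟩
  have hW : 0 < tw P w := Finset.sum_pos hw hne
  have hε1 : 1 ≤ 1 / ε := by
    rw [le_div_iff₀ h0]
    linarith
  have hlogR : 0 ≤ Real.log R := Real.log_nonneg hR
  by_cases hM : 2 ≤ (spannedLines H).card
  · have hMpos : (0 : ℝ) < ((spannedLines H).card : ℝ) := by
      have : 0 < (spannedLines H).card := by omega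
      exact_mod_cast this
    set L := (spannedLines P).filter
      (fun l => l ∈ spannedLines H → w l * ((spannedLines H).card : ℝ) ≤ R * tw P w) with hL
    have hLw : ∀ l ∈ L, 0 ≤ w l := fun l hl => (hw l (Finset.mem_filter.1 hl).1).le
    have hLsum : ∑ l ∈ L, w l ≤ tw P w :=
      Finset.sum_le_sum_of_subset_of_nonneg (Finset.filter_subset _ _)
        (fun l hl _ => (hw l hl).le)
    have hc' : ∀ p ∈ H, ε * tw P w ≤ ∑ l ∈ L.filter (fun l => p ∈ l), w l := by
      intro p hp
      refine le_trans (hc p hp) (le_of_eq ?_)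
      apply Finset.sum_congr _ (fun _ _ => rfl)
      ext l
      rw [hL, Finset.mem_filter, Finset.mem_filter, Finset.mem_filter]
      tauto
    -- double counting
    have hdc : ∑ p ∈ H, ∑ l ∈ L.filter (fun l => p ∈ l), w l =
        ∑ l ∈ L, w l * ((H.filter (fun p => p ∈ l)).card : ℝ) := by
      have h2 : ∀ p ∈ H, ∑ l ∈ L.filter (fun l => p ∈ l), w l =
          ∑ l ∈ L, if p ∈ l then w l else 0 := fun p _ => Finset.sum_filter _ _
      rw [Finset.sum_congr rfl h2, Finset.sum_comm]
      apply Finset.sum_congr rfl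
      intro l _
      rw [← Finset.sum_filter, Finset.sum_const, nsmul_eq_mul, mul_comm]
    have hterm : ∀ l ∈ L, w l * ((H.filter (fun p => p ∈ l)).card : ℝ) ≤
        w l + (if l ∈ spannedLines H then
          R * tw P w / ((spannedLines H).card : ℝ) * ((H.filter (fun p => p ∈ l)).card : ℝ) else 0) := by
      intro l hl
      by_cases hlH : l ∈ spannedLines H
      · rw [if_pos hlH]
        have h2 : w l ≤ R * tw P w / ((spannedLines H).card : ℝ) := by
          rw [le_div_iff₀ hMpos]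
          exact (Finset.mem_filter.1 hl).2 hlH
        have h3 := mul_le_mul_of_nonneg_right h2
          (Nat.cast_nonneg (H.filter (fun p => p ∈ l)).card : (0 : ℝ) ≤ _)
        have h4 := hLw l hl
        linarith
      · rw [if_neg hlH, add_zero]
        have h2 : (H.filter (fun p => p ∈ l)).card ≤ 1 := by
          rw [Finset.card_le_one]
          intro a ha b hb
          rw [Finset.mem_filter] at ha hb
          by_contra hab
          apply hlH
          have h3 := (Finset.mem_filter.1 hl).1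
          unfold EpsNet.Elem.spannedLines at h3
          obtain ⟨z, hz, rfl⟩ := Finset.mem_image.1 h3
          rw [← hLTU z.1 z.2 a b (Finset.mem_offDiag.1 hz).2.2 hab ha.2 hb.2]
          exact PRG_mem ha.1 hb.1 hab
        have h3 : ((H.filter (fun p => p ∈ l)).card : ℝ) ≤ 1 := by exact_mod_cast h2
        have h4 := hLw l hl
        calc w l * ((H.filter (fun p => p ∈ l)).card : ℝ) ≤ w l * 1 :=
              mul_le_mul_of_nonneg_left h3 h4
          _ = w l := mul_one _
    have hRT : (∑ l ∈ spannedLines H, ((H.filter (fun p => p ∈ l)).card : ℝ)) ≤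
        6 * ((spannedLines H).card : ℝ) := by
      have h2 := hRTT H hM
      exact_mod_cast h2
    have hsum2 : ∑ l ∈ L, (if l ∈ spannedLines H then
          R * tw P w / ((spannedLines H).card : ℝ) * ((H.filter (fun p => p ∈ l)).card : ℝ) else 0) ≤
        6 * R * tw P w := by
      have hnn : 0 ≤ R * tw P w / ((spannedLines H).card : ℝ) := by positivity
      calc ∑ l ∈ L, (if l ∈ spannedLines H then
          R * tw P w / ((spannedLines H).card : ℝ) * ((H.filter (fun p => p ∈ l)).card : ℝ) else 0)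
          = ∑ l ∈ L.filter (fun l => l ∈ spannedLines H),
            R * tw P w / ((spannedLines H).card : ℝ) * ((H.filter (fun p => p ∈ l)).card : ℝ) :=
            (Finset.sum_filter _ _).symm
        _ ≤ ∑ l ∈ spannedLines H,
            R * tw P w / ((spannedLines H).card : ℝ) * ((H.filter (fun p => p ∈ l)).card : ℝ) := by
            apply Finset.sum_le_sum_of_subset_of_nonneg
            · intro l hl
              exact (Finset.mem_filter.1 hl).2
            · intro l _ _
              positivity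
        _ = R * tw P w / ((spannedLines H).card : ℝ) *
            ∑ l ∈ spannedLines H, ((H.filter (fun p => p ∈ l)).card : ℝ) := by
            rw [Finset.mul_sum]
        _ ≤ R * tw P w / ((spannedLines H).card : ℝ) * (6 * ((spannedLines H).card : ℝ)) :=
            mul_le_mul_of_nonneg_left hRT hnn
        _ = 6 * R * tw P w := by
            field_simp
    have hcount : (H.card : ℝ) * (ε * tw P w) ≤ (6 * R + 1) * tw P w := by
      calc (H.card : ℝ) * (ε * tw P w) = ∑ _p ∈ H, ε * tw P w := by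
            rw [Finset.sum_const, nsmul_eq_mul]
        _ ≤ ∑ p ∈ H, ∑ l ∈ L.filter (fun l => p ∈ l), w l := Finset.sum_le_sum hc'
        _ = ∑ l ∈ L, w l * ((H.filter (fun p => p ∈ l)).card : ℝ) := hdc
        _ ≤ ∑ l ∈ L, (w l + (if l ∈ spannedLines H then
          R * tw P w / ((spannedLines H).card : ℝ) * ((H.filter (fun p => p ∈ l)).card : ℝ) else 0)) :=
            Finset.sum_le_sum hterm
        _ = ∑ l ∈ L, w l + ∑ l ∈ L, (if l ∈ spannedLines H then
          R * tw P w / ((spannedLines H).card : ℝ) * ((H.filter (fun p => p ∈ l)).card : ℝ) else 0) :=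
            Finset.sum_add_distrib
        _ ≤ tw P w + 6 * R * tw P w := add_le_add hLsum hsum2
        _ = (6 * R + 1) * tw P w := by ring
    have hK : (H.card : ℝ) ≤ 7 * R / ε := by
      rw [le_div_iff₀ h0]
      have h2 : (H.card : ℝ) * ε * tw P w ≤ (6 * R + 1) * tw P w := by
        rw [mul_assoc]
        exact hcount
      have h3 := le_of_mul_le_mul_right h2 hW
      linarith
    obtain ⟨N, hN, hNc, hNcov⟩ := hGRD Pt (Set Pt) H L (fun p l => p ∈ l) w ε (tw P w) (7 * R)
      hLw hW hLsum h0 h1 hc' (by linarith) hK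
    refine ⟨N, hN.trans (Finset.filter_subset _ _), le_trans hNc ?_, hNcov⟩
    have h2 : Real.log (7 * R) ≤ Real.log R + 2 := by
      rw [Real.log_mul (by norm_num) (by linarith)]
      have h3 : Real.log 7 ≤ 2 := by
        rw [Real.log_le_iff_le_exp (by norm_num)]
        have h4 : (2.7 : ℝ) < Real.exp 1 := by
          have := Real.exp_one_gt_d9
          linarith
        have h5 : Real.exp 2 = Real.exp 1 * Real.exp 1 := by
          rw [← Real.exp_add]
          norm_num
        rw [h5]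
        nlinarith
      linarith
    have h3 : 0 ≤ 1 / ε := by linarith
    exact mul_le_mul_of_nonneg_left (by linarith) h3
  · obtain ⟨N, hN, hNc, hNcov⟩ := GEN_small P H w hH ε R h0 hW hM hc
    refine ⟨N, hN, ?_, hNcov⟩
    have h2 : (N.card : ℝ) ≤ 1 := by exact_mod_cast hNc
    have h3 : 1 / ε * 4 ≤ 1 / ε * (Real.log R + 4) :=
      mul_le_mul_of_nonneg_left (by linarith) (by linarith)
    linarith


theorem GEN_PRK (hINC : Stmt_INC) (hGRD : Stmt_GRD) (hLTU : Stmt_LTU) : Stmt_PRK := by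
  intro P H w hP hHP hw ε R he he1 hR hc
  set L := spannedLines P with hL
  set M := spannedLines H with hMdef
  have hML : M ⊆ L := PRG_mono hHP
  set W := tw P w with hWdef
  have hWs : W = ∑ l ∈ L, w l := rfl
  have hne : L.Nonempty := by
    obtain ⟨a, ha, b, hb, hab⟩ := Finset.one_lt_card.1 (by omega : 1 < P.card)
    exact ⟨_, PRG_mem ha hb hab⟩
  have hW : 0 < W := by
    rw [hWs]
    exact Finset.sum_pos hw hne
  have hRW : 0 < R * ε ^ 2 * W := by positivity
  have hEW : 0 < ε * W / 12 := by positivity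
  set B := min (ε * W / 12) (R * ε ^ 2 * W) with hBdef
  have hB : 0 < B := lt_min hEW hRW
  have hB1 : B ≤ ε * W / 12 := min_le_left _ _
  have hB2 : B ≤ R * ε ^ 2 * W := min_le_right _ _
  have hw0 : ∀ l ∈ L, 0 ≤ w l := fun l hl => (hw l hl).le
  set N₁ := M.filter (fun l => w l ≤ R * ε ^ 2 * W ∧ ε * W / 12 < w l) with hN₁
  have hN₁L : N₁ ⊆ L := (Finset.filter_subset _ _).trans hML
  set L' := M.filter (fun l => w l ≤ B) with hL'
  have hL'L : L' ⊆ L := (Finset.filter_subset _ _).trans hML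
  set G := L.filter (fun l => l ∈ M → w l ≤ B) with hG
  have hGL : G ⊆ L := Finset.filter_subset _ _
  -- the size of N₁
  have hN₁c : (N₁.card : ℝ) ≤ 12 / ε := by
    have h1 : (N₁.card : ℝ) * (ε * W / 12) ≤ ∑ l ∈ N₁, w l := by
      rw [← nsmul_eq_mul]
      refine Finset.card_nsmul_le_sum _ _ _ fun l hl => ?_
      exact (Finset.mem_filter.1 hl).2.2.le
    have h2 : ∑ l ∈ N₁, w l ≤ W := by
      rw [hWs]
      exact Finset.sum_le_sum_of_subset_of_nonneg hN₁L fun l hl _ => hw0 l hl
    have h3 : (N₁.card : ℝ) * (ε * W / 12) ≤ W := h1.trans h2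
    rw [le_div_iff₀ he]
    have h4 : (N₁.card : ℝ) * ε * W ≤ 12 * W := by linarith
    exact le_of_mul_le_mul_right h4 hW
  -- the remaining points
  set K := H.filter (fun p => ∀ l ∈ N₁, p ∉ l) with hK
  have hKH : K ⊆ H := Finset.filter_subset _ _
  have hKG : ∀ p ∈ K, ε * W ≤ ∑ l ∈ G.filter (fun l => p ∈ l), w l := by
    intro p hp
    obtain ⟨h1, h2⟩ := Finset.mem_filter.1 hp
    refine (hc p h1).trans ?_
    refine Finset.sum_le_sum_of_subset_of_nonneg ?_ fun l hl _ => ?_
    · intro l hl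
      obtain ⟨hlL, hpl, hwl⟩ := Finset.mem_filter.1 hl
      refine Finset.mem_filter.2 ⟨Finset.mem_filter.2 ⟨hlL, ?_⟩, hpl⟩
      intro hlM
      refine le_min ?_ (hwl hlM)
      by_contra hcc
      exact h2 l (Finset.mem_filter.2 ⟨hlM, hwl hlM, not_le.1 hcc⟩) hpl
    · exact hw0 l (hGL (Finset.mem_filter.1 hl).1)
  -- the double counting
  have hdc : ∑ l ∈ G, w l / B * ((K.filter (fun p => p ∈ l)).card : ℝ) =
      ∑ p ∈ K, ∑ l ∈ G.filter (fun l => p ∈ l), w l / B := by
    have h1 : ∀ l ∈ G, w l / B * ((K.filter (fun p => p ∈ l)).card : ℝ) =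
        ∑ p ∈ K, if p ∈ l then w l / B else 0 := by
      intro l _
      rw [← Finset.sum_filter, Finset.sum_const, nsmul_eq_mul, mul_comm]
    rw [Finset.sum_congr rfl h1, Finset.sum_comm]
    refine Finset.sum_congr rfl fun p _ => ?_
    exact (Finset.sum_filter (fun l => p ∈ l) (fun l => w l / B)).symm
  have hlow : (K.card : ℝ) * (ε * W / B) ≤
      ∑ p ∈ K, ∑ l ∈ G.filter (fun l => p ∈ l), w l / B := by
    rw [← nsmul_eq_mul]
    refine Finset.card_nsmul_le_sum _ _ _ fun p hp => ?_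
    rw [← Finset.sum_div]
    exact div_le_div_of_nonneg_right (hKG p hp) hB.le
  -- lines of G: not spanned by H, or light
  have hsplit : ∑ l ∈ G, w l / B * ((K.filter (fun p => p ∈ l)).card : ℝ) ≤
      ∑ l ∈ G.filter (fun l => l ∉ M), w l / B +
        ∑ l ∈ L', w l / B * ((K.filter (fun p => p ∈ l)).card : ℝ) := by
    have h1 := (Finset.sum_filter_add_sum_filter_not G (fun l => l ∈ M)
      (fun l => w l / B * ((K.filter (fun p => p ∈ l)).card : ℝ))).symm
    have h2 : G.filter (fun l => l ∈ M) = L' := by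
      ext l
      rw [Finset.mem_filter, hG, Finset.mem_filter, hL', Finset.mem_filter]
      constructor
      · rintro ⟨⟨-, h3⟩, h4⟩
        exact ⟨h4, h3 h4⟩
      · rintro ⟨h3, h4⟩
        exact ⟨⟨hML h3, fun _ => h4⟩, h3⟩
    rw [h1, h2, add_comm]
    gcongr with l hl
    obtain ⟨hlG, hlM⟩ := Finset.mem_filter.1 hl
    have h3 : (K.filter (fun p => p ∈ l)).card ≤ 1 := by
      rw [Finset.card_le_one]
      intro a ha b hb
      rw [Finset.mem_filter] at ha hb
      by_contra hab
      apply hlM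
      have h3 := hGL hlG
      rw [hL] at h3
      unfold EpsNet.Elem.spannedLines at h3
      obtain ⟨z, hz, rfl⟩ := Finset.mem_image.1 h3
      rw [← hLTU z.1 z.2 a b (Finset.mem_offDiag.1 hz).2.2 hab ha.2 hb.2]
      exact PRG_mem (hKH ha.1) (hKH hb.1) hab
    have h4 : ((K.filter (fun p => p ∈ l)).card : ℝ) ≤ 1 := by exact_mod_cast h3
    have h5 : 0 ≤ w l / B := div_nonneg (hw0 l (hGL hlG)) hB.le
    calc w l / B * ((K.filter (fun p => p ∈ l)).card : ℝ) ≤ w l / B * 1 :=
          mul_le_mul_of_nonneg_left h4 h5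
      _ = w l / B := mul_one _
  -- the incidence bound
  set S₁ := ∑ l ∈ G.filter (fun l => l ∉ M), w l / B with hS₁
  set S := ∑ l ∈ L', w l / B with hS
  have hS10 : 0 ≤ S₁ := Finset.sum_nonneg fun l hl =>
    div_nonneg (hw0 l (hGL (Finset.mem_filter.1 hl).1)) hB.le
  have hS0 : 0 ≤ S := Finset.sum_nonneg fun l hl => div_nonneg (hw0 l (hL'L hl)) hB.le
  have hSle : S₁ + S ≤ W / B := by
    have h1 : Disjoint (G.filter (fun l => l ∉ M)) L' := by
      rw [Finset.disjoint_left]
      intro l h2 h3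
      exact (Finset.mem_filter.1 h2).2 (Finset.mem_filter.1 h3).1
    rw [hS₁, hS, ← Finset.sum_union h1, ← Finset.sum_div]
    refine div_le_div_of_nonneg_right ?_ hB.le
    rw [hWs]
    refine Finset.sum_le_sum_of_subset_of_nonneg ?_ fun l hl _ => hw0 l hl
    exact Finset.union_subset ((Finset.filter_subset _ _).trans hGL) hL'L
  have hq0 : 0 < 12 * B / (ε * W) := by positivity
  have hq1 : 12 * B / (ε * W) ≤ 1 := by
    rw [div_le_one (by positivity)]
    linarith
  have hinc := hINC P K L' (fun l => w l / B) (12 * B / (ε * W)) (hKH.trans hHP) hL'L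
    (fun l hl => ⟨div_nonneg (hw0 l (hL'L hl)) hB.le,
      (div_le_one hB).2 (Finset.mem_filter.1 hl).2⟩) hq0 hq1
  have hsub : ∑ l ∈ L', w l / B * (((K.filter (fun p => p ∈ l)).card : ℝ) - 1) =
      ∑ l ∈ L', w l / B * ((K.filter (fun p => p ∈ l)).card : ℝ) - S := by
    rw [hS, ← Finset.sum_sub_distrib]
    refine Finset.sum_congr rfl fun l _ => ?_
    ring
  have hKc : (K.card : ℝ) ≤ 218 * R / ε := by
    refine PR1_num (K.card : ℝ) ε R W B (S₁ + S) (Nat.cast_nonneg _) he hR hW hB hB2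
      (by linarith) hSle ?_
    have h2 : ∑ l ∈ L', w l / B * (((K.filter (fun p => p ∈ l)).card : ℝ) - 1) ≤
        4 * (K.card : ℝ) / (12 * B / (ε * W)) + (12 * B / (ε * W)) ^ 2 * S ^ 2 := hinc
    have h3 : (12 * B / (ε * W)) ^ 2 * S ^ 2 ≤ (12 * B / (ε * W)) ^ 2 * (S₁ + S) ^ 2 := by
      gcongr
      linarith
    rw [hsub] at h2
    rw [hdc] at hsplit
    linarith
  -- the greedy cover
  obtain ⟨N₂, hN₂L, hN₂c, hN₂⟩ := hGRD Pt (Set Pt) K G (fun p l => p ∈ l) w ε W (218 * R)
    (fun l hl => hw0 l (hGL hl)) hW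
    (by
      rw [hWs]
      exact Finset.sum_le_sum_of_subset_of_nonneg hGL fun l hl _ => hw0 l hl)
    he he1 hKG (by linarith) hKc
  refine ⟨N₁ ∪ N₂, ?_, ?_, ?_⟩
  · exact Finset.union_subset hN₁L (hN₂L.trans hGL)
  · have h1 : ((N₁ ∪ N₂).card : ℝ) ≤ (N₁.card : ℝ) + N₂.card := by
      exact_mod_cast Finset.card_union_le _ _
    have h2 : Real.log (218 * R) = Real.log 218 + Real.log R :=
      Real.log_mul (by norm_num) (by linarith)
    have h3 : 1 / ε * (Real.log (218 * R) + 2) ≤ 1 / ε * (Real.log R + 8) := by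
      have h4 : Real.log (218 * R) + 2 ≤ Real.log R + 8 := by
        rw [h2]
        linarith [PR1_log]
      have h5 : 0 ≤ 1 / ε := by positivity
      exact mul_le_mul_of_nonneg_left h4 h5
    have h6 : 12 / ε + 1 / ε * (Real.log R + 8) = 1 / ε * (Real.log R + 20) := by ring
    linarith
  · intro p hp
    by_cases hcc : ∃ l ∈ N₁, p ∈ l
    · obtain ⟨l, hl, hpl⟩ := hcc
      exact ⟨l, Finset.mem_union_left _ hl, hpl⟩
    · have hpK : p ∈ K := by
        refine Finset.mem_filter.2 ⟨hp, fun l hl hpl' => hcc ⟨l, hl, hpl'⟩⟩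
      obtain ⟨l, hl, hpl'⟩ := hN₂ p hpK
      exact ⟨l, Finset.mem_union_right _ hl, hpl'⟩

theorem GEN_final (hRTT : Stmt_RTT) (hINC : Stmt_INC) (hGRD : Stmt_GRD) (hLTU : Stmt_LTU) :
    Stmt_LLH := by
  intro P H w hP hH hw ε R h0 h1 hR hc
  by_cases hM : 1 / ((spannedLines H).card : ℝ) ≤ ε ^ 2
  · refine GEN_PRK hINC hGRD hLTU P H w hP hH hw ε R h0 h1 hR ?_
    intro p hp
    have h2 := hc p hp
    rw [max_eq_left hM] at h2
    exact h2
  · rw [not_le] at hM
    have hMpos : (0 : ℝ) < ((spannedLines H).card : ℝ) := by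
      rcases Nat.eq_zero_or_pos (spannedLines H).card with h | h
      · rw [h, Nat.cast_zero, div_zero] at hM
        exact absurd hM (not_lt.2 (sq_nonneg ε))
      · exact_mod_cast h
    obtain ⟨N, hN, hcard, hcov⟩ := GEN_PRG hRTT hGRD hLTU P H w hP hH hw ε R h0 h1 hR (by
      intro p hp
      have h2 := hc p hp
      rw [max_eq_right hM.le] at h2
      refine le_trans h2 (le_of_eq ?_)
      apply Finset.sum_congr _ (fun _ _ => rfl)
      ext l
      simp only [Finset.mem_filter]
      have h3 : w l ≤ R * (1 / ((spannedLines H).card : ℝ)) * (∑ l' ∈ spannedLines P, w l') ↔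
          w l * ((spannedLines H).card : ℝ) ≤ R * tw P w := by
        have h4 : R * (1 / ((spannedLines H).card : ℝ)) * (∑ l' ∈ spannedLines P, w l') =
            R * tw P w / ((spannedLines H).card : ℝ) := by
          unfold tw
          ring
        rw [h4, le_div_iff₀ hMpos]
      rw [h3])
    refine ⟨N, hN, le_trans hcard ?_, hcov⟩
    have h2 : 0 ≤ 1 / ε := by positivity
    have h3 : Real.log R + 4 ≤ Real.log R + 20 := by linarith
    exact mul_le_mul_of_nonneg_left h3 h2

end Pool.LLN
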