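import Pool.Agent.Work.MP_ef7f46_ll.Interface

/-!
# Block GRD: the greedy cover
-/

set_option autoImplicit false
open Classical
open EpsNet.Elem (lineThrough spannedLines IsEpsNet)

namespace Pool.LLN

lemma GRD_step {α β : Type} (H' : Finset α) (L : Finset β) (inc : α → β → Prop) (w : β → ℝ)
    (ε W : ℝ) (hw : ∀ l ∈ L, 0 ≤ w l) (hW : 0 < W) (hLW : ∑ l ∈ L, w l ≤ W) (hε : 0 < ε)
    (hp : ∀ p ∈ H', ε * W ≤ ∑ l ∈ L.filter (fun l => inc p l), w l) (hne : H'.Nonempty) :
    ∃ l ∈ L, ε * (H'.card : ℝ) ≤ ((H'.filter (fun p => inc p l)).card : ℝ) := by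
  by_contra hcon
  push Not at hcon
  have hH : (0 : ℝ) < (H'.card : ℝ) := by
    exact_mod_cast Finset.card_pos.2 hne
  -- some line has positive weight
  obtain ⟨p₀, hp₀⟩ := hne
  have hex : ∃ l ∈ L, 0 < w l := by
    by_contra h
    push Not at h
    have h1 : ∑ l ∈ L.filter (fun l => inc p₀ l), w l ≤ 0 :=
      Finset.sum_nonpos fun l hl => h l (Finset.mem_filter.1 hl).1
    have h2 := hp p₀ hp₀
    have h3 := mul_pos hε hW
    linarith
  have h1 : ∑ l ∈ L, w l * ((H'.filter (fun p => inc p l)).card : ℝ) <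
      ∑ l ∈ L, w l * (ε * (H'.card : ℝ)) := by
    refine Finset.sum_lt_sum (fun l hl => mul_le_mul_of_nonneg_left (hcon l hl).le (hw l hl)) ?_
    obtain ⟨l, hl, hl0⟩ := hex
    exact ⟨l, hl, mul_lt_mul_of_pos_left (hcon l hl) hl0⟩
  have h2 : ∑ l ∈ L, w l * ((H'.filter (fun p => inc p l)).card : ℝ) =
      ∑ p ∈ H', ∑ l ∈ L.filter (fun l => inc p l), w l := by
    have h3 : ∀ l ∈ L, w l * ((H'.filter (fun p => inc p l)).card : ℝ) =
        ∑ p ∈ H', if inc p l then w l else 0 := by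
      intro l _
      rw [Finset.natCast_card_filter, Finset.mul_sum]
      refine Finset.sum_congr rfl fun p _ => ?_
      rw [mul_ite, mul_one, mul_zero]
    rw [Finset.sum_congr rfl h3, Finset.sum_comm]
    refine Finset.sum_congr rfl fun p _ => ?_
    rw [Finset.sum_filter]
  have h4 : (H'.card : ℝ) * (ε * W) ≤ ∑ p ∈ H', ∑ l ∈ L.filter (fun l => inc p l), w l := by
    have h5 := Finset.sum_le_sum hp
    rw [Finset.sum_const, nsmul_eq_mul] at h5
    exact h5
  rw [h2, ← Finset.sum_mul] at h1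
  have h6 : (∑ l ∈ L, w l) * (ε * (H'.card : ℝ)) ≤ W * (ε * (H'.card : ℝ)) :=
    mul_le_mul_of_nonneg_right hLW (mul_nonneg hε.le hH.le)
  have h7 : (H'.card : ℝ) * (ε * W) = W * (ε * (H'.card : ℝ)) := by ring
  linarith

lemma GRD_greedy {α β : Type} (H : Finset α) (L : Finset β) (inc : α → β → Prop) (w : β → ℝ)
    (ε W : ℝ) (hw : ∀ l ∈ L, 0 ≤ w l) (hW : 0 < W) (hLW : ∑ l ∈ L, w l ≤ W) (hε : 0 < ε)
    (hε1 : ε ≤ 1)
    (hp : ∀ p ∈ H, ε * W ≤ ∑ l ∈ L.filter (fun l => inc p l), w l) (t : ℕ) :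
    ∃ N ⊆ L, N.card ≤ t ∧
      ((H.filter (fun p => ∀ l ∈ N, ¬ inc p l)).card : ℝ) ≤ (H.card : ℝ) * (1 - ε) ^ t := by
  induction t with
  | zero =>
    refine ⟨∅, Finset.empty_subset _, by simp, ?_⟩
    rw [pow_zero, mul_one]
    exact_mod_cast Finset.card_filter_le _ _
  | succ t ih =>
    obtain ⟨N, hN, hNc, hNu⟩ := ih
    have h1ε : (0 : ℝ) ≤ 1 - ε := sub_nonneg.2 hε1
    rcases (H.filter (fun p => ∀ l ∈ N, ¬ inc p l)).eq_empty_or_nonempty with he | hne
    · refine ⟨N, hN, by omega, ?_⟩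
      rw [he, Finset.card_empty, Nat.cast_zero]
      exact mul_nonneg (Nat.cast_nonneg _) (pow_nonneg h1ε _)
    · obtain ⟨l, hl, hlc⟩ := GRD_step (H.filter (fun p => ∀ l ∈ N, ¬ inc p l)) L inc w ε W hw hW
        hLW hε (fun p hpm => hp p (Finset.mem_filter.1 hpm).1) hne
      refine ⟨insert l N, Finset.insert_subset hl hN, (Finset.card_insert_le _ _).trans (by omega),
        ?_⟩
      have hsplit : H.filter (fun p => ∀ m ∈ insert l N, ¬ inc p m) =
          (H.filter (fun p => ∀ m ∈ N, ¬ inc p m)).filter (fun p => ¬ inc p l) := by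
        ext p
        simp only [Finset.mem_filter, Finset.mem_insert, forall_eq_or_imp]
        tauto
      rw [hsplit]
      have hcard := Finset.card_filter_add_card_filter_not
        (s := H.filter (fun p => ∀ m ∈ N, ¬ inc p m)) (fun p => inc p l)
      have hcard' : (((H.filter (fun p => ∀ m ∈ N, ¬ inc p m)).filter
          (fun p => inc p l)).card : ℝ) +
          (((H.filter (fun p => ∀ m ∈ N, ¬ inc p m)).filter (fun p => ¬ inc p l)).card : ℝ) =
          ((H.filter (fun p => ∀ m ∈ N, ¬ inc p m)).card : ℝ) := by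
        exact_mod_cast hcard
      have h5 : ((H.filter (fun p => ∀ m ∈ N, ¬ inc p m)).card : ℝ) * (1 - ε) ≤
          (H.card : ℝ) * (1 - ε) ^ t * (1 - ε) := mul_le_mul_of_nonneg_right hNu h1ε
      rw [pow_succ, ← mul_assoc]
      linarith

/-- Block GRD. -/
theorem p_GRD : Stmt_GRD := by
  intro α β H L inc w ε W K hw hW hLW hε hε1 hp hK hHK
  have hlogK : 0 ≤ Real.log K := Real.log_nonneg hK
  obtain ⟨N, hN, hNc, hNu⟩ := GRD_greedy H L inc w ε W hw hW hLW hε hε1 hp
    ⌈Real.log K / ε⌉₊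
  set t : ℕ := ⌈Real.log K / ε⌉₊ with ht
  have ht1 : Real.log K / ε ≤ (t : ℝ) := Nat.le_ceil _
  have ht2 : (t : ℝ) < Real.log K / ε + 1 := Nat.ceil_lt_add_one (div_nonneg hlogK hε.le)
  have h1ε : (0 : ℝ) ≤ 1 - ε := sub_nonneg.2 hε1
  have hpow : (1 - ε) ^ t ≤ 1 / K := by
    have h1 : (1 - ε) ^ t ≤ (Real.exp (-ε)) ^ t :=
      pow_le_pow_left₀ h1ε (Real.one_sub_le_exp_neg ε) t
    have h2 : (Real.exp (-ε)) ^ t = Real.exp ((t : ℝ) * -ε) := by
      rw [Real.exp_nat_mul]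
    have h3 : (t : ℝ) * -ε ≤ - Real.log K := by
      rw [div_le_iff₀ hε] at ht1
      linarith
    have h4 : Real.exp (- Real.log K) = 1 / K := by
      rw [Real.exp_neg, Real.exp_log (by linarith), one_div]
    calc (1 - ε) ^ t ≤ (Real.exp (-ε)) ^ t := h1
      _ = Real.exp ((t : ℝ) * -ε) := h2
      _ ≤ Real.exp (- Real.log K) := Real.exp_le_exp.2 h3
      _ = 1 / K := h4
  have hunc : ((H.filter (fun p => ∀ l ∈ N, ¬ inc p l)).card : ℝ) ≤ 1 / ε := by
    refine hNu.trans ?_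
    have h1 : (H.card : ℝ) * (1 - ε) ^ t ≤ K / ε * (1 / K) :=
      mul_le_mul hHK hpow (pow_nonneg h1ε _) (div_nonneg (by linarith) hε.le)
    have h2 : K / ε * (1 / K) = 1 / ε := by
      have : K ≠ 0 := by linarith
      field_simp
    rw [h2] at h1
    exact h1
  -- a line through every point
  have hex : ∀ p ∈ H, ∃ l ∈ L, inc p l := by
    intro p hpH
    have h1 := hp p hpH
    have h2 := mul_pos hε hW
    by_contra h
    push Not at h
    have h3 : L.filter (fun l => inc p l) = ∅ := Finset.filter_eq_empty_iff.2 fun l hl => h l hl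
    rw [h3, Finset.sum_empty] at h1
    linarith
  choose f hf using hex
  set Un : Finset α := H.filter (fun p => ∀ l ∈ N, ¬ inc p l) with hUn
  have hUnH : ∀ p ∈ Un, p ∈ H := fun p h => (Finset.mem_filter.1 h).1
  set N' : Finset β := Un.attach.image (fun x => f x.1 (hUnH x.1 x.2)) with hN'
  have hN'c : (N'.card : ℝ) ≤ 1 / ε := by
    have h1 : N'.card ≤ Un.card := by
      rw [hN']
      refine Finset.card_image_le.trans ?_
      rw [Finset.card_attach]
    exact (Nat.cast_le.2 h1).trans hunc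
  refine ⟨N ∪ N', ?_, ?_, ?_⟩
  · refine Finset.union_subset hN ?_
    intro l hl
    rw [hN', Finset.mem_image] at hl
    obtain ⟨x, _, rfl⟩ := hl
    exact (hf x.1 (hUnH x.1 x.2)).1
  · have h1 : ((N ∪ N').card : ℝ) ≤ (N.card : ℝ) + (N'.card : ℝ) := by
      exact_mod_cast Finset.card_union_le N N'
    have h2 : (N.card : ℝ) ≤ (t : ℝ) := by exact_mod_cast hNc
    have h3 : 1 ≤ 1 / ε := by
      rw [le_div_iff₀ hε]
      linarith
    have h4 : 1 / ε * (Real.log K + 2) = Real.log K / ε + 1 / ε + 1 / ε := by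
      field_simp
      ring
    rw [h4]
    linarith
  · intro p hpH
    by_cases h : ∃ l ∈ N, inc p l
    · obtain ⟨l, hl, hi⟩ := h
      exact ⟨l, Finset.mem_union_left _ hl, hi⟩
    · push Not at h
      have hpU : p ∈ Un := Finset.mem_filter.2 ⟨hpH, h⟩
      refine ⟨f p (hUnH p hpU), Finset.mem_union_right _ ?_, (hf p (hUnH p hpU)).2⟩
      rw [hN', Finset.mem_image]
      exact ⟨⟨p, hpU⟩, Finset.mem_attach _ _, rfl⟩

end Pool.LLN
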