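import Pool.Agent.Work.MP_ef7f46_ll.Interface

/-! Block INC of THEOREM LL (helper86). -/

set_option autoImplicit false
open Classical
open EpsNet.Elem (lineThrough spannedLines IsEpsNet)

namespace Pool.LLN

theorem p_INC (hWST : Stmt_WST) (hSHR : Stmt_SHR) (hKAP : Stmt_KAP) : Stmt_INC := by
  intro P H 𝓛 a q hHP h𝓛 ha hq hq1
  obtain ⟨δ, hδ⟩ := hSHR P
  set φ : Pt → Pt := fun x => (x.1 + δ * x.2, x.2) with hφ
  have hφi : Function.Injective φ := by
    intro x y hxy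
    simp only [hφ, Prod.mk.injEq] at hxy
    obtain ⟨h1, h2⟩ := hxy
    rw [h2] at h1
    exact Prod.ext (by linarith) h2
  have hex : ∀ l : Set Pt, ∃ m : Ln, l ∈ spannedLines P → ∀ x : Pt, x ∈ l ↔ On m (φ x) := by
    intro l
    by_cases hl : l ∈ spannedLines P
    · unfold spannedLines at hl
      obtain ⟨⟨u, v⟩, huv, rfl⟩ := Finset.mem_image.1 hl
      obtain ⟨hu, hv, hne⟩ := Finset.mem_offDiag.1 huv
      obtain ⟨m, hm⟩ := hKAP δ u v fun h => hne (hδ u hu v hv h)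
      exact ⟨m, fun _ => hm⟩
    · exact ⟨(0, 0), fun h => absurd h hl⟩
  choose κ hκ using hex
  have hinj : Set.InjOn κ (𝓛 : Set (Set Pt)) := by
    intro l hl l' hl' he
    ext x
    rw [hκ l (h𝓛 hl) x, hκ l' (h𝓛 hl') x, he]
  set a' : Ln → ℝ := fun m => a (Function.invFunOn κ (𝓛 : Set (Set Pt)) m) with ha'
  have hinv : ∀ l ∈ 𝓛, a' (κ l) = a l := by
    intro l hl
    have := hinj.leftInvOn_invFunOn (Finset.mem_coe.2 hl)
    simp only [ha', this]
  have hI : Inj (H.image φ) := by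
    intro p hp q hq he
    obtain ⟨x, hx, rfl⟩ := Finset.mem_image.1 hp
    obtain ⟨y, hy, rfl⟩ := Finset.mem_image.1 hq
    rw [hδ x (hHP hx) y (hHP hy) he]
  have hW := hWST (H.image φ) (𝓛.image κ) a' q hI (by
    intro m hm
    obtain ⟨l, hl, rfl⟩ := Finset.mem_image.1 hm
    rw [hinv l hl]
    exact ha l hl) hq hq1
  rw [Finset.sum_image hinj, Finset.sum_image hinj, Finset.card_image_of_injective _ hφi] at hW
  have hc : ∀ l ∈ 𝓛, (pl (H.image φ) (κ l)).card = (H.filter (fun p => p ∈ l)).card := by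
    intro l hl
    have : pl (H.image φ) (κ l) = (H.filter (fun p => p ∈ l)).image φ := by
      ext y
      unfold pl
      simp only [Finset.mem_filter, Finset.mem_image]
      constructor
      · rintro ⟨⟨x, hx, rfl⟩, ho⟩
        exact ⟨x, ⟨hx, (hκ l (h𝓛 hl) x).2 ho⟩, rfl⟩
      · rintro ⟨x, ⟨hx, hxl⟩, rfl⟩
        exact ⟨⟨x, hx, rfl⟩, (hκ l (h𝓛 hl) x).1 hxl⟩
    rw [this, Finset.card_image_of_injective _ hφi]
  have e1 : ∑ l ∈ 𝓛, a' (κ l) * (((pl (H.image φ) (κ l)).card : ℝ) - 1) =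
      ∑ l ∈ 𝓛, a l * (((H.filter (fun p => p ∈ l)).card : ℝ) - 1) :=
    Finset.sum_congr rfl fun l hl => by rw [hinv l hl, hc l hl]
  have e2 : ∑ l ∈ 𝓛, a' (κ l) = ∑ l ∈ 𝓛, a l := Finset.sum_congr rfl fun l hl => hinv l hl
  rw [e1, e2] at hW
  exact hW

end Pool.LLN
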