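import Pool.Agent.Work.MP_ef7f46_ll.Interface

/-!
# Block KAP (helper1): a line in sheared coordinates
-/

set_option autoImplicit false
open Classical
open EpsNet.Elem (lineThrough spannedLines IsEpsNet)

namespace Pool.LLN

theorem p_KAP : Stmt_KAP := by
  intro δ u v h
  have hne : (v.1 + δ * v.2) - (u.1 + δ * u.2) ≠ 0 := sub_ne_zero.2 (Ne.symm h)
  refine ⟨((v.2 - u.2) / ((v.1 + δ * v.2) - (u.1 + δ * u.2)),
    u.2 - (v.2 - u.2) / ((v.1 + δ * v.2) - (u.1 + δ * u.2)) * (u.1 + δ * u.2)), fun x => ?_⟩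
  simp only [lineThrough, Set.mem_setOf_eq, On]
  set V := v.1 + δ * v.2 with hV
  set U := u.1 + δ * u.2 with hU
  set s := (v.2 - u.2) / (V - U) with hs
  have hsm : s * (V - U) = v.2 - u.2 := div_mul_cancel₀ _ hne
  constructor
  · intro hx
    apply mul_right_cancel₀ hne
    have h1 : (s * (x.1 + δ * x.2) + (u.2 - s * U)) * (V - U) =
        (x.1 + δ * x.2 - U) * (s * (V - U)) + u.2 * (V - U) := by ring
    rw [h1, hsm, hV, hU]
    linear_combination -hx
  · intro hx
    have h1 : (x.2 - u.2) * (V - U) = (x.1 + δ * x.2 - U) * (v.2 - u.2) := by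
      rw [← hsm]
      linear_combination (V - U) * hx
    rw [hV, hU] at h1
    linear_combination -h1

end Pool.LLN
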