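import Pool.Agent.Work.MP_ef7f46_ll.Interface

/-!
# Block LTU (helper1): two points determine a line
-/

set_option autoImplicit false
open Classical
open EpsNet.Elem (lineThrough spannedLines IsEpsNet)

namespace Pool.LLN

theorem LTU_tr (y₁ y₂ e₁ e₂ d₁ d₂ : ℝ) (he : e₁ ≠ 0 ∨ e₂ ≠ 0) (h1 : y₁ * e₂ = y₂ * e₁)
    (h2 : e₁ * d₂ = e₂ * d₁) : y₁ * d₂ = y₂ * d₁ := by
  rcases he with he | he
  · apply mul_left_cancel₀ he
    linear_combination y₁ * h2 + d₁ * h1
  · apply mul_left_cancel₀ he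
    linear_combination y₂ * h2 + d₂ * h1

theorem p_LTU : Stmt_LTU := by
  intro p q u v hpq huv hu hv
  simp only [lineThrough, Set.mem_setOf_eq] at hu hv
  have hd : q.1 - p.1 ≠ 0 ∨ q.2 - p.2 ≠ 0 := by
    by_contra h
    push Not at h
    exact hpq (Prod.ext (sub_eq_zero.1 h.1).symm (sub_eq_zero.1 h.2).symm)
  have he : v.1 - u.1 ≠ 0 ∨ v.2 - u.2 ≠ 0 := by
    by_contra h
    push Not at h
    exact huv (Prod.ext (sub_eq_zero.1 h.1).symm (sub_eq_zero.1 h.2).symm)
  have hed : (v.1 - u.1) * (q.2 - p.2) = (v.2 - u.2) * (q.1 - p.1) := by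
    linear_combination hv - hu
  have hde : (q.1 - p.1) * (v.2 - u.2) = (q.2 - p.2) * (v.1 - u.1) := by
    linear_combination -hed
  ext x
  simp only [lineThrough, Set.mem_setOf_eq]
  constructor
  · intro hx
    have h1 := LTU_tr (x.1 - u.1) (x.2 - u.2) _ _ _ _ he hx hed
    linear_combination h1 + hu
  · intro hx
    have h1 : (x.1 - u.1) * (q.2 - p.2) = (x.2 - u.2) * (q.1 - p.1) := by
      linear_combination hx - hu
    exact LTU_tr (x.1 - u.1) (x.2 - u.2) _ _ _ _ hd h1 hde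

end Pool.LLN
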