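import Pool.Agent.Work.MP_ef7f46_ll.Interface

/-!
# THEOREM LL (MP_ef7f46_co, light lines): block PLN, a plane straight line graph has few edges
-/

set_option autoImplicit false
open Classical
open EpsNet.Elem (lineThrough spannedLines IsEpsNet)

namespace Pool.LLN

/-- Two edges with the same left end point and the same slope are equal. -/
theorem PLN_eq {T : Finset Pt} {E : Finset (Pt × Pt)} (hG : Gr T E) {a b b' : Pt}
    (h : (a, b) ∈ E) (h' : (a, b') ∈ E) (hs : sl a b = sl a b') : b = b' := by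
  have key : ∀ u v : Pt, (a, u) ∈ E → (a, v) ∈ E → sl a u = sl a v → ¬ u.1 < v.1 := by
    intro u v hu hv hs hlt
    have h1 : a.1 < u.1 := hG.lt _ hu
    have h2 := hG.free _ hv u (hG.right _ hu) h1 hlt
    apply h2
    show u.2 = ht a v u.1
    unfold ht
    rw [← hs]
    unfold sl
    have h3 : u.1 - a.1 ≠ 0 := by
      intro h4
      linarith
    rw [div_mul_cancel₀ _ h3]
    ring
  have h1 := key b b' h h' hs
  have h2 := key b' b h' h hs.symm
  exact hG.inj b (hG.right _ h) b' (hG.right _ h') (le_antisymm (not_lt.1 h2) (not_lt.1 h1))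

/-- The next right going edge exists. -/
theorem PLN_nx (E : Finset (Pt × Pt)) (a b v : Pt) (h : (a, b) ∈ E) (hv : (a, v) ∈ E)
    (hs : sl a b < sl a v) : ∃ c, Nx E a b c := by
  have hne : (E.filter fun z => z.1 = a ∧ sl a b < sl a z.2).Nonempty :=
    ⟨(a, v), by simp [hv, hs]⟩
  obtain ⟨z, hz, hmin⟩ := Finset.exists_min_image _ (fun z : Pt × Pt => sl a z.2) hne
  rw [Finset.mem_filter] at hz
  obtain ⟨hzE, hz1, hz2⟩ := hz
  refine ⟨z.2, h, ?_, hz2, ?_⟩
  · rw [← hz1]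
    exact hzE
  · rintro w hw ⟨h1, h2⟩
    have h3 := hmin (a, w) (by simp [hw, h1])
    exact absurd h2 (not_lt.2 h3)

/-- The relation between an edge and its mark. -/
def PLN_R (T : Finset Pt) (E : Finset (Pt × Pt)) (e : Pt × Pt) (y : Pt × Fin 3) : Prop :=
  ∃ c, Nx E e.1 e.2 c ∧ Lm T e.1 e.2 c y.1 ∧
    ((y.2 = 1 ∧ y.1 = e.2) ∨ (y.2 = 2 ∧ y.1 = c) ∨
      (y.2 = 0 ∧ sl e.1 e.2 < sl e.1 y.1 ∧ sl e.1 y.1 < sl e.1 c))

theorem PLN_inj (hCS0 : Stmt_CS0) (hCS1 : Stmt_CS1) (hCS2 : Stmt_CS2) {T : Finset Pt}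
    {E : Finset (Pt × Pt)} (hG : Gr T E) (hP : Plane E) (e e' : Pt × Pt) (y : Pt × Fin 3)
    (h : PLN_R T E e y) (h' : PLN_R T E e' y) : e = e' := by
  obtain ⟨a, b⟩ := e
  obtain ⟨a', b'⟩ := e'
  obtain ⟨d, i⟩ := y
  obtain ⟨c, hN, hL, hc⟩ := h
  obtain ⟨c', hN', hL', hc'⟩ := h'
  simp only at hN hL hc hN' hL' hc'
  rcases hc with ⟨hi, hd⟩ | ⟨hi, hd⟩ | ⟨hi, hd1, hd2⟩
  · -- the leftmost vertex is `b`
    rcases hc' with ⟨-, hd'⟩ | ⟨hi', -⟩ | ⟨hi', -, -⟩
    · subst hd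
      subst hd'
      have haa : a' = a := by
        by_contra hne
        have h1 := hCS1 T E hG hP a d c a' hN hL hN'.1 hne
        have h2 := hCS1 T E hG hP a' d c' a hN' hL' hN.1 (Ne.symm hne)
        exact lt_asymm h1 h2
      rw [haa]
    · rw [hi] at hi'
      exact absurd hi' (by decide)
    · rw [hi] at hi'
      exact absurd hi' (by decide)
  · -- the leftmost vertex is `c`
    rcases hc' with ⟨hi', -⟩ | ⟨-, hd'⟩ | ⟨hi', -, -⟩
    · rw [hi] at hi'
      exact absurd hi' (by decide)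
    · subst hd
      subst hd'
      have haa : a' = a := by
        by_contra hne
        have h1 := hCS2 T E hG hP a b d a' hN hL hN'.2.1 hne
        have h2 := hCS2 T E hG hP a' b' d a hN' hL' hN.2.1 (Ne.symm hne)
        exact lt_asymm h1 h2
      subst haa
      have h1 : ¬ sl a' b < sl a' b' := fun hlt => hN.2.2.2 b' hN'.1 ⟨hlt, hN'.2.2.1⟩
      have h2 : ¬ sl a' b' < sl a' b := fun hlt => hN'.2.2.2 b hN.1 ⟨hlt, hN.2.2.1⟩
      have h3 : sl a' b = sl a' b' := le_antisymm (not_lt.1 h2) (not_lt.1 h1)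
      rw [PLN_eq hG hN.1 hN'.1 h3]
    · rw [hi] at hi'
      exact absurd hi' (by decide)
  · -- the leftmost vertex is inside
    rcases hc' with ⟨hi', -⟩ | ⟨hi', -⟩ | ⟨-, hd1', hd2'⟩
    · rw [hi] at hi'
      exact absurd hi' (by decide)
    · rw [hi] at hi'
      exact absurd hi' (by decide)
    · obtain ⟨h1, h2⟩ := hCS0 T E hG hP a b c d a' b' c' hN hL hd1 hd2 hN' hL' hd1' hd2'
      rw [h1, h2]

theorem p_PLN (hLMX : Stmt_LMX) (hTRI : Stmt_TRI) (hCS0 : Stmt_CS0) (hCS1 : Stmt_CS1)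
    (hCS2 : Stmt_CS2) : Stmt_PLN := by
  intro T E hG hP
  set E₁ := E.filter fun e => ∃ v, (e.1, v) ∈ E ∧ sl e.1 e.2 < sl e.1 v with hE₁
  set E₂ := E.filter fun e => ¬ ∃ v, (e.1, v) ∈ E ∧ sl e.1 e.2 < sl e.1 v with hE₂
  have hex : ∀ e ∈ E₁, ∃ y : Pt × Fin 3, PLN_R T E e y := by
    intro e he
    rw [hE₁, Finset.mem_filter] at he
    obtain ⟨heE, v, hv, hs⟩ := he
    obtain ⟨c, hc⟩ := PLN_nx E e.1 e.2 v heE hv hs
    obtain ⟨d, hd⟩ := hLMX T E e.1 e.2 c hG hc
    rcases (hTRI T E e.1 e.2 c d hG hc hd).2.2 with h | h | h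
    · exact ⟨(d, 1), c, hc, hd, Or.inl ⟨rfl, h⟩⟩
    · exact ⟨(d, 2), c, hc, hd, Or.inr (Or.inl ⟨rfl, h⟩)⟩
    · exact ⟨(d, 0), c, hc, hd, Or.inr (Or.inr ⟨rfl, h⟩)⟩
  choose! f hf using hex
  have h1 : E₁.card ≤ (T ×ˢ (Finset.univ : Finset (Fin 3))).card := by
    apply Finset.card_le_card_of_injOn f
    · intro e he
      obtain ⟨c, -, hL, -⟩ := hf e he
      simp only [Finset.coe_product, Finset.coe_univ, Set.mem_prod, Finset.mem_coe,
        Set.mem_univ, and_true]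
      exact hL.1
    · intro e he e' he' heq
      have h2 := hf e' he'
      have h3 := hf e he
      have heq' : f e = f e' := heq
      rw [heq'] at h3
      exact PLN_inj hCS0 hCS1 hCS2 hG hP e e' _ h3 h2
  have h2 : E₂.card ≤ T.card := by
    apply Finset.card_le_card_of_injOn (fun e => e.1)
    · intro e he
      have he' : e ∈ E₂ := he
      rw [hE₂, Finset.mem_filter] at he'
      exact hG.left _ he'.1
    · intro e he e' he' heq
      have h3 : e ∈ E₂ := he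
      have h4 : e' ∈ E₂ := he'
      rw [hE₂, Finset.mem_filter] at h3 h4
      obtain ⟨a, b⟩ := e
      obtain ⟨a', b'⟩ := e'
      simp only at heq h3 h4
      subst heq
      have h5 : ¬ sl a b < sl a b' := fun h => h3.2 ⟨b', h4.1, h⟩
      have h6 : ¬ sl a b' < sl a b := fun h => h4.2 ⟨b, h3.1, h⟩
      rw [PLN_eq hG h3.1 h4.1 (le_antisymm (not_lt.1 h6) (not_lt.1 h5))]
  have h3 : E₁.card + E₂.card = E.card := Finset.card_filter_add_card_filter_not _
  rw [Finset.card_product, Finset.card_univ, Fintype.card_fin] at h1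
  omega

end Pool.LLN
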