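import Pool.Agent.Work.MP_ef7f46_ll.Interface

/-!
# Block RLF (helper1): rotation about the left point
-/

set_option autoImplicit false
open Classical
open EpsNet.Elem (lineThrough spannedLines IsEpsNet)

namespace Pool.LLN

theorem RLF_ex (P : Finset Pt) (t : Pt) (l m₀ : Ln) (h1 : m₀ ∈ SLn P) (h2 : On m₀ t)
    (h3 : l.1 < m₀.1) : ∃ m, NL P t l m ∧ m.1 ≤ m₀.1 := by
  set S := (SLn P).filter fun m => On m t ∧ l.1 < m.1 with hS
  have hne : S.Nonempty := ⟨m₀, Finset.mem_filter.2 ⟨h1, h2, h3⟩⟩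
  obtain ⟨m, hm, hmin⟩ := Finset.exists_min_image S (fun m => m.1) hne
  have hm' := Finset.mem_filter.1 hm
  refine ⟨m, ⟨hm'.1, hm'.2.1, hm'.2.2, ?_⟩, hmin m₀ (Finset.mem_filter.2 ⟨h1, h2, h3⟩)⟩
  intro n hn hn1 hn2
  exact hmin n (Finset.mem_filter.2 ⟨hn, hn1, hn2⟩)

theorem RLF_line (P : Finset Pt) (a b : Pt) (ha : a ∈ P) (hb : b ∈ P) (hab : a.1 < b.1) :
    (sl a b, a.2 - sl a b * a.1) ∈ SLn P ∧ On (sl a b, a.2 - sl a b * a.1) a ∧
      On (sl a b, a.2 - sl a b * a.1) b := by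
  have hne : a ≠ b := by
    rintro rfl
    exact lt_irrefl _ hab
  have h1 : sl a b * (b.1 - a.1) = b.2 - a.2 := by
    unfold sl
    exact div_mul_cancel₀ _ (sub_ne_zero.2 hab.ne')
  refine ⟨?_, ?_, ?_⟩
  · unfold SLn
    rw [Finset.mem_image]
    exact ⟨(a, b), Finset.mem_offDiag.2 ⟨ha, hb, hne⟩, rfl⟩
  · unfold On
    ring
  · unfold On
    simp only
    linear_combination -h1

theorem p_RLF : Stmt_RLF := by
  intro P p r l l' _ hSc hNL hmin c hc hcl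
  obtain ⟨hp, hr, hlp, hlr, hpr, -⟩ := hSc
  obtain ⟨-, hlp', hll, -⟩ := hNL
  by_contra hlt
  push Not at hlt
  have hcr : c.1 < r.1 := hlt.trans hpr
  obtain ⟨h1, -, h3⟩ := RLF_line P c r hc hr hcr
  have hsl : sl c r * (r.1 - c.1) = r.2 - c.2 := by
    unfold sl
    exact div_mul_cancel₀ _ (sub_ne_zero.2 hcr.ne')
  unfold On at hlp hlr hlp' hcl
  have hval : sl c r * (r.1 - c.1) = l'.1 * (p.1 - c.1) + l.1 * (r.1 - p.1) := by
    rw [hsl]
    linear_combination hlr - hlp + hlp' - hcl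
  have hlo : l.1 < sl c r := by
    nlinarith [mul_pos (sub_pos.2 hll) (sub_pos.2 hlt)]
  have hhi : sl c r < l'.1 := by
    nlinarith [mul_pos (sub_pos.2 hll) (sub_pos.2 hpr)]
  obtain ⟨m, hm, hmle⟩ := RLF_ex P r l _ h1 h3 hlo
  have := hmin m hm
  simp only at hmle
  linarith

end Pool.LLN
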