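import Pool.Agent.Work.MP_ef7f46_ll.Interface

set_option autoImplicit false
open Classical
open EpsNet.Elem (lineThrough spannedLines IsEpsNet)

namespace Pool.LLN

theorem ROT_left (p q : Pt) : On (sl p q, p.2 - sl p q * p.1) p := by
  unfold On
  dsimp only
  ring

theorem ROT_unique (l : Ln) (p q : Pt) (hpq : p.1 ≠ q.1) (h1 : On l p) (h2 : On l q) :
    (sl p q, p.2 - sl p q * p.1) = l := by
  unfold On at h1 h2
  have hne : q.1 - p.1 ≠ 0 := sub_ne_zero.mpr (Ne.symm hpq)
  have hs : sl p q = l.1 := by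
    unfold sl
    rw [div_eq_iff hne, h1, h2]
    ring
  apply Prod.ext
  · exact hs
  · show p.2 - sl p q * p.1 = l.2
    rw [hs, h1]
    ring

theorem ROT_right (p q : Pt) (hpq : p.1 ≠ q.1) : On (sl p q, p.2 - sl p q * p.1) q := by
  unfold On
  dsimp only
  have hne : q.1 - p.1 ≠ 0 := sub_ne_zero.mpr (Ne.symm hpq)
  have hs : sl p q * (q.1 - p.1) = q.2 - p.2 := by
    unfold sl
    exact div_mul_cancel₀ _ hne
  linarith

theorem ROT_two (P : Finset Pt) (hP : Inj P) (h2 : 2 ≤ (SLn P).card) (p : Pt) (hp : p ∈ P) :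
    2 ≤ ((SLn P).filter (fun l => On l p)).card := by
  by_contra hlt
  have hle : ((SLn P).filter (fun l => On l p)).card ≤ 1 := by omega
  have huniq : ∀ a ∈ (SLn P).filter (fun l => On l p), ∀ b ∈ (SLn P).filter (fun l => On l p),
      a = b := fun a ha b hb => Finset.card_le_one.mp hle a ha b hb
  have hmem : ∀ q ∈ P, q ≠ p → (sl p q, p.2 - sl p q * p.1) ∈
      (SLn P).filter (fun l => On l p) := by
    intro q hq hqp
    refine Finset.mem_filter.mpr ⟨?_, ROT_left p q⟩
    unfold SLn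
    exact Finset.mem_image.mpr ⟨(p, q), Finset.mem_offDiag.mpr ⟨hp, hq, Ne.symm hqp⟩, rfl⟩
  -- there is a second point
  have hne : (SLn P).Nonempty := Finset.card_pos.mp (by omega)
  obtain ⟨m, hm⟩ := hne
  have hm' := hm
  unfold SLn at hm'
  obtain ⟨z, hz, -⟩ := Finset.mem_image.mp hm'
  obtain ⟨hz1, hz2, hz3⟩ := Finset.mem_offDiag.mp hz
  have hex : ∃ q ∈ P, q ≠ p := by
    by_cases h : z.1 = p
    · exact ⟨z.2, hz2, fun h' => hz3 (h.trans h'.symm)⟩
    · exact ⟨z.1, hz1, h⟩
  obtain ⟨q, hq, hqp⟩ := hex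
  have hall : ∀ u ∈ P, On (sl p q, p.2 - sl p q * p.1) u := by
    intro u hu
    by_cases hup : u = p
    · rw [hup]
      exact ROT_left p q
    · have h1 := huniq _ (hmem q hq hqp) _ (hmem u hu hup)
      rw [h1]
      exact ROT_right p u (fun h => hup (hP p hp u hu h).symm)
  have hsub : SLn P ⊆ {(sl p q, p.2 - sl p q * p.1)} := by
    intro l hl
    unfold SLn at hl
    obtain ⟨y, hy, hyl⟩ := Finset.mem_image.mp hl
    obtain ⟨hy1, hy2, hy3⟩ := Finset.mem_offDiag.mp hy
    rw [Finset.mem_singleton, ← hyl]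
    exact ROT_unique _ y.1 y.2 (fun h => hy3 (hP _ hy1 _ hy2 h)) (hall _ hy1) (hall _ hy2)
  have := Finset.card_le_card hsub
  rw [Finset.card_singleton] at this
  omega

theorem ROT_card (P : Finset Pt) :
    (Qs P).card = ∑ p ∈ P, ((SLn P).filter (fun l => On l p)).card := by
  unfold Qs
  rw [Finset.card_filter, Finset.sum_product]
  refine Finset.sum_congr rfl ?_
  intro p _
  rw [Finset.card_filter]

theorem p_ROT (hRIN : Stmt_RIN) : Stmt_ROT := by
  intro P hP h2
  have h1 := hRIN P hP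
  have h3 : P.card * 2 ≤ (Qs P).card := by
    rw [ROT_card P]
    have := Finset.sum_le_sum (fun p hp => ROT_two P hP h2 p hp)
    rw [Finset.sum_const, smul_eq_mul] at this
    exact this
  omega

end Pool.LLN
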