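import Pool.Agent.Work.MP_ef7f46_ll.Interface

/-! Block RTT of THEOREM LL (helper41): the average size of a spanned line. -/

set_option autoImplicit false
open Classical
open EpsNet.Elem (lineThrough spannedLines IsEpsNet)

namespace Pool.LLN

/-- Two points with different first coordinates determine the line. -/
lemma RTT_uniq (l : Ln) (p q : Pt) (hp : On l p) (hq : On l q) (h : p.1 ≠ q.1) :
    (sl p q, p.2 - sl p q * p.1) = l := by
  have h1 : q.1 - p.1 ≠ 0 := sub_ne_zero.mpr (Ne.symm h)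
  unfold On at hp hq
  have hs : sl p q = l.1 := by
    unfold sl
    rw [div_eq_iff h1, hp, hq]
    ring
  apply Prod.ext
  · exact hs
  · show p.2 - sl p q * p.1 = l.2
    rw [hs, hp]
    ring

theorem p_RTT (hROT : Stmt_ROT) (hSHR : Stmt_SHR) (hKAP : Stmt_KAP) : Stmt_RTT := by
  intro H h2
  obtain ⟨δ, hδ⟩ := hSHR H
  let φ : Pt → Pt := fun x => (x.1 + δ * x.2, x.2)
  have hφ : Function.Injective φ := by
    intro x y hxy
    have e2 : x.2 = y.2 := (Prod.ext_iff.mp hxy).2
    have e1 : x.1 + δ * x.2 = y.1 + δ * y.2 := (Prod.ext_iff.mp hxy).1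
    apply Prod.ext _ e2
    rw [e2] at e1
    linarith
  have hne : ∀ u ∈ H, ∀ v ∈ H, u ≠ v → (φ u).1 ≠ (φ v).1 := fun u hu v hv huv he =>
    huv (hδ u hu v hv he)
  have hInj : Inj (H.image φ) := by
    intro p hp q hq hpq
    obtain ⟨u, hu, rfl⟩ := Finset.mem_image.mp hp
    obtain ⟨v, hv, rfl⟩ := Finset.mem_image.mp hq
    rw [hδ u hu v hv hpq]
  -- the sheared line
  have hthr : ∀ u v : Pt, u ∈ lineThrough u v ∧ v ∈ lineThrough u v := by
    intro u v
    constructor
    · show (u.1 - u.1) * (v.2 - u.2) = (u.2 - u.2) * (v.1 - u.1)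
      ring
    · show (v.1 - u.1) * (v.2 - u.2) = (v.2 - u.2) * (v.1 - u.1)
      ring
  have hex : ∀ L ∈ spannedLines H, ∃ l : Ln, l ∈ SLn (H.image φ) ∧ ∀ x, x ∈ L ↔ On l (φ x) := by
    intro L hL
    unfold spannedLines at hL
    obtain ⟨⟨u, v⟩, huv, rfl⟩ := Finset.mem_image.mp hL
    obtain ⟨hu, hv, huv'⟩ := Finset.mem_offDiag.mp huv
    have hd := hne u hu v hv huv'
    obtain ⟨l, hl⟩ := hKAP δ u v hd
    refine ⟨l, ?_, hl⟩
    unfold SLn
    rw [Finset.mem_image]
    refine ⟨(φ u, φ v), ?_, ?_⟩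
    · rw [Finset.mem_offDiag]
      exact ⟨Finset.mem_image_of_mem φ hu, Finset.mem_image_of_mem φ hv,
        fun he => huv' (hφ he)⟩
    · exact RTT_uniq l (φ u) (φ v) ((hl u).mp (hthr u v).1) ((hl v).mp (hthr u v).2) hd
  choose! κ hκ using hex
  have hinj : Set.InjOn κ (spannedLines H : Set (Set Pt)) := by
    intro L hL L' hL' he
    ext x
    rw [(hκ L hL).2 x, (hκ L' hL').2 x, he]
  have himg : (spannedLines H).image κ = SLn (H.image φ) := by
    apply Finset.Subset.antisymm
    · intro l hl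
      obtain ⟨L, hL, rfl⟩ := Finset.mem_image.mp hl
      exact (hκ L hL).1
    · intro m hm
      unfold SLn at hm
      obtain ⟨⟨a, b⟩, hab, rfl⟩ := Finset.mem_image.mp hm
      obtain ⟨ha, hb, hab'⟩ := Finset.mem_offDiag.mp hab
      obtain ⟨u, hu, rfl⟩ := Finset.mem_image.mp ha
      obtain ⟨v, hv, rfl⟩ := Finset.mem_image.mp hb
      have huv : u ≠ v := fun he => hab' (by rw [he])
      have hL : lineThrough u v ∈ spannedLines H := by
        unfold spannedLines
        exact Finset.mem_image.mpr ⟨(u, v), Finset.mem_offDiag.mpr ⟨hu, hv, huv⟩, rfl⟩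
      rw [Finset.mem_image]
      refine ⟨lineThrough u v, hL, ?_⟩
      exact (RTT_uniq _ (φ u) (φ v) (((hκ _ hL).2 u).mp (hthr u v).1)
        (((hκ _ hL).2 v).mp (hthr u v).2) (hne u hu v hv huv)).symm
  have hcard : (SLn (H.image φ)).card = (spannedLines H).card := by
    rw [← himg, Finset.card_image_of_injOn hinj]
  have hQ : (Qs (H.image φ)).card = ∑ l ∈ spannedLines H, (H.filter (fun p => p ∈ l)).card := by
    unfold Qs
    rw [Finset.card_filter, Finset.sum_product_right, ← himg, Finset.sum_image hinj]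
    apply Finset.sum_congr rfl
    intro L hL
    rw [← Finset.card_filter, Finset.filter_image, Finset.card_image_of_injective _ hφ]
    congr 1
    ext x
    simp only [Finset.mem_filter]
    rw [(hκ L hL).2 x]
  have := hROT (H.image φ) hInj (by rw [hcard]; exact h2)
  rw [hQ, hcard] at this
  exact this

end Pool.LLN
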