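import Pool.Agent.Work.MP_ef7f46_ll.Interface

/-!
# Block SHR (helper1): a shear makes the first coordinates distinct
-/

set_option autoImplicit false
open Classical
open EpsNet.Elem (lineThrough spannedLines IsEpsNet)

namespace Pool.LLN

theorem p_SHR : Stmt_SHR := by
  intro P
  obtain ⟨δ, hδ⟩ := Infinite.exists_notMem_finset
    ((P ×ˢ P).image fun z : Pt × Pt => -(z.1.1 - z.2.1) / (z.1.2 - z.2.2))
  refine ⟨δ, fun p hp q hq h => ?_⟩
  have h2 : p.2 = q.2 := by
    by_contra hne
    apply hδ
    rw [Finset.mem_image]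
    refine ⟨(p, q), Finset.mem_product.2 ⟨hp, hq⟩, ?_⟩
    have hne' : p.2 - q.2 ≠ 0 := sub_ne_zero.2 hne
    simp only
    rw [div_eq_iff hne']
    linear_combination -h
  refine Prod.ext ?_ h2
  rw [h2] at h
  linarith

end Pool.LLN
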