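import Pool.Agent.Work.MP_ef7f46_ll.Interface

/-! # Block TRI: the triangle of a wedge -/

set_option autoImplicit false
open Classical
open EpsNet.Elem (lineThrough spannedLines IsEpsNet)

namespace Pool.LLN

lemma TRI_ht (a d : Pt) (h : a.1 < d.1) : d.2 = a.2 + sl a d * (d.1 - a.1) := by
  unfold sl
  rw [div_mul_cancel₀ _ (sub_ne_zero.2 h.ne')]
  ring

lemma TRI_eq {T : Finset Pt} {E : Finset (Pt × Pt)} {a b d : Pt} (hG : Gr T E)
    (hab : (a, b) ∈ E) (hd : d ∈ T) (had : a.1 < d.1) (hdb : d.1 ≤ b.1)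
    (h : sl a d = sl a b) : d = b := by
  rcases lt_or_eq_of_le hdb with h1 | h1
  · exfalso
    apply hG.free _ hab d hd had h1
    show d.2 = a.2 + sl a b * (d.1 - a.1)
    rw [← h]
    exact TRI_ht a d had
  · exact hG.inj d hd b (hG.right _ hab) h1

theorem p_TRI : Stmt_TRI := by
  intro T E a b c d hG hN hL
  obtain ⟨hab, hac, hlt, -⟩ := hN
  obtain ⟨hd, had, h1, h2, hmin⟩ := hL
  have hdb : d.1 ≤ b.1 := hmin b (hG.right _ hab) (hG.lt _ hab) le_rfl hlt.le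
  have hdc : d.1 ≤ c.1 := hmin c (hG.right _ hac) (hG.lt _ hac) hlt.le le_rfl
  refine ⟨hdb, hdc, ?_⟩
  rcases lt_or_eq_of_le h1 with h3 | h3
  · rcases lt_or_eq_of_le h2 with h4 | h4
    · exact Or.inr (Or.inr ⟨h3, h4⟩)
    · exact Or.inr (Or.inl (TRI_eq hG hac hd had hdc h4))
  · exact Or.inl (TRI_eq hG hab hd had hdb h3.symm)

end Pool.LLN
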