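import Pool.Agent.Work.MP_ef7f46_ll.Interface

/-!
# Block WST: the weighted bound in linear form
-/

set_option autoImplicit false
open Classical
open EpsNet.Elem (lineThrough spannedLines IsEpsNet)

namespace Pool.LLN

theorem p_WST (hC : Stmt_CON) (hX : Stmt_XPR) (hG : Stmt_GEO) (hD1 : Stmt_DX1)
    (hD2 : Stmt_DX2) : Stmt_WST := by
  intro P L a q hP ha hq hq1
  have h1 : ∑ l ∈ L, a l * ((Cs P l).card : ℝ) ≤
      4 * (P.card : ℝ) / q + q ^ 2 * (∑ l ∈ L, a l) ^ 2 := by
    refine hD2 Pt Ln (Pt × Pt) ((Pt × Pt) × (Pt × Pt)) P L (Cs P) s2 (Xs P) s4 a q ?_ ?_ ?_ ?_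
      hq hq1 ?_
    · intro l _ e he
      unfold Cs at he
      rw [Finset.mem_filter, Finset.mem_product] at he
      obtain ⟨⟨he1, he2⟩, _, _, hlt, _⟩ := he
      constructor
      · unfold s2
        exact Finset.insert_subset he1 (Finset.singleton_subset_iff.2 he2)
      · unfold s2
        refine Finset.card_pair fun h => ?_
        rw [h] at hlt
        exact lt_irrefl _ hlt
    · intro l _ l' _ f hf
      exact (hX P l l' hP).2.2 f hf
    · intro l _ l' _
      exact (hX P l l' hP).1
    · exact fun l hl => (ha l hl).1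
    · intro T hT
      have h5 := hD1 Ln L a (fun l => (((Cs P l).filter (fun e => s2 e ⊆ T)).card : ℝ))
        (fun l l' => (((Xs P l l').filter (fun z => s4 z ⊆ T)).card : ℝ)) (4 * (T.card : ℝ)) ha
        ?_ ?_
      · convert h5
      · intro l _
        have h2 := (hX P l l hP).2.1
        simp only [h2, Finset.filter_empty, Finset.card_empty, Nat.cast_zero]
      · intro U _
        have h3 := hG P hP T U hT
        exact_mod_cast h3
  refine le_trans (Finset.sum_le_sum fun l hl => ?_) h1
  refine mul_le_mul_of_nonneg_left ?_ (ha l hl).1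
  have h4 : ((pl P l).card : ℝ) ≤ (Cs P l).card + 1 := by exact_mod_cast hC P l hP
  linarith

end Pool.LLN
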