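import Pool.Agent.Work.MP_ef7f46_ll.Interface

set_option autoImplicit false

/-! # Block XNG: straight line graphs with crossings -/

open Classical
open EpsNet.Elem (lineThrough spannedLines IsEpsNet)

namespace Pool.LLN

theorem XNG_ht_left (a b : Pt) : ht a b a.1 = a.2 := by
  unfold ht
  rw [sub_self, mul_zero, add_zero]

theorem XNG_ht_right (a b : Pt) (h : a.1 < b.1) : ht a b b.1 = b.2 := by
  have h1 : b.1 - a.1 ≠ 0 := sub_ne_zero.2 h.ne'
  unfold ht sl
  rw [div_mul_cancel₀ _ h1]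
  ring

theorem XNG_ht_eq (a b a' b' : Pt) (x : ℝ) (h1 : sl a b = sl a' b')
    (h2 : ht a b x = ht a' b' x) (y : ℝ) : ht a b y = ht a' b' y := by
  unfold ht at h2 ⊢
  rw [h1] at h2 ⊢
  linarith

theorem XNG_symm (e e' : Pt × Pt) (h : Meet e e') : Meet e' e := by
  obtain ⟨x, h1, h2, h3, h4, h5⟩ := h
  exact ⟨x, h3, h4, h1, h2, h5.symm⟩

/-- two edges of a graph with the same slope which meet: the left end points -/
theorem XNG_left (T : Finset Pt) (E : Finset (Pt × Pt)) (hG : Gr T E) (e e' : Pt × Pt)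
    (he : e ∈ E) (he' : e' ∈ E) (hs : sl e.1 e.2 = sl e'.1 e'.2) (hm : Meet e e') :
    ¬ e.1.1 < e'.1.1 := by
  intro hlt
  obtain ⟨x, h1, h2, h3, h4, h5⟩ := hm
  refine hG.free e he e'.1 (hG.left e' he') hlt (h3.trans h2) ?_
  rw [XNG_ht_eq _ _ _ _ x hs h5, XNG_ht_left]

/-- the right end points -/
theorem XNG_right (T : Finset Pt) (E : Finset (Pt × Pt)) (hG : Gr T E) (e e' : Pt × Pt)
    (he : e ∈ E) (he' : e' ∈ E) (hs : sl e.1 e.2 = sl e'.1 e'.2) (hm : Meet e e') :
    ¬ e.2.1 < e'.2.1 := by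
  intro hlt
  obtain ⟨x, h1, h2, h3, h4, h5⟩ := hm
  refine hG.free e' he' e.2 (hG.right e he) (h3.trans h2) hlt ?_
  rw [← XNG_ht_eq _ _ _ _ x hs h5, XNG_ht_right _ _ (hG.lt e he)]

theorem p_XNG (hPLN : Stmt_PLN) : Stmt_XNG := by
  intro T E hG
  set X := (E ×ˢ E).filter
    (fun z => sl z.2.1 z.2.2 < sl z.1.1 z.1.2 ∧ Meet z.1 z.2) with hX
  set E' := E.filter (fun e => ¬ ∃ e' ∈ E, sl e'.1 e'.2 < sl e.1 e.2 ∧ Meet e e') with hE'
  set B := E.filter (fun e => ∃ e' ∈ E, sl e'.1 e'.2 < sl e.1 e.2 ∧ Meet e e') with hB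
  have hsub : E' ⊆ E := Finset.filter_subset _ _
  have hcard : E.card = B.card + E'.card :=
    (Finset.card_filter_add_card_filter_not (s := E) _).symm
  have hBX : B.card ≤ X.card := by
    have h1 : B ⊆ X.image Prod.fst := by
      intro e he
      obtain ⟨he1, e', he', hs, hm⟩ := Finset.mem_filter.1 he
      exact Finset.mem_image.2 ⟨(e, e'), Finset.mem_filter.2
        ⟨Finset.mem_product.2 ⟨he1, he'⟩, hs, hm⟩, rfl⟩
    exact (Finset.card_le_card h1).trans Finset.card_image_le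
  have hG' : Gr T E' :=
    { inj := hG.inj
      left := fun e he => hG.left e (hsub he)
      right := fun e he => hG.right e (hsub he)
      lt := fun e he => hG.lt e (hsub he)
      free := fun e he => hG.free e (hsub he) }
  have hP : Plane E' := by
    intro e he e' he' hne hm
    obtain ⟨he1, he2⟩ := Finset.mem_filter.1 he
    obtain ⟨he1', he2'⟩ := Finset.mem_filter.1 he'
    rcases lt_trichotomy (sl e.1 e.2) (sl e'.1 e'.2) with hs | hs | hs
    · exact he2' ⟨e, he1, hs, XNG_symm _ _ hm⟩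
    · have hl1 := XNG_left T E hG e e' he1 he1' hs hm
      have hl2 := XNG_left T E hG e' e he1' he1 hs.symm (XNG_symm _ _ hm)
      have hr1 := XNG_right T E hG e e' he1 he1' hs hm
      have hr2 := XNG_right T E hG e' e he1' he1 hs.symm (XNG_symm _ _ hm)
      have hl : e.1 = e'.1 := hG.inj _ (hG.left e he1) _ (hG.left e' he1')
        (le_antisymm (not_lt.1 hl2) (not_lt.1 hl1))
      have hr : e.2 = e'.2 := hG.inj _ (hG.right e he1) _ (hG.right e' he1')
        (le_antisymm (not_lt.1 hr2) (not_lt.1 hr1))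
      exact hne (Prod.ext hl hr)
    · exact he2 ⟨e', he1', hs, hm⟩
  have h4 := hPLN T E' hG' hP
  omega

end Pool.LLN
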