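import Pool.Agent.Work.MP_ef7f46_ll.Interface

/-! Block XPR. -/

set_option autoImplicit false
open Classical
open EpsNet.Elem (lineThrough spannedLines IsEpsNet)

namespace Pool.LLN

/-- membership in the consecutive pairs -/
theorem XPR_cs {P : Finset Pt} {l : Ln} {e : Pt × Pt} (h : e ∈ Cs P l) :
    e.1 ∈ P ∧ e.2 ∈ P ∧ On l e.1 ∧ On l e.2 ∧ e.1.1 < e.2.1 := by
  unfold Cs at h
  rw [Finset.mem_filter, Finset.mem_product] at h
  exact ⟨h.1.1, h.1.2, h.2.1, h.2.2.1, h.2.2.2.1⟩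

/-- membership in the crossing pairs -/
theorem XPR_mem {P : Finset Pt} {l l' : Ln} {z : (Pt × Pt) × (Pt × Pt)} (h : z ∈ Xs P l l') :
    l'.1 < l.1 ∧ z.1 ∈ Cs P l ∧ z.2 ∈ Cs P l' ∧ Meet z.1 z.2 := by
  unfold Xs at h
  split_ifs at h with hl
  · rw [Finset.mem_filter, Finset.mem_product] at h
    exact ⟨hl, h.1.1, h.1.2, h.2⟩
  · exact absurd h (Finset.notMem_empty _)

theorem XPR_x (hC : Stmt_CDJ) {P : Finset Pt} (hP : Inj P) {l l' : Ln}
    {z : (Pt × Pt) × (Pt × Pt)} (h : z ∈ Xs P l l') :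
    ∃ x, z.1.1.1 < x ∧ x < z.1.2.1 ∧ z.2.1.1 < x ∧ x < z.2.2.1 ∧
      (l.1 - l'.1) * x = l'.2 - l.2 := by
  obtain ⟨hl, h1, h2, x, a1, a2, a3, a4, a5⟩ := XPR_mem h
  refine ⟨x, a1, a2, a3, a4, ?_⟩
  have e1 := (hC P l hP z.1 h1).1.2 x
  have e2 := (hC P l' hP z.2 h2).1.2 x
  rw [e1, e2] at a5
  linarith

/-- a point on both lines lies over the crossing point -/
theorem XPR_on {l l' : Ln} (hl : l'.1 < l.1) {x : ℝ} (hx : (l.1 - l'.1) * x = l'.2 - l.2)
    {c : Pt} (h1 : On l c) (h2 : On l' c) : c.1 = x := by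
  unfold On at h1 h2
  have h3 : (l.1 - l'.1) * c.1 = l'.2 - l.2 := by linarith
  have h4 : l.1 - l'.1 ≠ 0 := by linarith
  exact mul_left_cancel₀ h4 (h3.trans hx.symm)

theorem XPR_eq {l l' : Ln} (hl : l'.1 < l.1) {x y : ℝ} (hx : (l.1 - l'.1) * x = l'.2 - l.2)
    (hy : (l.1 - l'.1) * y = l'.2 - l.2) : x = y := by
  have h4 : l.1 - l'.1 ≠ 0 := by linarith
  exact mul_left_cancel₀ h4 (hx.trans hy.symm)

theorem p_XPR (hC : Stmt_CDJ) : Stmt_XPR := by
  intro P l l' hP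
  refine ⟨?_, ?_, ?_⟩
  · rw [Finset.card_le_one]
    intro z hz w hw
    obtain ⟨hl, z1, z2, -⟩ := XPR_mem hz
    obtain ⟨-, w1, w2, -⟩ := XPR_mem hw
    obtain ⟨x, a1, a2, a3, a4, a5⟩ := XPR_x hC hP hz
    obtain ⟨y, b1, b2, b3, b4, b5⟩ := XPR_x hC hP hw
    have hxy := XPR_eq hl a5 b5
    subst hxy
    refine Prod.ext ?_ ?_
    · exact (hC P l hP z.1 z1).2.2 w.1 w1 x a1 a2 b1 b2
    · exact (hC P l' hP z.2 z2).2.2 w.2 w2 x a3 a4 b3 b4
  · unfold Xs
    rw [if_neg (lt_irrefl _)]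
  · intro z hz
    obtain ⟨hl, z1, z2, -⟩ := XPR_mem hz
    obtain ⟨x, a1, a2, a3, a4, a5⟩ := XPR_x hC hP hz
    obtain ⟨c1, c2, c3, c4, c5⟩ := XPR_cs z1
    obtain ⟨d1, d2, d3, d4, d5⟩ := XPR_cs z2
    have n12 : z.1.1 ≠ z.1.2 := fun h => by
      rw [h] at c5
      exact lt_irrefl _ c5
    have n34 : z.2.1 ≠ z.2.2 := fun h => by
      rw [h] at d5
      exact lt_irrefl _ d5
    have n13 : z.1.1 ≠ z.2.1 := fun h => by
      have := XPR_on hl a5 c3 (h ▸ d3)
      linarith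
    have n14 : z.1.1 ≠ z.2.2 := fun h => by
      have := XPR_on hl a5 c3 (h ▸ d4)
      linarith
    have n23 : z.1.2 ≠ z.2.1 := fun h => by
      have := XPR_on hl a5 c4 (h ▸ d3)
      linarith
    have n24 : z.1.2 ≠ z.2.2 := fun h => by
      have := XPR_on hl a5 c4 (h ▸ d4)
      linarith
    refine ⟨?_, ?_⟩
    · intro p hp
      unfold s4 at hp
      simp only [Finset.mem_insert, Finset.mem_singleton] at hp
      rcases hp with rfl | rfl | rfl | rfl
      · exact c1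
      · exact c2
      · exact d1
      · exact d2
    · unfold s4
      rw [Finset.card_insert_of_notMem, Finset.card_insert_of_notMem,
        Finset.card_insert_of_notMem, Finset.card_singleton]
      · simpa using n34
      · simp only [Finset.mem_insert, Finset.mem_singleton, not_or]
        exact ⟨n23, n24⟩
      · simp only [Finset.mem_insert, Finset.mem_singleton, not_or]
        exact ⟨n12, n13, n14⟩

end Pool.LLN
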