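import Pool.Agent.Work.MP_ef7f46_ll.B_LMX
import Pool.Agent.Work.MP_ef7f46_ll.B_TRI
import Pool.Agent.Work.MP_ef7f46_ll.B_CS0
import Pool.Agent.Work.MP_ef7f46_ll.B_CS1
import Pool.Agent.Work.MP_ef7f46_ll.B_CS2
import Pool.Agent.Work.MP_ef7f46_ll.B_PLN
import Pool.Agent.Work.MP_ef7f46_ll.B_XNG
import Pool.Agent.Work.MP_ef7f46_ll.B_CON
import Pool.Agent.Work.MP_ef7f46_ll.B_CDJ
import Pool.Agent.Work.MP_ef7f46_ll.B_XPR
import Pool.Agent.Work.MP_ef7f46_ll.B_GEO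
import Pool.Agent.Work.MP_ef7f46_ll.B_EXP
import Pool.Agent.Work.MP_ef7f46_ll.B_DX1
import Pool.Agent.Work.MP_ef7f46_ll.B_DX2
import Pool.Agent.Work.MP_ef7f46_ll.B_WST
import Pool.Agent.Work.MP_ef7f46_ll.B_SHR
import Pool.Agent.Work.MP_ef7f46_ll.B_KAP
import Pool.Agent.Work.MP_ef7f46_ll.B_INC
import Pool.Agent.Work.MP_ef7f46_ll.B_GRD
import Pool.Agent.Work.MP_ef7f46_ll.B_RLF
import Pool.Agent.Work.MP_ef7f46_ll.B_RRT
import Pool.Agent.Work.MP_ef7f46_ll.B_RIN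
import Pool.Agent.Work.MP_ef7f46_ll.B_ROT
import Pool.Agent.Work.MP_ef7f46_ll.B_RTT
import Pool.Agent.Work.MP_ef7f46_ll.B_LTU
import Pool.Agent.Work.MP_ef7f46_ll.B_GEN

/-!
# THEOREM LL (MP_ef7f46_co, light lines): all blocks together
-/

set_option autoImplicit false
open Classical
open EpsNet.Elem (lineThrough spannedLines IsEpsNet)

namespace Pool.LLN

theorem all_PLN : Stmt_PLN := p_PLN p_LMX p_TRI (p_CS0 p_TRI) p_CS1 p_CS2

theorem all_XNG : Stmt_XNG := p_XNG all_PLN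

theorem all_GEO : Stmt_GEO := p_GEO all_XNG p_CDJ

theorem all_WST : Stmt_WST :=
  p_WST p_CON (p_XPR p_CDJ) all_GEO (p_DX1 p_EXP) (p_DX2 p_EXP)

theorem all_INC : Stmt_INC := p_INC all_WST p_SHR p_KAP

theorem all_RTT : Stmt_RTT := p_RTT (p_ROT (p_RIN p_RLF p_RRT)) p_SHR p_KAP

theorem all_LLH : Stmt_LLH := GEN_final all_RTT all_INC p_GRD p_LTU

end Pool.LLN
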