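import Pool.Agent.Work.MP_ef7f46_ll.Interface

/-!
# Block ASY (helper1): calculus
-/

set_option autoImplicit false
open Classical
open EpsNet.Elem (lineThrough spannedLines IsEpsNet)

namespace Pool.LLN

theorem p_ASY : Stmt_ASY := by
  intro ρ h
  have ht : Filter.Tendsto (fun ε : ℝ => Real.log (1 / ε)) (nhdsWithin (0 : ℝ) (Set.Ioi 0))
      Filter.atTop := by
    have h1 : (fun ε : ℝ => Real.log (1 / ε)) = fun ε => -Real.log ε := by
      funext ε
      rw [one_div, Real.log_inv]
    rw [h1]
    exact Filter.tendsto_neg_atBot_atTop.comp Real.tendsto_log_nhdsGT_zero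
  have h20 : Asymptotics.IsLittleO (nhdsWithin (0 : ℝ) (Set.Ioi 0)) (fun _ : ℝ => (20 : ℝ))
      (fun ε : ℝ => Real.log (1 / ε)) := by
    rw [Asymptotics.isLittleO_const_left]
    right
    exact tendsto_norm_atTop_atTop.comp ht
  exact (Asymptotics.isBigO_refl (fun ε : ℝ => 1 / ε) _).mul_isLittleO (h.add h20)

end Pool.LLN
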