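import Pool.Agent.Work.MP_ef7f46_ll.Interface

/-!
# Block GEO: crossings in terms of lines
-/

set_option autoImplicit false
open Classical
open EpsNet.Elem (lineThrough spannedLines IsEpsNet)

namespace Pool.LLN

lemma GEO_mem_Cs {P : Finset Pt} {l : Ln} {e : Pt × Pt} :
    e ∈ Cs P l ↔ (e.1 ∈ P ∧ e.2 ∈ P) ∧ (On l e.1 ∧ On l e.2 ∧ e.1.1 < e.2.1 ∧
      ∀ c ∈ P, On l c → ¬ (e.1.1 < c.1 ∧ c.1 < e.2.1)) := by
  unfold Cs
  rw [Finset.mem_filter, Finset.mem_product]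

lemma GEO_s2 {T : Finset Pt} {e : Pt × Pt} : s2 e ⊆ T ↔ e.1 ∈ T ∧ e.2 ∈ T := by
  unfold s2
  rw [Finset.insert_subset_iff, Finset.singleton_subset_iff]

/-- Block GEO. -/
theorem p_GEO (hXNG : Stmt_XNG) (hCDJ : Stmt_CDJ) : Stmt_GEO := by
  intro P hP T U hT
  set E : Finset (Pt × Pt) := U.biUnion (fun l => (Cs P l).filter (fun e => s2 e ⊆ T)) with hE
  have memE : ∀ e, e ∈ E ↔ ∃ l ∈ U, e ∈ Cs P l ∧ s2 e ⊆ T := by
    intro e
    rw [hE, Finset.mem_biUnion]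
    simp only [Finset.mem_filter]
  have hcard : E.card = ∑ l ∈ U, ((Cs P l).filter (fun e => s2 e ⊆ T)).card := by
    rw [hE, Finset.card_biUnion]
    intro l _ l' _ hne
    refine Finset.disjoint_left.2 ?_
    intro e h1 h2
    exact hne ((hCDJ P l hP e (Finset.mem_filter.1 h1).1).2.1 l' (Finset.mem_filter.1 h2).1)
  have hGr : Gr T E := by
    refine ⟨fun p hp q hq h => hP p (hT hp) q (hT hq) h, ?_, ?_, ?_, ?_⟩
    · intro e he
      obtain ⟨l, _, _, h2⟩ := (memE e).1 he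
      exact (GEO_s2.1 h2).1
    · intro e he
      obtain ⟨l, _, _, h2⟩ := (memE e).1 he
      exact (GEO_s2.1 h2).2
    · intro e he
      obtain ⟨l, _, h1, _⟩ := (memE e).1 he
      exact (GEO_mem_Cs.1 h1).2.2.2.1
    · intro e he v hv hv1 hv2 heq
      obtain ⟨l, _, h1, _⟩ := (memE e).1 he
      have h3 := (hCDJ P l hP e h1).1.2 v.1
      rw [h3] at heq
      exact (GEO_mem_Cs.1 h1).2.2.2.2 v (hT hv) heq ⟨hv1, hv2⟩
  have hX := hXNG T E hGr
  rw [← hcard]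
  refine hX.trans (Nat.add_le_add_left ?_ _)
  have hsub : (E ×ˢ E).filter (fun z => sl z.2.1 z.2.2 < sl z.1.1 z.1.2 ∧ Meet z.1 z.2) ⊆
      (U ×ˢ U).biUnion (fun y => (Xs P y.1 y.2).filter (fun z => s4 z ⊆ T)) := by
    intro z hz
    rw [Finset.mem_filter, Finset.mem_product] at hz
    obtain ⟨⟨h1, h2⟩, h3, h4⟩ := hz
    obtain ⟨l, hl, hl1, hl2⟩ := (memE _).1 h1
    obtain ⟨l', hl', hl1', hl2'⟩ := (memE _).1 h2
    rw [(hCDJ P l hP _ hl1).1.1, (hCDJ P l' hP _ hl1').1.1] at h3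
    rw [Finset.mem_biUnion]
    refine ⟨(l, l'), Finset.mem_product.2 ⟨hl, hl'⟩, ?_⟩
    rw [Finset.mem_filter]
    constructor
    · show z ∈ Xs P l l'
      unfold Xs
      rw [if_pos h3, Finset.mem_filter, Finset.mem_product]
      exact ⟨⟨hl1, hl1'⟩, h4⟩
    · unfold s4
      rw [Finset.insert_subset_iff, Finset.insert_subset_iff, Finset.insert_subset_iff,
        Finset.singleton_subset_iff]
      exact ⟨(GEO_s2.1 hl2).1, (GEO_s2.1 hl2).2, (GEO_s2.1 hl2').1, (GEO_s2.1 hl2').2⟩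
  refine (Finset.card_le_card hsub).trans (Finset.card_biUnion_le.trans ?_)
  rw [Finset.sum_product]

end Pool.LLN
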