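import Pool.Agent.Work.MP_ef7f46_ll.Interface

/-!
# Block LMX of THEOREM LL: the leftmost vertex of the wedge
-/

set_option autoImplicit false
open Classical
open EpsNet.Elem (lineThrough spannedLines IsEpsNet)

namespace Pool.LLN

theorem p_LMX : Stmt_LMX := by
  intro T E a b c hG hN
  obtain ⟨h1, _, h3, _⟩ := hN
  have hb : b ∈ T.filter (fun v => a.1 < v.1 ∧ sl a b ≤ sl a v ∧ sl a v ≤ sl a c) :=
    Finset.mem_filter.2 ⟨hG.right _ h1, hG.lt _ h1, le_rfl, h3.le⟩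
  obtain ⟨d, hd, hmin⟩ := Finset.exists_min_image
    (T.filter (fun v => a.1 < v.1 ∧ sl a b ≤ sl a v ∧ sl a v ≤ sl a c)) (fun v => v.1) ⟨b, hb⟩
  obtain ⟨hdT, hd1, hd2, hd3⟩ := Finset.mem_filter.1 hd
  exact ⟨d, hdT, hd1, hd2, hd3, fun v hv a1 a2 a3 =>
    hmin v (Finset.mem_filter.2 ⟨hv, a1, a2, a3⟩)⟩

end Pool.LLN
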