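import Pool.Agent.Work.MP_ef7f46_ll.Interface

/-!
# THEOREM LL (MP_ef7f46_co, light lines): block PR1
-/

set_option autoImplicit false
open Classical
open EpsNet.Elem (lineThrough spannedLines IsEpsNet)

namespace Pool.LLN

theorem PR1_log : Real.log 218 ≤ 6 := by
  rw [Real.log_le_iff_le_exp (by norm_num)]
  have h : (2.7182818283 : ℝ) < Real.exp 1 := Real.exp_one_gt_d9
  have h2 : Real.exp 6 = Real.exp 1 ^ 6 := by
    rw [← Real.exp_nat_mul]
    norm_num
  rw [h2]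
  calc (218 : ℝ) ≤ 2.7 ^ 6 := by norm_num
    _ ≤ Real.exp 1 ^ 6 := by
      gcongr
      linarith

/-- the numerical part -/
theorem PR1_num (h ε R W B S : ℝ) (h0 : 0 ≤ h) (he : 0 < ε) (hR : 1 ≤ R) (hW : 0 < W)
    (hB : 0 < B) (hB2 : B ≤ R * ε ^ 2 * W) (hS0 : 0 ≤ S) (hS : S ≤ W / B)
    (hm : h * (ε * W / B) ≤ S + 4 * h / (12 * B / (ε * W)) + (12 * B / (ε * W)) ^ 2 * S ^ 2) :
    h ≤ 218 * R / ε := by
  have h1 : 4 * h / (12 * B / (ε * W)) = h * (ε * W / B) / 3 := by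
    field_simp
    ring
  have h2 : (12 * B / (ε * W)) ^ 2 * S ^ 2 ≤ 144 / ε ^ 2 := by
    have h3 : S ^ 2 ≤ (W / B) ^ 2 := by gcongr
    calc (12 * B / (ε * W)) ^ 2 * S ^ 2 ≤ (12 * B / (ε * W)) ^ 2 * (W / B) ^ 2 := by gcongr
      _ = 144 / ε ^ 2 := by
        field_simp
        ring
  have h4 : h * (ε * W / B) * (2 / 3) ≤ W / B + 144 / ε ^ 2 := by
    rw [h1] at hm
    linarith
  have h5 : h * ε * (2 / 3) ≤ 1 + 144 * R := by
    have h6 : h * ε * (2 / 3) = (h * (ε * W / B) * (2 / 3)) * (B / W) := by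
      field_simp
    have h7 : (W / B + 144 / ε ^ 2) * (B / W) = 1 + 144 / ε ^ 2 * (B / W) := by
      field_simp
    have h8 : B / W ≤ R * ε ^ 2 := by
      rw [div_le_iff₀ hW]
      exact hB2
    have h9 : 144 / ε ^ 2 * (B / W) ≤ 144 / ε ^ 2 * (R * ε ^ 2) := by gcongr
    have h10 : 144 / ε ^ 2 * (R * ε ^ 2) = 144 * R := by
      field_simp
    have h11 : (h * (ε * W / B) * (2 / 3)) * (B / W) ≤ (W / B + 144 / ε ^ 2) * (B / W) := by
      gcongr
    rw [h6]
    linarith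
  rw [le_div_iff₀ he]
  linarith

/-- **PR1** -/
theorem p_PR1 (hINC : Stmt_INC) (hGRD : Stmt_GRD) : Stmt_PR1 := by
  intro P w hP hw ε R he he1 hR
  set L := spannedLines P with hL
  set W := tw P w with hWdef
  have hWs : W = ∑ l ∈ L, w l := rfl
  -- W is positive
  have hne : L.Nonempty := by
    obtain ⟨a, ha, b, hb, hab⟩ := Finset.one_lt_card.1 (by omega : 1 < P.card)
    refine ⟨lineThrough a b, ?_⟩
    rw [hL, spannedLines, Finset.mem_image]
    exact ⟨(a, b), Finset.mem_offDiag.2 ⟨ha, hb, hab⟩, rfl⟩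
  have hW : 0 < W := by
    rw [hWs]
    exact Finset.sum_pos hw hne
  have hRW : 0 < R * ε ^ 2 * W := by positivity
  have hEW : 0 < ε * W / 12 := by positivity
  set B := min (ε * W / 12) (R * ε ^ 2 * W) with hBdef
  have hB : 0 < B := lt_min hEW hRW
  have hB1 : B ≤ ε * W / 12 := min_le_left _ _
  have hB2 : B ≤ R * ε ^ 2 * W := min_le_right _ _
  set N₁ := L.filter (fun l => w l ≤ R * ε ^ 2 * W ∧ ε * W / 12 < w l) with hN₁
  set L' := L.filter (fun l => w l ≤ B) with hL'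
  have hL'L : L' ⊆ L := Finset.filter_subset _ _
  have hw0 : ∀ l ∈ L, 0 ≤ w l := fun l hl => (hw l hl).le
  -- the size of N₁
  have hN₁c : (N₁.card : ℝ) ≤ 12 / ε := by
    have h1 : (N₁.card : ℝ) * (ε * W / 12) ≤ ∑ l ∈ N₁, w l := by
      rw [← nsmul_eq_mul]
      refine Finset.card_nsmul_le_sum _ _ _ fun l hl => ?_
      exact (Finset.mem_filter.1 hl).2.2.le
    have h2 : ∑ l ∈ N₁, w l ≤ W := by
      rw [hWs]
      exact Finset.sum_le_sum_of_subset_of_nonneg (Finset.filter_subset _ _)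
        fun l hl _ => hw0 l hl
    have h3 : (N₁.card : ℝ) * (ε * W / 12) ≤ W := h1.trans h2
    rw [le_div_iff₀ he]
    have h4 : (N₁.card : ℝ) * ε * W ≤ 12 * W := by linarith
    exact le_of_mul_le_mul_right h4 hW
  -- the points H
  set H := P.filter (fun p => ε * W ≤
    (∑ l ∈ L.filter (fun l => p ∈ l ∧ w l ≤ R * ε ^ 2 * W), w l) ∧ ∀ l ∈ N₁, p ∉ l) with hH
  have hHL : ∀ p ∈ H, ε * W ≤ ∑ l ∈ L'.filter (fun l => p ∈ l), w l := by
    intro p hp
    obtain ⟨-, h1, h2⟩ := Finset.mem_filter.1 hp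
    refine h1.trans ?_
    refine Finset.sum_le_sum_of_subset_of_nonneg ?_ fun l hl _ => ?_
    · intro l hl
      obtain ⟨hlL, hpl, hwl⟩ := Finset.mem_filter.1 hl
      refine Finset.mem_filter.2 ⟨Finset.mem_filter.2 ⟨hlL, ?_⟩, hpl⟩
      refine le_min ?_ hwl
      by_contra hc
      exact h2 l (Finset.mem_filter.2 ⟨hlL, hwl, not_le.1 hc⟩) hpl
    · exact hw0 l (hL'L (Finset.mem_filter.1 hl).1)
  -- the double counting
  have hdc : ∑ l ∈ L', w l / B * ((H.filter (fun p => p ∈ l)).card : ℝ) =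
      ∑ p ∈ H, ∑ l ∈ L'.filter (fun l => p ∈ l), w l / B := by
    have h1 : ∀ l ∈ L', w l / B * ((H.filter (fun p => p ∈ l)).card : ℝ) =
        ∑ p ∈ H, if p ∈ l then w l / B else 0 := by
      intro l _
      rw [← Finset.sum_filter, Finset.sum_const, nsmul_eq_mul, mul_comm]
    rw [Finset.sum_congr rfl h1, Finset.sum_comm]
    refine Finset.sum_congr rfl fun p _ => ?_
    exact (Finset.sum_filter (fun l => p ∈ l) (fun l => w l / B)).symm
  have hlow : (H.card : ℝ) * (ε * W / B) ≤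
      ∑ p ∈ H, ∑ l ∈ L'.filter (fun l => p ∈ l), w l / B := by
    rw [← nsmul_eq_mul]
    refine Finset.card_nsmul_le_sum _ _ _ fun p hp => ?_
    rw [← Finset.sum_div]
    exact div_le_div_of_nonneg_right (hHL p hp) hB.le
  -- the incidence bound
  set S := ∑ l ∈ L', w l / B with hS
  have hS0 : 0 ≤ S := Finset.sum_nonneg fun l hl => div_nonneg (hw0 l (hL'L hl)) hB.le
  have hSle : S ≤ W / B := by
    rw [hS, ← Finset.sum_div]
    refine div_le_div_of_nonneg_right ?_ hB.le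
    rw [hWs]
    exact Finset.sum_le_sum_of_subset_of_nonneg hL'L fun l hl _ => hw0 l hl
  have hq0 : 0 < 12 * B / (ε * W) := by positivity
  have hq1 : 12 * B / (ε * W) ≤ 1 := by
    rw [div_le_one (by positivity)]
    linarith
  have hinc := hINC P H L' (fun l => w l / B) (12 * B / (ε * W)) (Finset.filter_subset _ _) hL'L
    (fun l hl => ⟨div_nonneg (hw0 l (hL'L hl)) hB.le,
      (div_le_one hB).2 (Finset.mem_filter.1 hl).2⟩) hq0 hq1
  have hsub : ∑ l ∈ L', w l / B * (((H.filter (fun p => p ∈ l)).card : ℝ) - 1) =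
      ∑ l ∈ L', w l / B * ((H.filter (fun p => p ∈ l)).card : ℝ) - S := by
    rw [hS, ← Finset.sum_sub_distrib]
    refine Finset.sum_congr rfl fun l _ => ?_
    ring
  have hHc : (H.card : ℝ) ≤ 218 * R / ε := by
    refine PR1_num (H.card : ℝ) ε R W B S (Nat.cast_nonneg _) he hR hW hB hB2 hS0 hSle ?_
    have h2 : ∑ l ∈ L', w l / B * (((H.filter (fun p => p ∈ l)).card : ℝ) - 1) ≤
        4 * (H.card : ℝ) / (12 * B / (ε * W)) + (12 * B / (ε * W)) ^ 2 * S ^ 2 := hinc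
    rw [hsub, hdc] at h2
    linarith
  -- the greedy cover
  obtain ⟨N₂, hN₂L, hN₂c, hN₂⟩ := hGRD Pt (Set Pt) H L' (fun p l => p ∈ l) w ε W (218 * R)
    (fun l hl => hw0 l (hL'L hl)) hW
    (by
      rw [hWs]
      exact Finset.sum_le_sum_of_subset_of_nonneg hL'L fun l hl _ => hw0 l hl)
    he he1 hHL (by linarith) hHc
  refine ⟨N₁ ∪ N₂, ?_, ?_, ?_⟩
  · exact Finset.union_subset (Finset.filter_subset _ _) (hN₂L.trans hL'L)
  · have h1 : ((N₁ ∪ N₂).card : ℝ) ≤ (N₁.card : ℝ) + N₂.card := by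
      exact_mod_cast Finset.card_union_le _ _
    have h2 : Real.log (218 * R) = Real.log 218 + Real.log R :=
      Real.log_mul (by norm_num) (by linarith)
    have h3 : 1 / ε * (Real.log (218 * R) + 2) ≤ 1 / ε * (Real.log R + 8) := by
      have h4 : Real.log (218 * R) + 2 ≤ Real.log R + 8 := by
        rw [h2]
        linarith [PR1_log]
      have h5 : 0 ≤ 1 / ε := by positivity
      exact mul_le_mul_of_nonneg_left h4 h5
    have h6 : 12 / ε + 1 / ε * (Real.log R + 8) = 1 / ε * (Real.log R + 20) := by ring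
    linarith
  · intro p hp hpl
    by_cases hc : ∃ l ∈ N₁, p ∈ l
    · obtain ⟨l, hl, hpl⟩ := hc
      exact ⟨l, Finset.mem_union_left _ hl, hpl⟩
    · have hpH : p ∈ H := by
        refine Finset.mem_filter.2 ⟨hp, hpl, fun l hl hpl' => hc ⟨l, hl, hpl'⟩⟩
      obtain ⟨l, hl, hpl'⟩ := hN₂ p hpH
      exact ⟨l, Finset.mem_union_right _ hl, hpl'⟩

end Pool.LLN
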