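import Pool.Agent.Work.MP_ef7f46_ll.Interface

/-!
# THEOREM LL (MP_ef7f46_co), block PR2
-/

set_option autoImplicit false
open Classical
open EpsNet.Elem (lineThrough spannedLines IsEpsNet)

namespace Pool.LLN

theorem PR2_mem_left (u v : Pt) : u ∈ lineThrough u v := by
  show (u.1 - u.1) * (v.2 - u.2) = (u.2 - u.2) * (v.1 - u.1)
  ring

theorem PR2_mem_right (u v : Pt) : v ∈ lineThrough u v := by
  show (v.1 - u.1) * (v.2 - u.2) = (v.2 - u.2) * (v.1 - u.1)
  ring

theorem PR2_span {P : Finset Pt} {u v : Pt} (hu : u ∈ P) (hv : v ∈ P) (h : u ≠ v) :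
    lineThrough u v ∈ spannedLines P :=
  Finset.mem_image.2 ⟨(u, v), Finset.mem_offDiag.2 ⟨hu, hv, h⟩, rfl⟩

theorem PR2_exists {P : Finset Pt} {l : Set Pt} (h : l ∈ spannedLines P) :
    ∃ u ∈ P, ∃ v ∈ P, u ≠ v ∧ lineThrough u v = l := by
  obtain ⟨⟨u, v⟩, h1, h2⟩ := Finset.mem_image.1 h
  obtain ⟨h3, h4, h5⟩ := Finset.mem_offDiag.1 h1
  exact ⟨u, h3, v, h4, h5, h2⟩

theorem PR2_mono {P H : Finset Pt} (h : H ⊆ P) : spannedLines H ⊆ spannedLines P := by
  intro l hl
  obtain ⟨u, hu, v, hv, hne, rfl⟩ := PR2_exists hl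
  exact PR2_span (h hu) (h hv) hne

/-- the number of heavy points -/
theorem PR2_card (hRTT : Stmt_RTT) (hLTU : Stmt_LTU) (P : Finset Pt) (w : Set Pt → ℝ)
    (hw : ∀ l ∈ spannedLines P, 0 < w l) (ε R : ℝ) (hε : 0 < ε) (hR1 : 1 ≤ R)
    (hW : 0 < tw P w)
    (hR : ∀ l ∈ spannedLines (heavy ε P w),
      w l * ((spannedLines (heavy ε P w)).card : ℝ) ≤ R * tw P w)
    (hM : 2 ≤ (spannedLines (heavy ε P w)).card) :
    ((heavy ε P w).card : ℝ) ≤ 7 * R / ε := by
  have hmem : ∀ p ∈ heavy ε P w, ε * tw P w ≤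
      ∑ l ∈ (spannedLines P).filter (fun l => p ∈ l), w l := fun p hp =>
    (Finset.mem_filter.1 hp).2
  have hHP : heavy ε P w ⊆ P := Finset.filter_subset _ _
  generalize heavy ε P w = H at hmem hHP hM hR ⊢
  have hsub : spannedLines H ⊆ spannedLines P := PR2_mono hHP
  have h1 : (H.card : ℝ) * (ε * tw P w) ≤
      ∑ l ∈ spannedLines P, w l * ((H.filter (fun p => p ∈ l)).card : ℝ) := by
    have h2 : ∑ _p ∈ H, (ε * tw P w) ≤
        ∑ p ∈ H, ∑ l ∈ (spannedLines P).filter (fun l => p ∈ l), w l :=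
      Finset.sum_le_sum hmem
    rw [Finset.sum_const, nsmul_eq_mul] at h2
    refine h2.trans (le_of_eq ?_)
    have h3 : ∀ p ∈ H, ∑ l ∈ (spannedLines P).filter (fun l => p ∈ l), w l =
        ∑ l ∈ spannedLines P, if p ∈ l then w l else 0 := fun p _ => Finset.sum_filter _ _
    rw [Finset.sum_congr rfl h3, Finset.sum_comm]
    refine Finset.sum_congr rfl fun l _ => ?_
    rw [← Finset.sum_filter, Finset.sum_const, nsmul_eq_mul, mul_comm]
  have h4 : ∀ l ∈ spannedLines P, w l * ((H.filter (fun p => p ∈ l)).card : ℝ) ≤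
      w l + (if l ∈ spannedLines H then
        w l * ((H.filter (fun p => p ∈ l)).card : ℝ) else 0) := by
    intro l hl
    split_ifs with h
    · have := hw l hl
      linarith
    · have hc : (H.filter (fun p => p ∈ l)).card ≤ 1 := by
        refine Finset.card_le_one.2 fun u hu v hv => ?_
        by_contra hne
        obtain ⟨hu1, hu2⟩ := Finset.mem_filter.1 hu
        obtain ⟨hv1, hv2⟩ := Finset.mem_filter.1 hv
        obtain ⟨p, _, q, _, hpq, rfl⟩ := PR2_exists hl
        apply h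
        rw [← hLTU p q u v hpq hne hu2 hv2]
        exact PR2_span hu1 hv1 hne
      have hc' : ((H.filter (fun p => p ∈ l)).card : ℝ) ≤ 1 := by exact_mod_cast hc
      have hwl := hw l hl
      have := mul_le_mul_of_nonneg_left hc' hwl.le
      linarith
  have h5 : ∑ l ∈ spannedLines P, w l * ((H.filter (fun p => p ∈ l)).card : ℝ) ≤
      tw P w + ∑ l ∈ spannedLines H, w l * ((H.filter (fun p => p ∈ l)).card : ℝ) := by
    refine (Finset.sum_le_sum h4).trans (le_of_eq ?_)
    rw [Finset.sum_add_distrib, ← Finset.sum_filter]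
    congr 1
    refine Finset.sum_congr ?_ fun _ _ => rfl
    ext l
    rw [Finset.mem_filter]
    exact ⟨fun h => h.2, fun h => ⟨hsub h, h⟩⟩
  have hM0 : (0 : ℝ) < ((spannedLines H).card : ℝ) := by
    have : 0 < (spannedLines H).card := by omega
    exact_mod_cast this
  have h6 : ∑ l ∈ spannedLines H, w l * ((H.filter (fun p => p ∈ l)).card : ℝ) ≤
      ∑ l ∈ spannedLines H, (R * tw P w / ((spannedLines H).card : ℝ)) *
        ((H.filter (fun p => p ∈ l)).card : ℝ) :=
    Finset.sum_le_sum fun l hl =>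
      mul_le_mul_of_nonneg_right ((le_div_iff₀ hM0).2 (hR l hl)) (Nat.cast_nonneg _)
  have h7 : ∑ l ∈ spannedLines H, ((H.filter (fun p => p ∈ l)).card : ℝ) ≤
      6 * ((spannedLines H).card : ℝ) := by
    exact_mod_cast hRTT H hM
  rw [← Finset.mul_sum] at h6
  have hc0 : 0 ≤ R * tw P w / ((spannedLines H).card : ℝ) := by positivity
  have h8 := mul_le_mul_of_nonneg_left h7 hc0
  have h9 : (R * tw P w / ((spannedLines H).card : ℝ)) * (6 * ((spannedLines H).card : ℝ)) =
      6 * (R * tw P w) := by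
    field_simp
  have h10 : tw P w ≤ R * tw P w := le_mul_of_one_le_left hW.le hR1
  rw [le_div_iff₀ hε]
  have h11 : ((H.card : ℝ) * ε) * tw P w ≤ (7 * R) * tw P w := by
    have e : ((H.card : ℝ) * ε) * tw P w = (H.card : ℝ) * (ε * tw P w) := by ring
    rw [e]
    linarith
  exact le_of_mul_le_mul_right h11 hW

theorem PR2_log : Real.log 7 ≤ 2 := by
  rw [Real.log_le_iff_le_exp (by norm_num)]
  have h1 := Real.exp_one_gt_d9
  have h2 : Real.exp 2 = Real.exp 1 * Real.exp 1 := by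
    rw [← Real.exp_add]
    norm_num
  rw [h2]
  nlinarith

theorem p_PR2 (hRTT : Stmt_RTT) (hGRD : Stmt_GRD) (hLTU : Stmt_LTU) : Stmt_PR2 := by
  intro P w hP hw ε R hε hε1 hR1 hR
  have hlog : 0 ≤ Real.log R := Real.log_nonneg hR1
  have hinv : 1 ≤ 1 / ε := (one_le_div hε).2 hε1
  have hbig : 1 ≤ 1 / ε * (Real.log R + 4) := by nlinarith
  obtain ⟨u, hu, v, hv, huv⟩ := Finset.one_lt_card.1 (lt_of_lt_of_le one_lt_two hP)
  have hne : (spannedLines P).Nonempty := ⟨_, PR2_span hu hv huv⟩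
  have hW : 0 < tw P w := Finset.sum_pos hw hne
  have hnet : ∀ N ⊆ spannedLines P, (∀ p ∈ heavy ε P w, ∃ l ∈ N, p ∈ l) →
      IsEpsNet ε P w N := fun N hN h =>
    ⟨hN, fun p hp hh => h p (Finset.mem_filter.2 ⟨hp, hh⟩)⟩
  have hmem : ∀ p ∈ heavy ε P w, ε * tw P w ≤
      ∑ l ∈ (spannedLines P).filter (fun l => p ∈ l), w l := fun p hp =>
    (Finset.mem_filter.1 hp).2
  have hHP : heavy ε P w ⊆ P := Finset.filter_subset _ _
  rcases Finset.eq_empty_or_nonempty (heavy ε P w) with hH | ⟨h₀, hh₀⟩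
  · refine ⟨∅, hnet ∅ (Finset.empty_subset _) ?_, ?_⟩
    · rw [hH]
      intro p hp
      exact absurd hp (Finset.notMem_empty p)
    · rw [Finset.card_empty, Nat.cast_zero]
      linarith
  by_cases hM : 2 ≤ (spannedLines (heavy ε P w)).card
  · have hc := PR2_card hRTT hLTU P w hw ε R hε hR1 hW hR hM
    obtain ⟨N, hN, hNc, hcov⟩ := hGRD Pt (Set Pt) (heavy ε P w) (spannedLines P)
      (fun p l => p ∈ l) w ε (tw P w) (7 * R) (fun l hl => (hw l hl).le) hW le_rfl hε hε1 hmem
      (by linarith) hc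
    refine ⟨N, hnet N hN hcov, hNc.trans ?_⟩
    have h7 : Real.log (7 * R) = Real.log 7 + Real.log R :=
      Real.log_mul (by norm_num) (by linarith)
    have h8 : Real.log (7 * R) + 2 ≤ Real.log R + 4 := by
      rw [h7]
      linarith [PR2_log]
    exact mul_le_mul_of_nonneg_left h8 (by linarith)
  · have hline : ∃ l ∈ spannedLines P, ∀ p ∈ heavy ε P w, p ∈ l := by
      by_cases h2 : ∃ u ∈ heavy ε P w, ∃ v ∈ heavy ε P w, u ≠ v
      · obtain ⟨u, hu, v, hv, huv⟩ := h2
        refine ⟨lineThrough u v, PR2_span (hHP hu) (hHP hv) huv, ?_⟩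
        intro p hp
        by_cases hup : u = p
        · rw [← hup]
          exact PR2_mem_left u v
        · have h3 : lineThrough u p = lineThrough u v :=
            Finset.card_le_one.1 (by omega) _ (PR2_span hu hp hup) _ (PR2_span hu hv huv)
          rw [← h3]
          exact PR2_mem_right u p
      · have h3 : ∀ p ∈ heavy ε P w, h₀ = p := by
          intro p hp
          by_contra h
          exact h2 ⟨h₀, hh₀, p, hp, h⟩
        have hpos : 0 < ∑ l ∈ (spannedLines P).filter (fun l => h₀ ∈ l), w l :=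
          lt_of_lt_of_le (mul_pos hε hW) (hmem h₀ hh₀)
        obtain ⟨l, hl, _⟩ := Finset.exists_ne_zero_of_sum_ne_zero hpos.ne'
        obtain ⟨hl1, hl2⟩ := Finset.mem_filter.1 hl
        exact ⟨l, hl1, fun p hp => by
          rw [← h3 p hp]
          exact hl2⟩
    obtain ⟨l, hl, hlp⟩ := hline
    refine ⟨{l}, hnet {l} (Finset.singleton_subset_iff.2 hl) fun p hp =>
      ⟨l, Finset.mem_singleton_self l, hlp p hp⟩, ?_⟩
    rw [Finset.card_singleton, Nat.cast_one]
    exact hbig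

end Pool.LLN
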