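import Pool.Agent.Work.MP_ef7f46_ll.Interface

set_option autoImplicit false
open Classical

namespace Pool.LLN

theorem RIN_line_eq {l l' : Ln} {p : Pt} (h : On l p) (h' : On l' p) (hs : l.1 = l'.1) :
    l = l' := by
  unfold On at h h'
  refine Prod.ext hs ?_
  rw [h, hs] at h'
  linarith

theorem RIN_NL_inj {P : Finset Pt} {p : Pt} {l₁ l₂ l' : Ln} (h1 : l₁ ∈ SLn P) (h2 : l₂ ∈ SLn P)
    (o1 : On l₁ p) (o2 : On l₂ p) (n1 : NL P p l₁ l') (n2 : NL P p l₂ l') : l₁ = l₂ := by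
  apply RIN_line_eq o1 o2
  obtain ⟨_, _, a1, a2⟩ := n1
  obtain ⟨_, _, b1, b2⟩ := n2
  rcases lt_trichotomy l₁.1 l₂.1 with h | h | h
  · have := a2 l₂ h2 o2 h
    linarith
  · exact h
  · have := b2 l₁ h1 o1 h
    linarith

theorem RIN_exists_NL {P : Finset Pt} {p : Pt} {l m : Ln} (hm : m ∈ SLn P) (om : On m p)
    (h : l.1 < m.1) : ∃ l', NL P p l l' := by
  obtain ⟨l', hl', hmin⟩ := Finset.exists_min_image
    ((SLn P).filter (fun m => On m p ∧ l.1 < m.1)) (fun m => m.1)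
    ⟨m, Finset.mem_filter.2 ⟨hm, om, h⟩⟩
  rw [Finset.mem_filter] at hl'
  exact ⟨l', hl'.1, hl'.2.1, hl'.2.2, fun m' h1 h2 h3 =>
    hmin m' (Finset.mem_filter.2 ⟨h1, h2, h3⟩)⟩

theorem p_RIN (hRLF : Stmt_RLF) (hRRT : Stmt_RRT) : Stmt_RIN := by
  intro P hP
  have hQ : ∀ z ∈ Qs P, z.1 ∈ P ∧ z.2 ∈ SLn P ∧ On z.2 z.1 := fun z hz => by
    unfold Qs at hz
    rw [Finset.mem_filter, Finset.mem_product] at hz
    exact ⟨hz.1.1, hz.1.2, hz.2⟩
  -- the four classes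
  let Q0 := (Qs P).filter (fun z => ∀ c ∈ P, On z.2 c → c.1 ≤ z.1.1)
  let r1 : (Pt × Ln) → Ln → Prop := fun z l' =>
    ∃ r, Sc P z.1 r z.2 ∧ NL P z.1 z.2 l' ∧ ∀ m, NL P r z.2 m → l'.1 ≤ m.1
  let Q1 := (Qs P).filter (fun z => ∃ l', r1 z l')
  let r2 : (Pt × Ln) → Ln → Prop := fun z l' =>
    ∃ r, Sc P z.1 r z.2 ∧ NL P r z.2 l' ∧ ∀ m, NL P z.1 z.2 m → l'.1 < m.1
  let Q2 := (Qs P).filter (fun z => ∃ l', r2 z l')
  let Q3 := (Qs P).filter (fun z => ¬ ∃ l', NL P z.1 z.2 l')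
  have hcover : Qs P ⊆ Q0 ∪ (Q1 ∪ (Q2 ∪ Q3)) := by
    intro z hz
    obtain ⟨hz1, hz2, hz3⟩ := hQ z hz
    simp only [Finset.mem_union]
    by_cases h0 : ∀ c ∈ P, On z.2 c → c.1 ≤ z.1.1
    · exact Or.inl (Finset.mem_filter.2 ⟨hz, h0⟩)
    · right
      push Not at h0
      obtain ⟨c, hc, hoc, hlt⟩ := h0
      -- the next point
      obtain ⟨r, hr, hmin⟩ := Finset.exists_min_image
        (P.filter (fun c => On z.2 c ∧ z.1.1 < c.1)) (fun c => c.1)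
        ⟨c, Finset.mem_filter.2 ⟨hc, hoc, hlt⟩⟩
      rw [Finset.mem_filter] at hr
      have hSc : Sc P z.1 r z.2 := ⟨hz1, hr.1, hz3, hr.2.1, hr.2.2, fun c' h1 h2 h3 =>
        hmin c' (Finset.mem_filter.2 ⟨h1, h2, h3⟩)⟩
      by_cases h3 : ∃ l', NL P z.1 z.2 l'
      · obtain ⟨l', hl'⟩ := h3
        by_cases h1 : ∀ m, NL P r z.2 m → l'.1 ≤ m.1
        · exact Or.inl (Finset.mem_filter.2 ⟨hz, l', r, hSc, hl', h1⟩)
        · right; left
          push Not at h1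
          obtain ⟨m, hm, hml⟩ := h1
          refine Finset.mem_filter.2 ⟨hz, m, r, hSc, hm, fun m' hm' => ?_⟩
          have := hl'.2.2.2 m' hm'.1 hm'.2.1 hm'.2.2.1
          linarith
      · exact Or.inr (Or.inr (Finset.mem_filter.2 ⟨hz, h3⟩))
  have c0 : Q0.card ≤ (SLn P).card := by
    refine Finset.card_le_card_of_injOn (fun z => z.2) (fun z hz => ?_) ?_
    · have hz' := (Finset.mem_filter.1 (Finset.mem_coe.1 hz)).1
      exact (hQ z hz').2.1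
    · intro z hz z' hz' heq
      obtain ⟨h1, h2⟩ := Finset.mem_filter.1 (Finset.mem_coe.1 hz)
      obtain ⟨h1', h2'⟩ := Finset.mem_filter.1 (Finset.mem_coe.1 hz')
      obtain ⟨a1, a2, a3⟩ := hQ z h1
      obtain ⟨b1, b2, b3⟩ := hQ z' h1'
      have heq' : z.2 = z'.2 := heq
      have e1 := h2 z'.1 b1 (heq' ▸ b3)
      have e2 := h2' z.1 a1 (heq' ▸ a3)
      exact Prod.ext (hP _ a1 _ b1 (le_antisymm e2 e1)) heq'
  have c1 : Q1.card ≤ (SLn P).card := by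
    refine Finset.card_le_card_of_forall_subsingleton r1 (fun z hz => ?_) (fun l' _ => ?_)
    · obtain ⟨_, l', hl'⟩ := Finset.mem_filter.1 hz
      obtain ⟨r, h1, h2, h3⟩ := hl'
      exact ⟨l', h2.1, r, h1, h2, h3⟩
    · rintro z ⟨hz, r, h1, h2, h3⟩ z' ⟨hz', r', h1', h2', h3'⟩
      have hz0 := (Finset.mem_filter.1 (Finset.mem_coe.1 hz)).1
      have hz0' := (Finset.mem_filter.1 (Finset.mem_coe.1 hz')).1
      obtain ⟨a1, a2, a3⟩ := hQ z hz0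
      obtain ⟨b1, b2, b3⟩ := hQ z' hz0'
      have e1 := hRLF P z.1 r z.2 l' hP h1 h2 h3 z'.1 b1 h2'.2.1
      have e2 := hRLF P z'.1 r' z'.2 l' hP h1' h2' h3' z.1 a1 h2.2.1
      have e3 : z.1 = z'.1 := hP _ a1 _ b1 (le_antisymm e1 e2)
      have e4 : z.2 = z'.2 := RIN_NL_inj a2 b2 a3 (e3 ▸ b3) h2 (e3 ▸ h2')
      exact Prod.ext e3 e4
  have c2 : Q2.card ≤ (SLn P).card := by
    refine Finset.card_le_card_of_forall_subsingleton r2 (fun z hz => ?_) (fun l' _ => ?_)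
    · obtain ⟨_, l', hl'⟩ := Finset.mem_filter.1 hz
      obtain ⟨r, h1, h2, h3⟩ := hl'
      exact ⟨l', h2.1, r, h1, h2, h3⟩
    · rintro z ⟨hz, r, h1, h2, h3⟩ z' ⟨hz', r', h1', h2', h3'⟩
      have hz0 := (Finset.mem_filter.1 (Finset.mem_coe.1 hz)).1
      have hz0' := (Finset.mem_filter.1 (Finset.mem_coe.1 hz')).1
      obtain ⟨a1, a2, a3⟩ := hQ z hz0
      obtain ⟨b1, b2, b3⟩ := hQ z' hz0'
      obtain ⟨s1, s2, s3, s4, s5, s6⟩ := h1
      obtain ⟨t1, t2, t3, t4, t5, t6⟩ := h1'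
      have e1 := hRRT P z.1 r z.2 l' hP ⟨s1, s2, s3, s4, s5, s6⟩ h2 h3 r' t2 h2'.2.1
      have e2 := hRRT P z'.1 r' z'.2 l' hP ⟨t1, t2, t3, t4, t5, t6⟩ h2' h3' r s2 h2.2.1
      have e3 : r = r' := hP _ s2 _ t2 (le_antisymm e2 e1)
      subst e3
      have e4 : z.2 = z'.2 := RIN_NL_inj a2 b2 s4 t4 h2 h2'
      have e5 : z.1.1 = z'.1.1 := by
        rcases lt_trichotomy z.1.1 z'.1.1 with h | h | h
        · have := s6 z'.1 b1 (e4 ▸ b3) h
          linarith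
        · exact h
        · have := t6 z.1 a1 (e4 ▸ a3) h
          linarith
      exact Prod.ext (hP _ a1 _ b1 e5) e4
  have c3 : Q3.card ≤ P.card := by
    refine Finset.card_le_card_of_injOn (fun z => z.1) (fun z hz => ?_) ?_
    · have hz' := (Finset.mem_filter.1 (Finset.mem_coe.1 hz)).1
      exact (hQ z hz').1
    · intro z hz z' hz' heq
      obtain ⟨h1, h2⟩ := Finset.mem_filter.1 (Finset.mem_coe.1 hz)
      obtain ⟨h1', h2'⟩ := Finset.mem_filter.1 (Finset.mem_coe.1 hz')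
      obtain ⟨a1, a2, a3⟩ := hQ z h1
      obtain ⟨b1, b2, b3⟩ := hQ z' h1'
      have heq' : z.1 = z'.1 := heq
      refine Prod.ext heq' (RIN_line_eq a3 (heq' ▸ b3) ?_)
      rcases lt_trichotomy z.2.1 z'.2.1 with h | h | h
      · exact absurd (RIN_exists_NL b2 (heq' ▸ b3) h) h2
      · exact h
      · exact absurd (RIN_exists_NL a2 (heq' ▸ a3) h) h2'
  have k1 := Finset.card_le_card hcover
  have k2 := Finset.card_union_le Q0 (Q1 ∪ (Q2 ∪ Q3))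
  have k3 := Finset.card_union_le Q1 (Q2 ∪ Q3)
  have k4 := Finset.card_union_le Q2 Q3
  omega

end Pool.LLN
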