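import Mathlib
import Pool.Agent.Work.MP_ef7f46_co_helper84.Elem

/-!
# THEOREM LL (MP_ef7f46_co, light lines): definitions

`lineThrough`, `spannedLines`, `IsEpsNet` are in `MP_ef7f46_co_helper84/Elem.lean`.
-/

set_option autoImplicit false
open Classical

namespace Pool.LLN

/-- Points of the plane. -/
abbrev Pt := ℝ × ℝ

/-- Non vertical lines: `(s, t)` is the line `y = s x + t`. -/
abbrev Ln := ℝ × ℝ

/-- The point `p` is on the line `l`. -/
def On (l : Ln) (p : Pt) : Prop := p.2 = l.1 * p.1 + l.2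

/-- The slope of the line `ab`. -/
noncomputable def sl (a b : Pt) : ℝ := (b.2 - a.2) / (b.1 - a.1)

/-- The height of the line `ab` at `x`. -/
noncomputable def ht (a b : Pt) (x : ℝ) : ℝ := a.2 + sl a b * (x - a.1)

/-- Distinct points of `T` have distinct first coordinates. -/
def Inj (T : Finset Pt) : Prop := ∀ p ∈ T, ∀ q ∈ T, p.1 = q.1 → p = q

/-- A straight line graph with vertices `T`: the edges are pairs `(a, b)`, `a` to the left of `b`,
and no vertex lies inside an edge. -/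
structure Gr (T : Finset Pt) (E : Finset (Pt × Pt)) : Prop where
  inj : Inj T
  left : ∀ e ∈ E, e.1 ∈ T
  right : ∀ e ∈ E, e.2 ∈ T
  lt : ∀ e ∈ E, e.1.1 < e.2.1
  free : ∀ e ∈ E, ∀ v ∈ T, e.1.1 < v.1 → v.1 < e.2.1 → v.2 ≠ ht e.1 e.2 v.1

/-- The edges `e`, `e'` meet at an interior point of both. -/
def Meet (e e' : Pt × Pt) : Prop :=
  ∃ x, e.1.1 < x ∧ x < e.2.1 ∧ e'.1.1 < x ∧ x < e'.2.1 ∧ ht e.1 e.2 x = ht e'.1 e'.2 x

/-- No two edges cross. -/
def Plane (E : Finset (Pt × Pt)) : Prop := ∀ e ∈ E, ∀ e' ∈ E, e ≠ e' → ¬ Meet e e'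

/-- `ab` and `ac` are consecutive right going edges at `a`, `ab` is the lower one. -/
def Nx (E : Finset (Pt × Pt)) (a b c : Pt) : Prop :=
  (a, b) ∈ E ∧ (a, c) ∈ E ∧ sl a b < sl a c ∧
    ∀ v, (a, v) ∈ E → ¬ (sl a b < sl a v ∧ sl a v < sl a c)

/-- `d` is the leftmost vertex in the closed wedge at `a` between the rays `ab` and `ac`. -/
def Lm (T : Finset Pt) (a b c d : Pt) : Prop :=
  d ∈ T ∧ a.1 < d.1 ∧ sl a b ≤ sl a d ∧ sl a d ≤ sl a c ∧
    ∀ v ∈ T, a.1 < v.1 → sl a b ≤ sl a v → sl a v ≤ sl a c → d.1 ≤ v.1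

/-- The points of `P` on the line `l`. -/
noncomputable def pl (P : Finset Pt) (l : Ln) : Finset Pt := P.filter (fun p => On l p)

/-- The pairs of consecutive points of `P` on the line `l`. -/
noncomputable def Cs (P : Finset Pt) (l : Ln) : Finset (Pt × Pt) :=
  (P ×ˢ P).filter (fun e => On l e.1 ∧ On l e.2 ∧ e.1.1 < e.2.1 ∧
    ∀ c ∈ P, On l c → ¬ (e.1.1 < c.1 ∧ c.1 < e.2.1))

/-- The crossing pairs of edges of the line `l` and of the line `l'` of smaller slope. -/
noncomputable def Xs (P : Finset Pt) (l l' : Ln) : Finset ((Pt × Pt) × (Pt × Pt)) :=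
  if l'.1 < l.1 then (Cs P l ×ˢ Cs P l').filter (fun z => Meet z.1 z.2) else ∅

/-- The two end points of an edge. -/
noncomputable def s2 (e : Pt × Pt) : Finset Pt := {e.1, e.2}

/-- The end points of two edges. -/
noncomputable def s4 (z : (Pt × Pt) × (Pt × Pt)) : Finset Pt := {z.1.1, z.1.2, z.2.1, z.2.2}

/-- The lines spanned by `P` (used for `P` with distinct first coordinates). -/
noncomputable def SLn (P : Finset Pt) : Finset Ln :=
  P.offDiag.image (fun z => (sl z.1 z.2, z.1.2 - sl z.1 z.2 * z.1.1))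

/-- The incident pairs (point of `P`, line spanned by `P`). -/
noncomputable def Qs (P : Finset Pt) : Finset (Pt × Ln) :=
  (P ×ˢ SLn P).filter (fun z => On z.2 z.1)

/-- `l'` is the spanned line through `p` of smallest slope larger than the slope of `l`. -/
def NL (P : Finset Pt) (p : Pt) (l l' : Ln) : Prop :=
  l' ∈ SLn P ∧ On l' p ∧ l.1 < l'.1 ∧ ∀ m ∈ SLn P, On m p → l.1 < m.1 → l'.1 ≤ m.1

/-- `r` is the next point of `P` to the right of `p` on the line `l`. -/
def Sc (P : Finset Pt) (p r : Pt) (l : Ln) : Prop :=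
  p ∈ P ∧ r ∈ P ∧ On l p ∧ On l r ∧ p.1 < r.1 ∧ ∀ c ∈ P, On l c → p.1 < c.1 → r.1 ≤ c.1

/-- The weight of the random subset `T` of `V` which contains `v` with probability `p v`. -/
noncomputable def mu {α : Type} (V : Finset α) (p : α → ℝ) (T : Finset α) : ℝ :=
  (∏ v ∈ T, p v) * ∏ v ∈ V \ T, (1 - p v)

/-- The total weight of the lines spanned by `P`. -/
noncomputable def tw (P : Finset Pt) (w : Set Pt → ℝ) : ℝ := ∑ l ∈ EpsNet.Elem.spannedLines P, w l

/-- The `ε`-heavy points: the spanned lines through `p` have total weight at least `ε * tw P w`. -/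
noncomputable def heavy (ε : ℝ) (P : Finset Pt) (w : Set Pt → ℝ) : Finset Pt :=
  P.filter (fun p => ε * tw P w ≤
    ∑ l ∈ (EpsNet.Elem.spannedLines P).filter (fun l => p ∈ l), w l)

end Pool.LLN
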