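import Pool.Agent.Work.MP_ef7f46_ll.Interface

/-!
# THEOREM LL (MP_ef7f46_co, light lines): assembly
-/

set_option autoImplicit false
open Classical
open EpsNet.Elem (lineThrough spannedLines IsEpsNet)

namespace Pool.LLN

/-- The statement of THEOREM LL. -/
def Stmt_LL : Prop :=
  (∀ (P : Finset Pt) (w : Set Pt → ℝ), 2 ≤ P.card → (∀ l ∈ spannedLines P, 0 < w l) →
    ∀ ε R : ℝ, 0 < ε → ε ≤ 1 → 1 ≤ R →
    (∃ N ⊆ spannedLines P, (N.card : ℝ) ≤ 1 / ε * (Real.log R + 20) ∧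
      ∀ p ∈ P, ε * tw P w ≤
        (∑ l ∈ (spannedLines P).filter (fun l => p ∈ l ∧ w l ≤ R * ε ^ 2 * tw P w), w l) →
        ∃ l ∈ N, p ∈ l) ∧
    ((∀ l ∈ spannedLines (heavy ε P w),
        w l * ((spannedLines (heavy ε P w)).card : ℝ) ≤ R * tw P w) →
      ∃ N, IsEpsNet ε P w N ∧ (N.card : ℝ) ≤ 1 / ε * (Real.log R + 4))) ∧
  ∀ ρ : ℝ → ℝ, (∀ ε, 1 ≤ ρ ε) →
    Asymptotics.IsLittleO (nhdsWithin (0 : ℝ) (Set.Ioi 0)) (fun ε => Real.log (ρ ε))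
      (fun ε : ℝ => Real.log (1 / ε)) →
    ∃ f : ℝ → ℝ,
      Asymptotics.IsLittleO (nhdsWithin (0 : ℝ) (Set.Ioi 0)) f
        (fun ε : ℝ => (1 / ε) * Real.log (1 / ε)) ∧
      ∀ ε : ℝ, 0 < ε → ε ≤ 1 → ∀ (P : Finset Pt) (w : Set Pt → ℝ), 2 ≤ P.card →
        (∀ l ∈ spannedLines P, 0 < w l) →
        ((∀ l ∈ spannedLines P, w l ≤ ρ ε * ε ^ 2 * tw P w) ∨
          ∀ l ∈ spannedLines (heavy ε P w),
            w l * ((spannedLines (heavy ε P w)).card : ℝ) ≤ ρ ε * tw P w) →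
        ∃ N, IsEpsNet ε P w N ∧ (N.card : ℝ) ≤ f ε

theorem final (hPR1 : Stmt_PR1) (hPR2 : Stmt_PR2) (hASY : Stmt_ASY) : Stmt_LL := by
  refine ⟨?_, ?_⟩
  · intro P w hP hw ε R h0 h1 hR
    exact ⟨hPR1 P w hP hw ε R h0 h1 hR, hPR2 P w hP hw ε R h0 h1 hR⟩
  · intro ρ hρ ho
    refine ⟨fun ε => 1 / ε * (Real.log (ρ ε) + 20), hASY ρ ho, ?_⟩
    intro ε h0 h1 P w hP hw hor
    rcases hor with h | h
    · obtain ⟨N, hN, hc, hcov⟩ := hPR1 P w hP hw ε (ρ ε) h0 h1 (hρ ε)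
      refine ⟨N, ⟨hN, ?_⟩, hc⟩
      intro p hp hh
      apply hcov p hp
      refine le_trans hh (le_of_eq ?_)
      apply Finset.sum_congr _ (fun _ _ => rfl)
      ext l
      simp only [Finset.mem_filter]
      constructor
      · rintro ⟨h2, h3⟩
        exact ⟨h2, h3, h l h2⟩
      · rintro ⟨h2, h3, -⟩
        exact ⟨h2, h3⟩
    · obtain ⟨N, hN, hc⟩ := hPR2 P w hP hw ε (ρ ε) h0 h1 (hρ ε) h
      refine ⟨N, hN, le_trans hc ?_⟩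
      have h2 : 0 ≤ 1 / ε := by positivity
      have h3 : Real.log (ρ ε) + 4 ≤ Real.log (ρ ε) + 20 := by linarith
      exact mul_le_mul_of_nonneg_left h3 h2

end Pool.LLN
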