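import Pool.Agent.Work.MP_ef7f46_ll.Interface

/-!
# THEOREM LL (MP_ef7f46_co, light lines): assembly, one statement
-/

set_option autoImplicit false
open Classical
open EpsNet.Elem (lineThrough spannedLines IsEpsNet)

namespace Pool.LLN

/-- PRG: the general form of PR2 (same proof), for a subset `H` of `P` and the lines with
`w l * (spannedLines H).card ≤ R * tw P w`. -/
def Stmt_PRG : Prop := ∀ (P H : Finset Pt) (w : Set Pt → ℝ), 2 ≤ P.card → H ⊆ P →
  (∀ l ∈ spannedLines P, 0 < w l) → ∀ ε R : ℝ, 0 < ε → ε ≤ 1 → 1 ≤ R →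
  (∀ p ∈ H, ε * tw P w ≤ ∑ l ∈ (spannedLines P).filter
    (fun l => p ∈ l ∧ w l * ((spannedLines H).card : ℝ) ≤ R * tw P w), w l) →
  ∃ N ⊆ spannedLines P, (N.card : ℝ) ≤ 1 / ε * (Real.log R + 4) ∧ ∀ p ∈ H, ∃ l ∈ N, p ∈ l

/-- The statement of THEOREM LL. -/
def Stmt_LLG : Prop := ∀ (P H : Finset Pt) (w : Set Pt → ℝ), 2 ≤ P.card → H ⊆ P →
  (∀ l ∈ spannedLines P, 0 < w l) → ∀ ε R : ℝ, 0 < ε → ε ≤ 1 → 1 ≤ R →
  (∀ p ∈ H, ε * (∑ l ∈ spannedLines P, w l) ≤
    ∑ l ∈ spannedLines P with p ∈ l ∧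
      w l ≤ R * max (ε ^ 2) (1 / ((spannedLines H).card : ℝ)) * (∑ l' ∈ spannedLines P, w l'), w l) →
  ∃ N ⊆ spannedLines P, (N.card : ℝ) ≤ 1 / ε * (Real.log R + 20) ∧ ∀ p ∈ H, ∃ l ∈ N, p ∈ l

theorem finalG (hPR1 : Stmt_PR1) (hPRG : Stmt_PRG) : Stmt_LLG := by
  intro P H w hP hH hw ε R h0 h1 hR hc
  by_cases hM : 1 / ((spannedLines H).card : ℝ) ≤ ε ^ 2
  · obtain ⟨N, hN, hcard, hcov⟩ := hPR1 P w hP hw ε R h0 h1 hR
    refine ⟨N, hN, hcard, ?_⟩
    intro p hp
    apply hcov p (hH hp)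
    have h2 := hc p hp
    rw [max_eq_left hM] at h2
    exact h2
  · rw [not_le] at hM
    have hMpos : (0 : ℝ) < ((spannedLines H).card : ℝ) := by
      rcases Nat.eq_zero_or_pos (spannedLines H).card with h | h
      · rw [h, Nat.cast_zero, div_zero] at hM
        exact absurd hM (not_lt.2 (sq_nonneg ε))
      · exact_mod_cast h
    obtain ⟨N, hN, hcard, hcov⟩ := hPRG P H w hP hH hw ε R h0 h1 hR (by
      intro p hp
      have h2 := hc p hp
      rw [max_eq_right hM.le] at h2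
      refine le_trans h2 (le_of_eq ?_)
      apply Finset.sum_congr _ (fun _ _ => rfl)
      ext l
      simp only [Finset.mem_filter]
      have h3 : w l ≤ R * (1 / ((spannedLines H).card : ℝ)) * (∑ l' ∈ spannedLines P, w l') ↔
          w l * ((spannedLines H).card : ℝ) ≤ R * tw P w := by
        have h4 : R * (1 / ((spannedLines H).card : ℝ)) * (∑ l' ∈ spannedLines P, w l') =
            R * tw P w / ((spannedLines H).card : ℝ) := by
          unfold tw
          ring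
        rw [h4, le_div_iff₀ hMpos]
      rw [h3])
    refine ⟨N, hN, le_trans hcard ?_, hcov⟩
    have h2 : 0 ≤ 1 / ε := by positivity
    have h3 : Real.log R + 4 ≤ Real.log R + 20 := by linarith
    exact mul_le_mul_of_nonneg_left h3 h2

end Pool.LLN
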