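import Pool.Agent.Work.MP_ef7f46_ll.Defs

/-!
# THEOREM LL (MP_ef7f46_co, light lines): interface

The file of block `X` is `Pool/Agent/Work/MP_ef7f46_ll/B_X.lean`: `import` this file,
`open Classical`, `namespace Pool.LLN`, `theorem p_X (hA : Stmt_A) .. : Stmt_X` with the blocks of
the column `uses` as hypotheses in that order; auxiliary lemmas with prefix `X_`.

Two facts are used everywhere: for `a.1 < v.1` the point `v` is above, on, below the line `ab` when
`sl a b` is smaller than, equal to, larger than `sl a v` (`v.2 = a.2 + sl a v * (v.1 - a.1)`), and a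
function `f x = p + q x` with `f u > 0`, `f v < 0`, `u < v` has a zero in `(u, v)`.
-/

set_option autoImplicit false
open Classical
open EpsNet.Elem (lineThrough spannedLines IsEpsNet)

namespace Pool.LLN

/-! ## A. Straight line graphs in the plane -/

/-- LMX (30 lines), uses nothing: the leftmost vertex of the wedge exists.
Proof.  The set of the `v ∈ T` with `a.1 < v.1`, `sl a b ≤ sl a v ≤ sl a c` contains `b`; take one with
the smallest first coordinate (`Finset.exists_min_image`). -/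
def Stmt_LMX : Prop := ∀ (T : Finset Pt) (E : Finset (Pt × Pt)) (a b c : Pt), Gr T E →
  Nx E a b c → ∃ d, Lm T a b c d

/-- TRI (60 lines), uses nothing.
Proof.  `b` and `c` are in the wedge, so `d.1 ≤ b.1`, `d.1 ≤ c.1`.  If `sl a d = sl a b` then
`d.2 = ht a b d.1`; if `d.1 < b.1` this contradicts `free`, so `d.1 = b.1` and `d = b` (`inj`).  The same
for `c`. -/
def Stmt_TRI : Prop := ∀ (T : Finset Pt) (E : Finset (Pt × Pt)) (a b c d : Pt), Gr T E →
  Nx E a b c → Lm T a b c d →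
    d.1 ≤ b.1 ∧ d.1 ≤ c.1 ∧ (d = b ∨ d = c ∨ (sl a b < sl a d ∧ sl a d < sl a c))

/-- CS0 (150 lines), uses TRI: a vertex strictly inside determines the wedge.
Proof.  By symmetry `a.1 ≤ a'.1`.  If `a.1 = a'.1` then `a = a'` (`inj`); if `sl a b < sl a b'` then
`b'` contradicts the last part of `Nx E a b c` (`sl a b' < sl a d < sl a c`); the same for `<` in the other
direction; so `sl a b = sl a b'` and `b = b'` (otherwise the nearer one of `b`, `b'` is inside the edge to
the other one, `free`).  Let `a.1 < a'.1 < d.1`.  As `d` is the leftmost vertex, `a'` is not in the wedge at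
`a`: `sl a c < sl a a'` or `sl a a' < sl a b`.  In the first case `a'` is above the line `ac`, the point of
the line `a'b'` at `d.1` is below `d` (`sl a' b' < sl a' d`), which is below the line `ac`: so the lines
`a'b'` and `ac` meet over some `x ∈ (a'.1, d.1)`, and `d.1 ≤ b'.1`, `d.1 ≤ c.1` (TRI), `a.1 < a'.1`: the
edges `(a', b') ≠ (a, c)` meet, a contradiction.  In the second case the same with the edges
`(a', c')` and `(a, b)`: `a'` is below the line `ab`, and at `d.1` the line `a'c'` is above `d`, which is above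
the line `ab`. -/
def Stmt_CS0 : Prop := ∀ (T : Finset Pt) (E : Finset (Pt × Pt)), Gr T E → Plane E →
  ∀ a b c d a' b' c' : Pt, Nx E a b c → Lm T a b c d → sl a b < sl a d → sl a d < sl a c →
    Nx E a' b' c' → Lm T a' b' c' d → sl a' b' < sl a' d → sl a' d < sl a' c' → a = a' ∧ b = b'

/-- CS1 (120 lines), uses nothing: if `b` is the leftmost vertex of the wedge, `ab` has the smallest
slope of the edges `eb`.
Proof.  Let `(e, b) ∈ E`, `e ≠ a`, `sl e b ≤ sl a b`.  If `sl e b = sl a b` the points `a`, `e` (different first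
coordinates) and `b` are on a line and the one of `a`, `e` with the larger first coordinate is inside the edge
from the other one to `b` (`free`).  So `sl e b < sl a b`: for `x < b.1` the line `eb` is above the line
`ab`.  At `b.1` the line `eb` is at `b`, below the line `ac` (`sl a b < sl a c`).  If `e.1 < a.1`: at `a.1`
the line `eb` is above `a`, so the edges `(e, b)`, `(a, c)` meet over some `x ∈ (a.1, b.1)` (`b.1 ≤ c.1`).  If
`a.1 < e.1`: `e.1 < b.1`, so `e` is not in the wedge, and it is above the line `ab`, so it is above the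
line `ac`: the edges `(e, b)`, `(a, c)` meet over some `x ∈ (e.1, b.1)`.  `e.1 = a.1` gives `e = a`. -/
def Stmt_CS1 : Prop := ∀ (T : Finset Pt) (E : Finset (Pt × Pt)), Gr T E → Plane E →
  ∀ a b c e : Pt, Nx E a b c → Lm T a b c b → (e, b) ∈ E → e ≠ a → sl a b < sl e b

/-- CS2 (120 lines), uses nothing: the reflection of CS1 (`y ↦ -y`).
Proof.  Let `(e, c) ∈ E`, `e ≠ a`, `sl a c ≤ sl e c`.  Equality is impossible as in CS1.  So
`sl a c < sl e c`: for `x < c.1` the line `ec` is below the line `ac`.  At `c.1` it is at `c`, above the line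
`ab`.  If `e.1 < a.1`: at `a.1` the line `ec` is below `a`, so `(e, c)`, `(a, b)` meet over some
`x ∈ (a.1, c.1)` (`c.1 ≤ b.1`).  If `a.1 < e.1`: `e` is not in the wedge and below the line `ac`, so below
the line `ab`: `(e, c)`, `(a, b)` meet over some `x ∈ (e.1, c.1)`. -/
def Stmt_CS2 : Prop := ∀ (T : Finset Pt) (E : Finset (Pt × Pt)), Gr T E → Plane E →
  ∀ a b c e : Pt, Nx E a b c → Lm T a b c c → (e, c) ∈ E → e ≠ a → sl e c < sl a c

/-- PLN (150 lines), uses LMX TRI CS0 CS1 CS2: a plane straight line graph has at most `4 |T|` edges.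
Proof.  `E₁` = the edges `(a, b)` for which some `(a, v) ∈ E` has `sl a b < sl a v`; for them there is `c` with
`Nx E a b c` (smallest slope) and `d` with `Lm T a b c d` (LMX).  Map `(a, b)` to `(d, 1)` if `d = b`, to
`(d, 2)` if `d = c ≠ b`, to `(d, 0)` otherwise, in `T × Fin 3`.  This is injective on `E₁`: type 0 by CS0
(TRI gives the strict inequalities); type 1: for two edges `(a, b)`, `(a', b)` with `a ≠ a'` CS1 gives
`sl a b < sl a' b` and `sl a' b < sl a b`; type 2: for `(a, b)`, `(a', b')` with the same `c`, CS2 gives `a = a'`,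
and if `sl a b < sl a b'` then `Nx E a b c` is false for `v = b'` (`sl a b' < sl a c`), so the slopes are equal and `b = b'`
(otherwise the nearer one is inside the edge to the other, `free`).  So `|E₁| ≤ 3 |T|`.  The edges not in
`E₁` are the edges of largest slope at their left end point `a`, which determines them: at most `|T|`. -/
def Stmt_PLN : Prop := ∀ (T : Finset Pt) (E : Finset (Pt × Pt)), Gr T E → Plane E →
  E.card ≤ 4 * T.card

/-- XNG (100 lines), uses PLN: straight line graphs with crossings.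
Proof.  `E'` = the edges `e ∈ E` such that no `e' ∈ E` has smaller slope and meets `e`.  `E \ E'` maps injectively
to the crossing pairs (choose `e'`).  `Gr T E'` is clear.  `Plane E'`: let `e ≠ e'` in `E'` meet over `x`.
Different slopes contradict the definition of `E'` (`Meet` is symmetric).  Equal slopes: the two lines
are equal (`ht e = ht e'` at `x`, so everywhere); if `e.1.1 < e'.1.1` then `e'.1` is inside `e` (`free`);
the same with `e`, `e'` exchanged; if `e.1.1 = e'.1.1` then `e.1 = e'.1`, so `e.2 ≠ e'.2` have different first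
coordinates and the nearer one is inside the other edge. -/
def Stmt_XNG : Prop := ∀ (T : Finset Pt) (E : Finset (Pt × Pt)), Gr T E →
  E.card ≤ 4 * T.card + ((E ×ˢ E).filter
    (fun z => sl z.2.1 z.2.2 < sl z.1.1 z.1.2 ∧ Meet z.1 z.2)).card

/-! ## B. Consecutive points on lines -/

/-- CON (80 lines), uses nothing.
Proof.  If `pl P l` is empty the claim is `0 ≤ _ + 1`.  Otherwise let `m` be its point with the largest
first coordinate.  Every other `a ∈ pl P l` has `a.1 < m.1` (`Inj`), so there is `b ∈ pl P l` with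
`a.1 < b.1`, `b.1` smallest, and `(a, b) ∈ Cs P l`: an injective map of `(pl P l).erase m` to `Cs P l`. -/
def Stmt_CON : Prop := ∀ (P : Finset Pt) (l : Ln), Inj P → (pl P l).card ≤ (Cs P l).card + 1

/-- CDJ (60 lines), uses nothing.
Proof.  (1) `e.1`, `e.2` are on `l` and `e.1.1 < e.2.1`.  (2) by (1) `l.1 = sl e.1 e.2 = l'.1`, and then
`l.2 = e.1.2 - l.1 * e.1.1 = l'.2`.  (3) if `e.1.1 < e'.1.1` then `e'.1.1 < x < e.2.1`, so `e'.1` is
between the consecutive points `e.1`, `e.2`; exchange; if `e.1.1 = e'.1.1` then `e.1 = e'.1` and, if `e.2.1 < e'.2.1`,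
`e.2` is between `e'.1` and `e'.2`; exchange; otherwise `e.2 = e'.2`. -/
def Stmt_CDJ : Prop := ∀ (P : Finset Pt) (l : Ln), Inj P → ∀ e ∈ Cs P l,
  (sl e.1 e.2 = l.1 ∧ ∀ x, ht e.1 e.2 x = l.1 * x + l.2) ∧
  (∀ l' : Ln, e ∈ Cs P l' → l = l') ∧
  ∀ e' ∈ Cs P l, ∀ x, e.1.1 < x → x < e.2.1 → e'.1.1 < x → x < e'.2.1 → e = e'

/-- XPR (100 lines), uses CDJ: two lines give at most one crossing pair, with four end points.
Proof.  `Xs P l l' = ∅` unless `l'.1 < l.1`.  Let `l'.1 < l.1`: the lines meet over exactly one `x₀`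
(`(l.1 - l'.1) x₀ = l'.2 - l.2`).  If `(e, e') ∈ Xs P l l'` the `x` of `Meet e e'` is `x₀` (CDJ (1)), so
`x₀` is in both open intervals, and CDJ (3) shows that `e` and `e'` are determined.  End points: a point
on both lines has first coordinate `x₀`, and no end point has; so no end point of `e` is an end
point of `e'`; `e.1 ≠ e.2`, `e'.1 ≠ e'.2`.  All end points are in `P`. -/
def Stmt_XPR : Prop := ∀ (P : Finset Pt) (l l' : Ln), Inj P →
  (Xs P l l').card ≤ 1 ∧ (Xs P l l = ∅) ∧ ∀ z ∈ Xs P l l', s4 z ⊆ P ∧ (s4 z).card = 4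

/-- GEO (150 lines), uses XNG CDJ: crossings in terms of lines.
Proof.  `E` = the pairs `e` with `e.1 ∈ T`, `e.2 ∈ T` and `e ∈ Cs P l` for some `l ∈ U` (`Finset.biUnion`).
The sets `Cs P l` are disjoint for different `l` (CDJ (2)), so the left side is `|E|`.  `Gr T E`: `free`
because a vertex `v ∈ T ⊆ P` inside `e` would be on `l` (CDJ (1)) between consecutive points.  XNG.  A crossing pair
`(e, e')` with `e ∈ Cs P l`, `e' ∈ Cs P l'` has `l'.1 = sl e' < sl e = l.1`, so it is in `Xs P l l'` and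
its end points are in `T`: the number of crossing pairs is at most the double sum
(`Finset.card_biUnion_le` or a double counting). -/
def Stmt_GEO : Prop := ∀ (P : Finset Pt), Inj P → ∀ (T : Finset Pt) (U : Finset Ln), T ⊆ P →
  ∑ l ∈ U, ((Cs P l).filter (fun e => s2 e ⊆ T)).card ≤
    4 * T.card + ∑ l ∈ U, ∑ l' ∈ U, ((Xs P l l').filter (fun z => s4 z ⊆ T)).card

/-! ## C. Random subsets -/

/-- EXP (60 lines), uses nothing: the probability that the random subset contains `A`.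
Proof.  `∏_{v ∈ V} (p v + g v)` with `g v = 0` for `v ∈ A`, `g v = 1 - p v` otherwise; it is `∏_{v ∈ A} p v`, and by
`Finset.prod_add` it is `∑_{T ⊆ V} ∏_{T} p · ∏_{V \ T} g`, where the terms with `A ⊄ T` vanish. -/
def Stmt_EXP : Prop := ∀ (α : Type) (V A : Finset α) (p : α → ℝ), A ⊆ V →
  ∑ T ∈ V.powerset.filter (fun T => A ⊆ T), mu V p T = ∏ v ∈ A, p v

/-- DX1 (100 lines), uses EXP: random set of lines.
Proof.  Multiply the hypothesis for `U` by `mu L a U ≥ 0` and sum over `U ⊆ L`.  By EXP (`A = ∅, {l}, {l, l'}`):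
`∑_U mu U = 1`, `∑_U mu U ∑_{l ∈ U} c l = ∑_l a l c l`, and for `l ≠ l'` the sets `U ∋ l, l'` have
weight `a l a l'`; `d l l = 0`. -/
def Stmt_DX1 : Prop := ∀ (β : Type) (L : Finset β) (a c : β → ℝ) (d : β → β → ℝ) (K : ℝ),
  (∀ l ∈ L, 0 ≤ a l ∧ a l ≤ 1) → (∀ l ∈ L, d l l = 0) →
  (∀ U ⊆ L, ∑ l ∈ U, c l ≤ K + ∑ l ∈ U, ∑ l' ∈ U, d l l') →
  ∑ l ∈ L, a l * c l ≤ K + ∑ l ∈ L, ∑ l' ∈ L, a l * a l' * d l l'

/-- DX2 (150 lines), uses EXP: random set of points.
Proof.  Multiply the hypothesis for `T` by `mu V (fun _ => q) T ≥ 0` and sum over `T ⊆ V`.  EXP: a set of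
`k` points is in `T` with probability `q ^ k`, so `q² ∑ a l |C l| ≤ 4 q |V| + q⁴ ∑ a l a l' |D l l'|
≤ 4 q |V| + q⁴ (∑ a l)²` (`|T| = ∑_{v ∈ V} [v ∈ T]`, `|D l l'| ≤ 1`).  Divide by `q²`. -/
def Stmt_DX2 : Prop := ∀ (α β γ δ : Type) (V : Finset α) (L : Finset β) (C : β → Finset γ)
  (s : γ → Finset α) (D : β → β → Finset δ) (t : δ → Finset α) (a : β → ℝ) (q : ℝ),
  (∀ l ∈ L, ∀ e ∈ C l, s e ⊆ V ∧ (s e).card = 2) →
  (∀ l ∈ L, ∀ l' ∈ L, ∀ f ∈ D l l', t f ⊆ V ∧ (t f).card = 4) →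
  (∀ l ∈ L, ∀ l' ∈ L, (D l l').card ≤ 1) → (∀ l ∈ L, 0 ≤ a l) → 0 < q → q ≤ 1 →
  (∀ T ⊆ V, ∑ l ∈ L, a l * (((C l).filter (fun e => s e ⊆ T)).card : ℝ) ≤
    4 * (T.card : ℝ) +
      ∑ l ∈ L, ∑ l' ∈ L, a l * a l' * (((D l l').filter (fun f => t f ⊆ T)).card : ℝ)) →
  ∑ l ∈ L, a l * ((C l).card : ℝ) ≤ 4 * (V.card : ℝ) / q + q ^ 2 * (∑ l ∈ L, a l) ^ 2

/-- WST (80 lines), uses CON XPR GEO DX1 DX2: weighted Szemerédi-Trotter in linear form.
Proof.  For fixed `T ⊆ P` GEO (for all `U ⊆ L`) and DX1 with `c l = #{e ∈ Cs P l | s2 e ⊆ T}`,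
`d l l' = #{z ∈ Xs P l l' | s4 z ⊆ T}` (`d l l = 0` by XPR) give the last hypothesis of DX2 with
`C = Cs P`, `D = Xs P`.  The end points of `e ∈ Cs P l` are two different points of `P`.  CON:
`|pl P l| - 1 ≤ |Cs P l|`. -/
def Stmt_WST : Prop := ∀ (P : Finset Pt) (L : Finset Ln) (a : Ln → ℝ) (q : ℝ), Inj P →
  (∀ l ∈ L, 0 ≤ a l ∧ a l ≤ 1) → 0 < q → q ≤ 1 →
  ∑ l ∈ L, a l * (((pl P l).card : ℝ) - 1) ≤
    4 * (P.card : ℝ) / q + q ^ 2 * (∑ l ∈ L, a l) ^ 2

/-! ## D. Arbitrary point sets -/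

/-- SHR (40 lines), uses nothing: a shear makes the first coordinates distinct.
Proof.  Choose `δ` outside the finite set of the numbers `-(p.1 - q.1) / (p.2 - q.2)`, `p, q ∈ P` (`ℝ` is
infinite, `Infinite.exists_notMem_finset`).  If `p.1 + δ p.2 = q.1 + δ q.2` then
`δ (p.2 - q.2) = -(p.1 - q.1)`, so `p.2 = q.2` by the choice of `δ`, and `p.1 = q.1`. -/
def Stmt_SHR : Prop := ∀ P : Finset Pt, ∃ δ : ℝ, ∀ p ∈ P, ∀ q ∈ P,
  p.1 + δ * p.2 = q.1 + δ * q.2 → p = q

/-- KAP (40 lines), uses nothing: a line in sheared coordinates.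
Proof.  With `X = x.1 + δ x.2`, `U`, `V` for `u`, `v`: `x ∈ lineThrough u v` means
`(x.1 - u.1) (v.2 - u.2) = (x.2 - u.2) (v.1 - u.1)`; add `δ (x.2 - u.2) (v.2 - u.2)` to both sides:
`(X - U) (v.2 - u.2) = (x.2 - u.2) (V - U)`.  So `l = (s, u.2 - s U)`, `s = (v.2 - u.2) / (V - U)`. -/
def Stmt_KAP : Prop := ∀ (δ : ℝ) (u v : Pt), u.1 + δ * u.2 ≠ v.1 + δ * v.2 →
  ∃ l : Ln, ∀ x : Pt, x ∈ lineThrough u v ↔ On l (x.1 + δ * x.2, x.2)

/-- INC (120 lines), uses WST SHR KAP: the weighted bound for spanned lines.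
Proof.  `δ` from SHR for `P`, `φ x = (x.1 + δ x.2, x.2)` (injective).  KAP gives for every `l ∈ spannedLines P` a line
`κ l : Ln` with `x ∈ l ↔ On (κ l) (φ x)`; `κ` is injective on `spannedLines P` (the set `l` is
determined by `κ l`).  WST for `H.image φ` (`Inj` by the choice of `δ`), `𝓛.image κ` and the weights
`a ∘ κ⁻¹` (for example `fun m => ∑ l ∈ 𝓛 with κ l = m, a l`, or an inverse function of `κ`); `|pl (H.image φ) (κ l)| = |H ∩ l|`. -/
def Stmt_INC : Prop := ∀ (P H : Finset Pt) (𝓛 : Finset (Set Pt)) (a : Set Pt → ℝ) (q : ℝ), H ⊆ P →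
  𝓛 ⊆ spannedLines P → (∀ l ∈ 𝓛, 0 ≤ a l ∧ a l ≤ 1) → 0 < q → q ≤ 1 →
  ∑ l ∈ 𝓛, a l * (((H.filter (fun p => p ∈ l)).card : ℝ) - 1) ≤
    4 * (H.card : ℝ) / q + q ^ 2 * (∑ l ∈ 𝓛, a l) ^ 2

/-- GRD (150 lines), uses nothing: the greedy cover.
Proof.  (i) For every `t : ℕ` there is `N ⊆ L`, `|N| ≤ t`, such that at most `|H| (1 - ε) ^ t` points of `H` are
on no line of `N`.  Induction: let `H'` be the uncovered points; `∑_{l ∈ L} w l |H' ∩ l| = ∑_{p ∈ H'} w(p) ≥
ε |H'| W ≥ ε |H'| ∑_{l ∈ L} w l`, so (if `H'` is not empty; then `∑ w l > 0`) some `l ∈ L` contains at least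
`ε |H'|` points of `H'`; add it.  (ii) `t = ⌈(log K) / ε⌉₊ ≤ (log K) / ε + 1 ≤ (log K + 1) / ε`, so at
most `(K / ε) (1 - ε) ^ t ≤ (K / ε) exp (- ε t) ≤ 1 / ε` points are uncovered; add one line through each of
them (it exists because `ε W > 0`). -/
def Stmt_GRD : Prop := ∀ (α β : Type) (H : Finset α) (L : Finset β) (inc : α → β → Prop)
  (w : β → ℝ) (ε W K : ℝ), (∀ l ∈ L, 0 ≤ w l) → 0 < W → ∑ l ∈ L, w l ≤ W → 0 < ε → ε ≤ 1 →
  (∀ p ∈ H, ε * W ≤ ∑ l ∈ L.filter (fun l => inc p l), w l) → 1 ≤ K → (H.card : ℝ) ≤ K / ε →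
  ∃ N ⊆ L, (N.card : ℝ) ≤ 1 / ε * (Real.log K + 2) ∧ ∀ p ∈ H, ∃ l ∈ N, inc p l

/-- PR1 (180 lines), uses INC GRD: THEOREM LL (1).
Proof.  `𝓛 = spannedLines P` is not empty because `2 ≤ P.card`, so `W = tw P w > 0`.  `N₁ = {l ∈ 𝓛 | w l ≤ R ε² W ∧ ε W / 12 < w l}`: `|N₁| ≤ 12 / ε` (the sum of their
weights is at most `W`).  `H` = the points `p ∈ P` with `ε W ≤ ∑_{l ∋ p, w l ≤ R ε² W} w l` on no line of `N₁`.
`𝓛' = {l ∈ 𝓛 | w l ≤ B}`, `B = min (ε W / 12) (R ε² W) > 0`: for `p ∈ H` all light lines through `p` are in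
`𝓛'`.  `a l = w l / B`, `A = W / B ≥ 12 / ε`, `q = 12 / (ε A) ≤ 1`.  INC for `H`, `𝓛'`:
`∑_{l ∈ 𝓛'} a l |H ∩ l| ≤ A + 4 |H| / q + q² A² = A + ε A |H| / 3 + 144 / ε²` (`∑_{𝓛'} a l ≤ A`).  The left
side is `∑_{p ∈ H} ∑_{l ∈ 𝓛', p ∈ l} a l ≥ |H| ε A`.  So `(2/3) |H| ε A ≤ A + 144 / ε²`,
`|H| ≤ (3/2) / ε + 216 / (ε³ A) ≤ (3/2 + 216 R) / ε ≤ 218 R / ε`, because `1 / A = B / W ≤ R ε²`.  GRD with
`K = 218 R` (`log 218 ≤ 6`): at most `(log R + 8) / ε` lines, together with `N₁` at most `(log R + 20) / ε`. -/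
def Stmt_PR1 : Prop := ∀ (P : Finset Pt) (w : Set Pt → ℝ), 2 ≤ P.card →
  (∀ l ∈ spannedLines P, 0 < w l) → ∀ ε R : ℝ, 0 < ε → ε ≤ 1 → 1 ≤ R →
  ∃ N ⊆ spannedLines P, (N.card : ℝ) ≤ 1 / ε * (Real.log R + 20) ∧
    ∀ p ∈ P, ε * tw P w ≤
      (∑ l ∈ (spannedLines P).filter (fun l => p ∈ l ∧ w l ≤ R * ε ^ 2 * tw P w), w l) →
      ∃ l ∈ N, p ∈ l

/-! ## E. The average size of a spanned line -/

/-- RLF (80 lines), uses nothing: rotation about the left point.
Proof.  Suppose `c ∈ P`, `On l' c`, `c.1 < p.1`.  With `h = p.1 - c.1 > 0`, `k = r.1 - p.1 > 0` the slope of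
`c r` is `(l'.1 h + l.1 k) / (h + k)`, strictly between `l.1` and `l'.1`.  So the line `cr` (it is in `SLn P`) passes
through `r` and has slope in `(l.1, l'.1)`; therefore there is `m` with `NL P r l m` (the smallest slope larger than `l.1` of the
spanned lines through `r`) and `m.1 < l'.1`: a contradiction. -/
def Stmt_RLF : Prop := ∀ (P : Finset Pt) (p r : Pt) (l l' : Ln), Inj P → Sc P p r l →
  NL P p l l' → (∀ m, NL P r l m → l'.1 ≤ m.1) → ∀ c ∈ P, On l' c → p.1 ≤ c.1

/-- RRT (80 lines), uses nothing: rotation about the right point.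
Proof.  Suppose `c ∈ P`, `On l' c`, `r.1 < c.1`.  With `k = r.1 - p.1`, `h = c.1 - r.1` the slope of `p c` is
`(l.1 k + l'.1 h) / (h + k)`, strictly between `l.1` and `l'.1`: so there is `m` with `NL P p l m` and
`m.1 < l'.1`, against the hypothesis. -/
def Stmt_RRT : Prop := ∀ (P : Finset Pt) (p r : Pt) (l l' : Ln), Inj P → Sc P p r l →
  NL P r l l' → (∀ m, NL P p l m → l'.1 < m.1) → ∀ c ∈ P, On l' c → c.1 ≤ r.1

/-- RIN (200 lines), uses RLF RRT: counting incident pairs.
Proof.  Let `(p, l) ∈ Qs P`.  (0) `p` is the rightmost point of `P` on `l`: `l` determines `p` (`Inj`), so there are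
at most `|SLn P|` such pairs.  Otherwise let `Sc P p r l`.  (1) there is `l'` with `NL P p l l'` and
`l'.1 ≤ m.1` for every `m` with `NL P r l m`: map `(p, l)` to `l'`.  By RLF `p` is the leftmost point of `P` on `l'`, so
`l'` determines `p`, and `l` is the line of the largest slope smaller than `l'.1` through `p` in `SLn P` (if
`(p, l₁)`, `(p, l₂)` have the same `l'` and `l₁.1 < l₂.1` then `l'.1 ≤ l₂.1 < l'.1`; if `l₁.1 = l₂.1` the lines are equal since both
pass through `p`).  (2) there is `l'` with `NL P r l l'` and `l'.1 < m.1` for every `m` with `NL P p l m`: map `(p, l)` to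
`l'`.  By RRT `r` is the rightmost point on `l'`, so `l'` determines `r`, then `l` as in (1), and then
`p` (`Sc P p r l`, `Sc P p' r l` imply `p = p'`).  (3) if neither (1) nor (2) applies there is no `l'` with `NL P p l l'` (if both
`NL P p l l'` and some `NL P r l m` exist, compare the slopes; `NL` determines the slope): `l` is the line of largest slope
through `p`, so `p` determines the pair: at most `|P|` pairs. -/
def Stmt_RIN : Prop := ∀ P : Finset Pt, Inj P → (Qs P).card ≤ 3 * (SLn P).card + P.card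

/-- ROT (80 lines), uses RIN.
Proof.  Every `p ∈ P` is on at least two spanned lines: otherwise all points of `P` are on one line `l`
(`P` has at least two points because `SLn P` is not empty) and `SLn P = {l}`.  So `2 |P| ≤ |Qs P| ≤
3 |SLn P| + |Qs P| / 2`. -/
def Stmt_ROT : Prop := ∀ P : Finset Pt, Inj P → 2 ≤ (SLn P).card →
  (Qs P).card ≤ 6 * (SLn P).card

/-- RTT (120 lines), uses ROT SHR KAP.
Proof.  `δ` from SHR for `H`, `φ x = (x.1 + δ x.2, x.2)`, `κ` as in INC.  `κ` is a bijection from `spannedLines H` to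
`SLn (H.image φ)` (the line `κ (lineThrough u v)` passes through `φ u`, `φ v`), and
`(Qs (H.image φ)).card = ∑_{l ∈ spannedLines H} |H ∩ l|`.  ROT. -/
def Stmt_RTT : Prop := ∀ H : Finset Pt, 2 ≤ (spannedLines H).card →
  ∑ l ∈ spannedLines H, (H.filter (fun p => p ∈ l)).card ≤ 6 * (spannedLines H).card

/-- LTU (40 lines), uses nothing: two points determine a line.
Proof.  `lineThrough p q` is the set of the `p + τ (q - p)`, `τ ∈ ℝ` (divide by a nonzero coordinate of
`q - p`); `u = p + τ (q - p)`, `v = p + σ (q - p)`, `τ ≠ σ`, so `v - u` is a nonzero multiple of `q - p`;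
both equations are then equivalent (cross product with `q - p`, and `u - p` is a multiple of `q - p`). -/
def Stmt_LTU : Prop := ∀ p q u v : Pt, p ≠ q → u ≠ v → u ∈ lineThrough p q → v ∈ lineThrough p q →
  lineThrough u v = lineThrough p q

/-- PR2 (180 lines), uses RTT GRD LTU: THEOREM LL (2).
Proof.  `H = heavy ε P w`, `W = tw P w > 0`.  If `H` is empty take `N = ∅`; if `(spannedLines H).card ≤ 1` and `H` is not empty,
one line of `spannedLines P` contains `H` (if `|H| = 1` a line through the point exists because `ε W > 0`; if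
`|H| ≥ 2` the only line of `spannedLines H`, which is in `spannedLines P`): `|N| ≤ 1 ≤ 4 / ε`.  Let
`M = (spannedLines H).card ≥ 2`.  A line of `spannedLines P` not in `spannedLines H` contains at most one point
of `H` (LTU), so `|H| ε W ≤ ∑_{p ∈ H} ∑_{l ∋ p} w l = ∑_{l ∈ spannedLines P} w l |H ∩ l| ≤
W + ∑_{l ∈ spannedLines H} w l |H ∩ l| ≤ W + (R W / M) 6 M` (RTT), `|H| ≤ 7 R / ε`.  GRD with `K = 7 R`,
`log 7 ≤ 2`. -/
def Stmt_PR2 : Prop := ∀ (P : Finset Pt) (w : Set Pt → ℝ), 2 ≤ P.card →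
  (∀ l ∈ spannedLines P, 0 < w l) → ∀ ε R : ℝ, 0 < ε → ε ≤ 1 → 1 ≤ R →
  (∀ l ∈ spannedLines (heavy ε P w),
    w l * ((spannedLines (heavy ε P w)).card : ℝ) ≤ R * tw P w) →
  ∃ N, IsEpsNet ε P w N ∧ (N.card : ℝ) ≤ 1 / ε * (Real.log R + 4)

/-- ASY (60 lines), uses nothing: calculus.
Proof.  `log (ρ ε) = o(log (1 / ε))` and `20 = o(log (1 / ε))` as `ε → 0+`; multiply by `1 / ε`
(`Asymptotics.IsLittleO.mul_isBigO` or `IsBigO.mul_isLittleO`). -/
def Stmt_ASY : Prop := ∀ ρ : ℝ → ℝ,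
  Asymptotics.IsLittleO (nhdsWithin (0 : ℝ) (Set.Ioi 0)) (fun ε => Real.log (ρ ε))
    (fun ε : ℝ => Real.log (1 / ε)) →
  Asymptotics.IsLittleO (nhdsWithin (0 : ℝ) (Set.Ioi 0))
    (fun ε => 1 / ε * (Real.log (ρ ε) + 20)) (fun ε : ℝ => (1 / ε) * Real.log (1 / ε))

end Pool.LLN
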